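import Pool.Agent.Lib.MP_ce1fc8_nt.Barrier1

set_option autoImplicit false

namespace Pool.Agent.Lib.MP_ce1fc8_nt

open Finset

lemma barrier (K N K1 q l m s : ℕ) (σ M E : ℝ) (A : Finset ℕ) (y : ℕ → ℝ)
    (hσ : 0 < σ) (hM : 0 < M) (hE : 0 ≤ E)
    (hN1 : 24 * N ≤ K) (hN2 : K ≤ 25 * N) (hA : A ⊆ range K) (hcard : σ * K ≤ A.card)
    (hq : 1 ≤ q)
    (hmax : ∀ n, n + (q - 1) < K → ((sub A n 1 q).card : ℝ) ≤ (1 + 1 / 1000) * σ * q)
    (hy : ∀ n ∈ A, |y n| ≤ M)
    (hl : 1 ≤ l) (hm : 1 ≤ m) (hm2 : (m : ℝ) - 1 ≤ σ * l / 16)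
    (hK1 : 16 * ((q : ℝ) + l) ≤ σ * K1) (hK1N : 10 * K1 ≤ N)
    (hKL : ∀ j H : ℕ, K1 ≤ H → H ≤ j → j + l + H + K1 ≤ K → ∀ U Z : Finset ℕ,
      U ⊆ A ∩ Ico (j - H) (j + l + H) → 9 / 16 * σ * (2 * H + l) ≤ U.card →
      Z ⊆ A ∩ Ico j (j + l) → m ≤ Z.card →
      ∃ a ∈ U, ∃ b ∈ U, ∃ c ∈ Z, y a + y b ≤ 2 * y c + E ∧ 2 * c ≤ a + b ∧ a + b ≤ 2 * c + s) :
    ∃ (u n : ℕ) (B : Finset ℕ) (μ ν : ℝ), K1 ≤ n ∧ B ⊆ A ∩ Ico u (u + n) ∧
      σ * n / 4 ≤ B.card ∧
      ∀ i ∈ B, |y i - (μ * i + ν)| ≤ E + 5 * M * s / N + 45 * M * (K1 : ℝ) ^ 2 / (N : ℝ) ^ 2 := by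
  classical
  have hqpos : (0 : ℝ) < q := by exact_mod_cast hq
  have hlpos : (0 : ℝ) < l := by exact_mod_cast hl
  have hK1pos : (0 : ℝ) < K1 := by
    by_contra hc
    push Not at hc
    have : σ * K1 ≤ 0 := mul_nonpos_of_nonneg_of_nonpos hσ.le hc
    linarith
  have hK1pos' : 0 < K1 := by exact_mod_cast hK1pos
  have hNpos' : 0 < N := by omega
  have hNpos : (0 : ℝ) < N := by exact_mod_cast hNpos'
  have hKpos : (0 : ℝ) < K := by exact_mod_cast (by omega : 0 < K)
  have hσ1 : σ ≤ 1 := by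
    have h1 := card_le_card hA
    rw [card_range] at h1
    have h2 : (A.card : ℝ) ≤ K := by exact_mod_cast h1
    have : σ * K ≤ 1 * K := by linarith
    exact le_of_mul_le_mul_right this hKpos
  have hK1N' : 10 * (K1 : ℝ) ≤ N := by exact_mod_cast hK1N
  have hσK1 : σ * K1 ≤ K1 := by nlinarith
  have hqK1 : q ≤ K1 := by
    have : (q : ℝ) ≤ K1 := by linarith
    exact_mod_cast this
  have hlK1 : l ≤ K1 := by
    have : (l : ℝ) ≤ K1 := by linarith
    exact_mod_cast this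
  have hlK1' : (l : ℝ) ≤ K1 := by exact_mod_cast hlK1
  obtain ⟨G, hG1, hG2, hG3⟩ := good_points K N q σ A hσ hN2 hA hcard hq (by omega)
    (by nlinarith) hmax
  have hG2' : (N : ℝ) ≤ G.card := by exact_mod_cast hG2
  have hG4 : (G.card : ℝ) ≤ 2 * N := by
    have := card_le_card hG1
    rw [Nat.card_Ico] at this
    exact_mod_cast (by omega : G.card ≤ 2 * N)
  set β : ℝ := 5 * M / (N : ℝ) ^ 2 with hβ
  have hβpos : 0 < β := by positivity
  set z : ℕ → ℝ := fun n => y n + β * ∑ g ∈ G, |(n : ℝ) - g| with hz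
  have hmr : (0 : ℝ) ≤ (m : ℝ) - 1 := by
    have : (1 : ℝ) ≤ m := by exact_mod_cast hm
    linarith
  have hlow : ∀ n : ℝ, 0 ≤ n → ((m : ℝ) - 1) * (n / l + 1) ≤ σ * (n + l) / 16 := by
    intro n hn
    calc ((m : ℝ) - 1) * (n / l + 1) ≤ σ * l / 16 * (n / l + 1) := by gcongr
      _ = σ * (n + l) / 16 := by field_simp
  have hlt : ∀ (S : Finset ℕ), S.card < m → (S.card : ℝ) ≤ (m : ℝ) - 1 := by
    intro S hS
    have : ((S.card + 1 : ℕ) : ℝ) ≤ m := by exact_mod_cast hS
    push_cast at this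
    linarith
  obtain ⟨g0, hg0⟩ : G.Nonempty := card_pos.mp (by omega)
  have hg0' := mem_Ico.mp (hG1 hg0)
  -- a short interval with many points near g0
  obtain ⟨j0, hj0⟩ : ∃ j0, m ≤ ((A ∩ Ico g0 (g0 + K1)) ∩ Ico j0 (j0 + l)).card := by
    by_contra hc
    push Not at hc
    have h1 := cover (A ∩ Ico g0 (g0 + K1)) g0 K1 l hl inter_subset_right ((m : ℝ) - 1)
      (fun j => hlt _ (hc j))
    have h2 := hG3 g0 hg0 g0 (g0 + K1) le_rfl (by omega) (by omega)
    have h3 := hlow K1 hK1pos.le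
    push_cast at h2
    nlinarith
  set T0 : ℝ := M + β * (G.card * (2 * N + K1)) with hT0
  obtain ⟨t, j, htT, hZ, hLow⟩ := threshold A z l m hm T0 j0
    ((A ∩ Ico g0 (g0 + K1)) ∩ Ico j0 (j0 + l))
    (by
      intro n hn
      simp only [mem_inter] at hn ⊢
      exact ⟨hn.1.1, hn.2⟩) hj0
    (by
      intro n hn
      simp only [mem_inter, mem_Ico] at hn
      have h1 := (abs_le.mp (hy n hn.1.1)).2
      have h2 : ∑ g ∈ G, |(n : ℝ) - g| ≤ ∑ _g ∈ G, (2 * (N : ℝ) + K1) := by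
        apply sum_le_sum
        intro g hg
        have hg' := mem_Ico.mp (hG1 hg)
        have a1 : (n : ℝ) ≤ g + (2 * N + K1) := by exact_mod_cast (by omega : n ≤ g + (2 * N + K1))
        have a2 : (g : ℝ) ≤ n + (2 * N + K1) := by exact_mod_cast (by omega : g ≤ n + (2 * N + K1))
        rw [abs_le]
        constructor <;> linarith
      rw [sum_const, nsmul_eq_mul] at h2
      simp only [hz, hT0]
      have := mul_le_mul_of_nonneg_left h2 hβpos.le
      linarith)
  set Z := (A ∩ Ico j (j + l)).filter (fun n => z n ≤ t) with hZdef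
  -- localisation
  have hloc : ∀ c ∈ Z, 8 * N ≤ c ∧ c < 16 * N := by
    intro c hc
    have hc1 := (mem_filter.mp hc).2
    have hc2 := (mem_inter.mp (mem_filter.mp hc).1).1
    by_contra hcon
    have h1 := (abs_le.mp (hy c hc2)).1
    have h2 : ∑ _g ∈ G, (3 * (N : ℝ)) ≤ ∑ g ∈ G, |(c : ℝ) - g| := by
      apply sum_le_sum
      intro g hg
      have hg' := mem_Ico.mp (hG1 hg)
      by_cases h8 : 8 * N ≤ c
      · have a1 : (g : ℝ) + 3 * N ≤ c := by exact_mod_cast (by omega : g + 3 * N ≤ c)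
        have := le_abs_self ((c : ℝ) - g)
        linarith
      · have a1 : (c : ℝ) + 3 * N ≤ g := by exact_mod_cast (by omega : c + 3 * N ≤ g)
        have := neg_abs_le ((c : ℝ) - g)
        linarith
    rw [sum_const, nsmul_eq_mul] at h2
    have h3 := mul_le_mul_of_nonneg_left h2 hβpos.le
    have h4 : β * (N : ℝ) ^ 2 = 5 * M := by rw [hβ]; field_simp
    have h5 : (N : ℝ) ^ 2 / 2 ≤ G.card * (N - K1) := by nlinarith
    have h6 := mul_le_mul_of_nonneg_left h5 hβpos.le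
    simp only [hz, hT0] at hc1 htT
    nlinarith
  obtain ⟨c0, hc0⟩ : Z.Nonempty := card_pos.mp (by omega)
  have hc0' := hloc c0 hc0
  have hc0'' := mem_Ico.mp (mem_inter.mp (mem_filter.mp hc0).1).2
  have hex : ∃ H : ℕ, K1 ≤ H ∧ ∃ g ∈ G, j ≤ g + H ∧ g < j + l + H :=
    ⟨5 * N, by omega, g0, hg0, by omega, by omega⟩
  set H := Nat.find hex with hH
  obtain ⟨hH1, g1, hg1, hg1a, hg1b⟩ := Nat.find_spec hex
  rw [← hH] at hH1 hg1a hg1b
  have hH2 : H ≤ 5 * N := Nat.find_min' hex ⟨by omega, g0, hg0, by omega, by omega⟩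
  have hHj : H ≤ j := by omega
  set u := j - H with hu
  set v := j + l + H - 1 with hv
  have hw : ((G ∩ Ioo u v).card : ℝ) * ((v : ℝ) - u) ≤ 9 * (K1 : ℝ) ^ 2 := by
    by_cases hHK : H = K1
    · have h1 : (G ∩ Ioo u v).card ≤ 3 * K1 := by
        refine (card_le_card inter_subset_right).trans ?_
        rw [Nat.card_Ioo]
        omega
      have h1' : ((G ∩ Ioo u v).card : ℝ) ≤ 3 * K1 := by exact_mod_cast h1
      have h2 : (v : ℝ) ≤ u + 3 * K1 := by exact_mod_cast (by omega : v ≤ u + 3 * K1)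
      have h3 : (u : ℝ) ≤ v := by exact_mod_cast (by omega : u ≤ v)
      calc ((G ∩ Ioo u v).card : ℝ) * ((v : ℝ) - u) ≤ (3 * K1) * (3 * K1) := by
            apply mul_le_mul h1' (by linarith) (by linarith) (by positivity)
        _ = 9 * (K1 : ℝ) ^ 2 := by ring
    · have h1 : G ∩ Ioo u v = ∅ := by
        apply eq_empty_of_forall_notMem
        intro g hg
        have hg' := mem_inter.mp hg
        have hg'' := mem_Ioo.mp hg'.2
        apply Nat.find_min hex (m := H - 1) (by omega)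
        exact ⟨by omega, g, hg'.1, by omega, by omega⟩
      rw [h1]
      simp
  obtain ⟨μ0, ν0, hμ0, haff⟩ := affine_part G u v
  set w0 : ℝ := 45 * M * (K1 : ℝ) ^ 2 / (N : ℝ) ^ 2 with hw0
  have hw0' : β * (9 * (K1 : ℝ) ^ 2) = w0 := by rw [hβ, hw0]; ring
  have hw0pos : 0 ≤ w0 := by positivity
  have heps : ∀ n ∈ Ico (j - H) (j + l + H),
      0 ≤ z n - y n - β * (μ0 * n + ν0) ∧ z n - y n - β * (μ0 * n + ν0) ≤ w0 := by
    intro n hn
    have hn' := mem_Ico.mp hn
    obtain ⟨h1, h2⟩ := haff n (by omega) (by omega)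
    have e : z n - y n - β * (μ0 * n + ν0) = β * (∑ g ∈ G, |(n : ℝ) - g| - (μ0 * n + ν0)) := by
      simp only [hz]; ring
    rw [e, ← hw0']
    exact ⟨mul_nonneg hβpos.le h1, mul_le_mul_of_nonneg_left (h2.trans hw) hβpos.le⟩
  set W : ℝ := E / 2 + 5 * M * s / N + w0 with hW
  set I := A ∩ Ico (j - H) (j + l + H) with hI
  have hIcard : 15 / 16 * σ * (2 * H + l) - q ≤ (I.card : ℝ) := by
    have := hG3 g1 hg1 (j - H) (j + l + H) (by omega) (by omega) (by omega)
    rw [Nat.cast_sub hHj] at this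
    push_cast at this
    have e : (j : ℝ) + l + H - (j - H) = 2 * H + l := by ring
    rw [e] at this
    exact this
  have hU : ((I.filter (fun n => t + W < z n)).card : ℝ) < 9 / 16 * σ * (2 * H + l) := by
    by_contra hc
    push Not at hc
    obtain ⟨a, ha, b, hb, c, hc, h1, h2, h3⟩ := hKL j H hH1 hHj (by omega) _ Z
      (filter_subset _ _) hc (filter_subset _ _) hZ
    have ha1 := (mem_filter.mp ha).2
    have hb1 := (mem_filter.mp hb).2
    have hc1 := (mem_filter.mp hc).2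
    have ha2 := heps a (mem_inter.mp (mem_filter.mp ha).1).2
    have hb2 := heps b (mem_inter.mp (mem_filter.mp hb).1).2
    have hc3 := mem_Ico.mp (mem_inter.mp (mem_filter.mp hc).1).2
    have hc2 := heps c (mem_Ico.mpr ⟨by omega, by omega⟩)
    have h2' : (0 : ℝ) ≤ (a : ℝ) + b - 2 * c := by
      have : (2 * c : ℝ) ≤ a + b := by exact_mod_cast h2
      linarith
    have h3' : (a : ℝ) + b - 2 * c ≤ s := by
      have : (a : ℝ) + b ≤ 2 * c + s := by exact_mod_cast h3
      linarith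
    have h4 : μ0 * ((a : ℝ) + b - 2 * c) ≤ 2 * N * s := by
      have := (abs_le.mp hμ0).2
      calc μ0 * ((a : ℝ) + b - 2 * c) ≤ (2 * N) * ((a : ℝ) + b - 2 * c) := by
            apply mul_le_mul_of_nonneg_right (by linarith) h2'
        _ ≤ 2 * N * s := by gcongr
    have h5 := mul_le_mul_of_nonneg_left h4 hβpos.le
    have h6 : β * (2 * N * s) = 2 * (5 * M * s / N) := by rw [hβ]; field_simp
    nlinarith
  have hLowI : ((I.filter (fun n => z n < t)).card : ℝ) ≤ σ * ((2 * H + l) + l) / 16 := by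
    have h1 := cover (I.filter (fun n => z n < t)) (j - H) (2 * H + l) l hl
      (by
        intro n hn
        have := mem_Ico.mp (mem_inter.mp (mem_filter.mp hn).1).2
        exact mem_Ico.mpr ⟨by omega, by omega⟩) ((m : ℝ) - 1)
      (by
        intro j'
        refine le_trans ?_ (hlt _ (hLow j'))
        have : I.filter (fun n => z n < t) ∩ Ico j' (j' + l) ⊆
            (A ∩ Ico j' (j' + l)).filter (fun n => z n < t) := by
          intro n hn
          simp only [hI, mem_inter, mem_filter] at hn ⊢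
          exact ⟨⟨hn.1.1.1, hn.2⟩, hn.1.2⟩
        exact_mod_cast card_le_card this)
    push_cast at h1
    exact h1.trans (hlow _ (by positivity))
  set B := I.filter (fun n => t ≤ z n ∧ z n ≤ t + W) with hB
  have hsplit : I ⊆ B ∪ (I.filter (fun n => t + W < z n) ∪ I.filter (fun n => z n < t)) := by
    intro n hn
    simp only [hB, mem_union, mem_filter]
    by_cases h1 : z n < t
    · exact Or.inr (Or.inr ⟨hn, h1⟩)
    · by_cases h2 : t + W < z n
      · exact Or.inr (Or.inl ⟨hn, h2⟩)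
      · exact Or.inl ⟨hn, by linarith, by linarith⟩
  have hsplit2 := (card_le_card hsplit).trans (card_union_le _ _)
  have hsplit3 := card_union_le (I.filter (fun n => t + W < z n)) (I.filter (fun n => z n < t))
  have hsplit4 : (I.card : ℝ) ≤ B.card + ((I.filter (fun n => t + W < z n)).card +
      (I.filter (fun n => z n < t)).card) := by exact_mod_cast (by omega)
  have hH1' : (K1 : ℝ) ≤ H := by exact_mod_cast hH1
  refine ⟨j - H, 2 * H + l, B, -(β * μ0), t - β * ν0, by omega, ?_, ?_, ?_⟩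
  · intro n hn
    have h1 := mem_inter.mp (mem_filter.mp hn).1
    have h2 := mem_Ico.mp h1.2
    exact mem_inter.mpr ⟨h1.1, mem_Ico.mpr ⟨by omega, by omega⟩⟩
  · push_cast
    have h1 : σ * K1 ≤ σ * (2 * H + l) := by
      apply mul_le_mul_of_nonneg_left _ hσ.le
      linarith
    have h2 : σ * l ≤ l := by nlinarith
    nlinarith
  · intro i hi
    have h1 := (mem_filter.mp hi).2
    have h2 := heps i (mem_inter.mp (mem_filter.mp hi).1).2
    have h3 : 0 ≤ 5 * M * s / N := by positivity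
    rw [abs_le]
    constructor <;> linarith [h1.1, h1.2, h2.1, h2.2]

end Pool.Agent.Lib.MP_ce1fc8_nt
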