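import Pool.Agent.Lib.MP_ce1fc8_nt.Basic

set_option autoImplicit false

namespace Pool.Agent.Lib.MP_ce1fc8_nt

open Finset

lemma card_shift (B : Finset ℕ) (u v c : ℕ) :
    ((Ico u v).filter (fun n => n + c ∈ B)).card = (B ∩ Ico (u + c) (v + c)).card := by
  apply card_bij (fun n _ => n + c)
  · intro n hn
    simp only [mem_filter, mem_Ico, mem_inter] at hn ⊢
    exact ⟨hn.2, by omega, by omega⟩
  · intro a _ b _ h
    omega
  · intro b hb
    simp only [mem_filter, mem_Ico, mem_inter] at hb ⊢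
    refine ⟨b - c, ⟨⟨by omega, by omega⟩, ?_⟩, by omega⟩
    have : b - c + c = b := by omega
    rw [this]
    exact hb.1

lemma sum_sub (B : Finset ℕ) (u v e q : ℕ) :
    ∑ n ∈ Ico u v, (sub B n e q).card =
      ∑ t ∈ range q, (B ∩ Ico (u + e * t) (v + e * t)).card := by
  unfold sub
  simp only [card_filter]
  rw [sum_comm]
  apply sum_congr rfl
  intro t _
  rw [← card_shift, card_filter]

lemma card_sub_one (A : Finset ℕ) (n q : ℕ) :
    (sub A n 1 q).card = (A ∩ Ico n (n + q)).card := by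
  have := card_shift A 0 q n
  rw [zero_add, add_comm q n] at this
  rw [← this, sub, range_eq_Ico]
  congr 1
  apply filter_congr
  intro t _
  rw [one_mul, add_comm]

lemma sum_sub_ge (B : Finset ℕ) (u v e q : ℕ) :
    (q : ℝ) * (((B ∩ Ico u v).card : ℝ) - e * q) ≤
      ∑ n ∈ Ico u v, ((sub B n e q).card : ℝ) := by
  have h := sum_sub B u v e q
  have h' : ∑ n ∈ Ico u v, ((sub B n e q).card : ℝ) =
      ∑ t ∈ range q, ((B ∩ Ico (u + e * t) (v + e * t)).card : ℝ) := by exact_mod_cast h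
  rw [h']
  have : ∀ t ∈ range q, ((B ∩ Ico u v).card : ℝ) - e * q ≤
      ((B ∩ Ico (u + e * t) (v + e * t)).card : ℝ) := by
    intro t ht
    have ht' : t < q := mem_range.mp ht
    have hsub : B ∩ Ico u v ⊆ (B ∩ Ico (u + e * t) (v + e * t)) ∪ Ico u (u + e * t) := by
      intro b hb
      simp only [mem_inter, mem_union, mem_Ico] at hb ⊢
      by_cases hc : u + e * t ≤ b
      · exact Or.inl ⟨hb.1, hc, by omega⟩
      · exact Or.inr ⟨hb.2.1, by omega⟩
    have hc := (card_le_card hsub).trans (card_union_le _ _)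
    rw [Nat.card_Ico] at hc
    have h3 : u + e * t - u ≤ e * q := by
      have : e * t ≤ e * q := Nat.mul_le_mul_left _ ht'.le
      omega
    have h4 : (B ∩ Ico u v).card ≤ (B ∩ Ico (u + e * t) (v + e * t)).card + e * q := by omega
    have h5 : ((B ∩ Ico u v).card : ℝ) ≤
        ((B ∩ Ico (u + e * t) (v + e * t)).card : ℝ) + e * q := by exact_mod_cast h4
    linarith
  have h2 := sum_le_sum this
  rw [sum_const, card_range, nsmul_eq_mul] at h2
  exact h2

lemma sum_sub_le (B : Finset ℕ) (u v e q : ℕ) :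
    ∑ n ∈ Ico u v, ((sub B n e q).card : ℝ) ≤
      (q : ℝ) * (((B ∩ Ico u v).card : ℝ) + e * q) := by
  have h := sum_sub B u v e q
  have h' : ∑ n ∈ Ico u v, ((sub B n e q).card : ℝ) =
      ∑ t ∈ range q, ((B ∩ Ico (u + e * t) (v + e * t)).card : ℝ) := by exact_mod_cast h
  rw [h']
  have : ∀ t ∈ range q, ((B ∩ Ico (u + e * t) (v + e * t)).card : ℝ) ≤
      ((B ∩ Ico u v).card : ℝ) + e * q := by
    intro t ht
    have ht' : t < q := mem_range.mp ht
    have hsub : B ∩ Ico (u + e * t) (v + e * t) ⊆ (B ∩ Ico u v) ∪ Ico v (v + e * t) := by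
      intro b hb
      simp only [mem_inter, mem_union, mem_Ico] at hb ⊢
      by_cases hc : b < v
      · exact Or.inl ⟨hb.1, by omega, hc⟩
      · exact Or.inr ⟨by omega, hb.2.2⟩
    have hc := (card_le_card hsub).trans (card_union_le _ _)
    rw [Nat.card_Ico] at hc
    have h3 : v + e * t - v ≤ e * q := by
      have : e * t ≤ e * q := Nat.mul_le_mul_left _ ht'.le
      omega
    have h4 : (B ∩ Ico (u + e * t) (v + e * t)).card ≤ (B ∩ Ico u v).card + e * q := by omega
    exact_mod_cast h4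
  have h2 := sum_le_sum this
  rw [sum_const, card_range, nsmul_eq_mul] at h2
  exact h2

lemma good_points (K N q : ℕ) (σ : ℝ) (A : Finset ℕ) (hσ : 0 < σ)
    (hN2 : K ≤ 25 * N) (hA : A ⊆ range K) (hcard : σ * K ≤ A.card)
    (hq : 1 ≤ q) (hqK : q ≤ K) (hqN : 160 * (q : ℝ) ≤ σ * N)
    (hmax : ∀ n, n + (q - 1) < K → ((sub A n 1 q).card : ℝ) ≤ (1 + 1 / 1000) * σ * q) :
    ∃ G : Finset ℕ, G ⊆ Ico (11 * N) (13 * N) ∧ N ≤ G.card ∧
      ∀ g ∈ G, ∀ u v : ℕ, u ≤ g → g ≤ v → v ≤ K →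
        15 / 16 * σ * ((v : ℝ) - u) - q ≤ ((A ∩ Ico u v).card : ℝ) := by
  classical
  have hqpos : (0 : ℝ) < q := by exact_mod_cast hq
  have hmax' : ∀ n, ((sub A n 1 q).card : ℝ) ≤ (1 + 1 / 1000) * σ * q := by
    intro n
    by_cases hn : n + (q - 1) < K
    · exact hmax n hn
    · refine le_trans ?_ (hmax (K - q) (by omega))
      rw [card_sub_one, card_sub_one]
      have : A ∩ Ico n (n + q) ⊆ A ∩ Ico (K - q) (K - q + q) := by
        intro b hb
        simp only [mem_inter, mem_Ico] at hb ⊢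
        have := mem_range.mp (hA hb.1)
        exact ⟨hb.1, by omega, by omega⟩
      exact_mod_cast card_le_card this
  set f : ℕ → ℝ := fun n => (1 + 1 / 1000) * σ - ((sub A n 1 q).card : ℝ) / q with hf
  have hf0 : ∀ n, 0 ≤ f n := by
    intro n
    have := hmax' n
    simp only [hf, sub_nonneg]
    rw [div_le_iff₀ hqpos]
    exact this
  have hfsum : ∀ u v : ℕ, u ≤ v → ∑ n ∈ Ico u v, f n =
      (1 + 1 / 1000) * σ * ((v : ℝ) - u) - (∑ n ∈ Ico u v, ((sub A n 1 q).card : ℝ)) / q := by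
    intro u v huv
    simp only [hf]
    rw [sum_sub_distrib, sum_const, Nat.card_Ico, nsmul_eq_mul, Nat.cast_sub huv, sum_div]
    ring
  have htot : ∑ n ∈ range K, f n ≤ σ * K / 1000 + q := by
    rw [range_eq_Ico, hfsum 0 K (Nat.zero_le _)]
    have h1 := sum_sub_ge A 0 K 1 q
    have h2 : A ∩ Ico 0 K = A := by
      rw [← range_eq_Ico]
      exact inter_eq_left.mpr hA
    rw [h2] at h1
    have h3 : (A.card : ℝ) - q ≤ (∑ n ∈ Ico 0 K, ((sub A n 1 q).card : ℝ)) / q := by
      rw [le_div_iff₀ hqpos]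
      simp only [Nat.cast_one, one_mul] at h1
      linarith
    simp only [Nat.cast_zero, sub_zero]
    linarith
  set BR := (range (K + 1)).filter
    (fun g => ∃ h : ℕ, g + h ≤ K ∧ σ / 16 * h < ∑ n ∈ Ico g (g + h), f n) with hBR
  set BL := (range (K + 1)).filter
    (fun g => ∃ h : ℕ, h ≤ g ∧ σ / 16 * h < ∑ n ∈ Ico (g - h) g, f n) with hBL
  have h1 := sun_right f K (σ / 16) (fun n _ => hf0 n) (by positivity) BR
    (fun g hg => (mem_filter.mp hg).2)
  have h2 := sun_left f K (σ / 16) (fun n _ => hf0 n) (by positivity) BL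
    (fun g hg => ⟨by have := mem_range.mp (mem_filter.mp hg).1; omega, (mem_filter.mp hg).2⟩)
  have hK : (K : ℝ) ≤ 25 * N := by exact_mod_cast hN2
  have h3 : (BR.card : ℝ) + BL.card ≤ N := by
    have : σ * ((BR.card : ℝ) + BL.card) ≤ σ * N := by nlinarith
    exact le_of_mul_le_mul_left this hσ
  have h4 : BR.card + BL.card ≤ N := by exact_mod_cast h3
  refine ⟨Ico (11 * N) (13 * N) \ (BR ∪ BL), sdiff_subset, ?_, ?_⟩
  · have h5 := le_card_sdiff (BR ∪ BL) (Ico (11 * N) (13 * N))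
    have h6 := card_union_le BR BL
    rw [Nat.card_Ico] at h5
    omega
  · intro g hg u v hug hgv hvK
    have hg' := (mem_sdiff.mp hg).2
    rw [mem_union, not_or] at hg'
    have hgK : g ∈ range (K + 1) := mem_range.mpr (by omega)
    have hR : ∑ n ∈ Ico g v, f n ≤ σ / 16 * ((v : ℝ) - g) := by
      by_contra hc
      push Not at hc
      apply hg'.1
      refine mem_filter.mpr ⟨hgK, v - g, by omega, ?_⟩
      have : g + (v - g) = v := by omega
      rw [this, Nat.cast_sub hgv]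
      exact hc
    have hL : ∑ n ∈ Ico u g, f n ≤ σ / 16 * ((g : ℝ) - u) := by
      by_contra hc
      push Not at hc
      apply hg'.2
      refine mem_filter.mpr ⟨hgK, g - u, by omega, ?_⟩
      have : g - (g - u) = u := by omega
      rw [this, Nat.cast_sub hug]
      exact hc
    have hs := sum_Ico_consecutive f hug hgv
    rw [hfsum u v (hug.trans hgv)] at hs
    have h7 := sum_sub_le A u v 1 q
    have h8 : (∑ n ∈ Ico u v, ((sub A n 1 q).card : ℝ)) / q ≤ ((A ∩ Ico u v).card : ℝ) + q := by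
      rw [div_le_iff₀ hqpos]
      simp only [Nat.cast_one, one_mul] at h7
      linarith
    have h9 : (0 : ℝ) ≤ (v : ℝ) - u := by
      have : (u : ℝ) ≤ v := by exact_mod_cast hug.trans hgv
      linarith
    have h10 : 0 ≤ σ * ((v : ℝ) - u) := by positivity
    nlinarith

lemma threshold (A : Finset ℕ) (z : ℕ → ℝ) (l m : ℕ) (hm : 1 ≤ m) (T0 : ℝ) (j0 : ℕ)
    (B0 : Finset ℕ) (hB0 : B0 ⊆ A ∩ Ico j0 (j0 + l)) (hmB : m ≤ B0.card)
    (hT : ∀ n ∈ B0, z n ≤ T0) :
    ∃ (t : ℝ) (j : ℕ), t ≤ T0 ∧ m ≤ ((A ∩ Ico j (j + l)).filter (fun n => z n ≤ t)).card ∧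
      ∀ j', ((A ∩ Ico j' (j' + l)).filter (fun n => z n < t)).card < m := by
  classical
  have aux : ∀ (j : ℕ) (B : Finset ℕ), B ⊆ A ∩ Ico j (j + l) → m ≤ B.card →
      ∃ b ∈ B, m ≤ ((A ∩ Ico j (j + l)).filter (fun n => z n ≤ z b)).card := by
    intro j B hB hmB
    have hne : B.Nonempty := card_pos.mp (by omega)
    obtain ⟨b, hb, hmax⟩ := exists_max_image B z hne
    refine ⟨b, hb, hmB.trans (card_le_card ?_)⟩
    intro n hn
    exact mem_filter.mpr ⟨hB hn, hmax n hn⟩
  set S := A.filter (fun b => ∃ j, m ≤ ((A ∩ Ico j (j + l)).filter (fun n => z n ≤ z b)).card)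
    with hS
  obtain ⟨b0, hb0, hb0'⟩ := aux j0 B0 hB0 hmB
  have hb0S : b0 ∈ S := mem_filter.mpr ⟨(mem_inter.mp (hB0 hb0)).1, j0, hb0'⟩
  obtain ⟨b, hb, hmin⟩ := exists_min_image S z ⟨b0, hb0S⟩
  obtain ⟨j, hj⟩ := (mem_filter.mp hb).2
  refine ⟨z b, j, (hmin b0 hb0S).trans (hT b0 hb0), hj, ?_⟩
  intro j'
  by_contra hc
  push Not at hc
  obtain ⟨b', hb', hb''⟩ := aux j' _ (filter_subset _ _) hc
  have h1 : b' ∈ S := mem_filter.mpr ⟨(mem_inter.mp (mem_filter.mp hb').1).1, j', hb''⟩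
  have h2 := hmin b' h1
  have h3 := (mem_filter.mp hb').2
  linarith

lemma affine_part (G : Finset ℕ) (u v : ℕ) :
    ∃ μ ν : ℝ, |μ| ≤ G.card ∧ ∀ n : ℕ, u ≤ n → n ≤ v →
      0 ≤ ∑ g ∈ G, |(n : ℝ) - g| - (μ * n + ν) ∧
      ∑ g ∈ G, |(n : ℝ) - g| - (μ * n + ν) ≤ ((G ∩ Ioo u v).card : ℝ) * ((v : ℝ) - u) := by
  classical
  set c : ℕ → ℝ := fun g => if g ≤ u then 1 else if v ≤ g then -1 else 0 with hc
  refine ⟨∑ g ∈ G, c g, -∑ g ∈ G, c g * g, ?_, ?_⟩
  · refine (abs_sum_le_sum_abs _ _).trans ?_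
    have : ∀ g ∈ G, |c g| ≤ 1 := by
      intro g _
      simp only [hc]
      split_ifs <;> simp
    have h2 := sum_le_sum this
    simpa using h2
  · intro n hun hnv
    have hun' : (u : ℝ) ≤ n := by exact_mod_cast hun
    have hnv' : (n : ℝ) ≤ v := by exact_mod_cast hnv
    have e : ∑ g ∈ G, |(n : ℝ) - g| - ((∑ g ∈ G, c g) * n + -∑ g ∈ G, c g * g) =
        ∑ g ∈ G, (|(n : ℝ) - g| - c g * ((n : ℝ) - g)) := by
      rw [sum_sub_distrib, sum_mul]
      simp only [mul_sub, sum_sub_distrib]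
      ring
    rw [e]
    constructor
    · apply sum_nonneg
      intro g _
      simp only [hc]
      have h1 := le_abs_self ((n : ℝ) - g)
      have h2 := neg_abs_le ((n : ℝ) - g)
      split_ifs <;> linarith [abs_nonneg ((n : ℝ) - g)]
    · have : ∀ g ∈ G, |(n : ℝ) - g| - c g * ((n : ℝ) - g) ≤
          if g ∈ Ioo u v then ((v : ℝ) - u) else 0 := by
        intro g _
        simp only [hc, mem_Ioo]
        by_cases h1 : g ≤ u
        · have h1' : (g : ℝ) ≤ u := by exact_mod_cast h1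
          rw [if_pos h1, if_neg (by omega), abs_of_nonneg (by linarith)]
          linarith
        · by_cases h2 : v ≤ g
          · have h2' : (v : ℝ) ≤ g := by exact_mod_cast h2
            rw [if_neg h1, if_pos h2, if_neg (by omega), abs_of_nonpos (by linarith)]
            linarith
          · rw [if_neg h1, if_neg h2, if_pos (by omega)]
            have h1' : (u : ℝ) ≤ g := by exact_mod_cast (by omega : u ≤ g)
            have h2' : (g : ℝ) ≤ v := by exact_mod_cast (by omega : g ≤ v)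
            rw [zero_mul, sub_zero, abs_le]
            constructor <;> linarith
      refine (sum_le_sum this).trans (le_of_eq ?_)
      rw [← sum_filter, sum_const, nsmul_eq_mul, filter_mem_eq_inter]

end Pool.Agent.Lib.MP_ce1fc8_nt
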