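import Mathlib

set_option autoImplicit false

namespace Pool.Agent.Lib.MP_ce1fc8_nt

open Finset

lemma sun_right (f : ℕ → ℝ) (K : ℕ) (lam : ℝ) (hf : ∀ n, n < K → 0 ≤ f n) (hlam : 0 ≤ lam)
    (Bad : Finset ℕ)
    (hB : ∀ g ∈ Bad, ∃ h : ℕ, g + h ≤ K ∧ lam * h < ∑ n ∈ Ico g (g + h), f n) :
    lam * (Bad.card : ℝ) ≤ ∑ n ∈ range K, f n := by
  have hpos : ∀ g ∈ Bad, g < K := by
    intro g hg
    obtain ⟨h, h1, h2⟩ := hB g hg
    rcases Nat.eq_zero_or_pos h with rfl | hh
    · simp at h2
    · omega
  have key : ∀ j s : ℕ, s + j = K →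
      lam * ((Bad.filter (fun g => s ≤ g)).card : ℝ) ≤ ∑ n ∈ Ico s K, f n := by
    intro j
    induction j using Nat.strong_induction_on with
    | _ j ih =>
      intro s hs
      rcases Nat.eq_zero_or_pos j with rfl | hj
      · have : Bad.filter (fun g => s ≤ g) = ∅ := by
          apply filter_eq_empty_iff.mpr
          intro g hg
          have := hpos g hg
          omega
        rw [this]
        have : s = K := by omega
        subst this
        simp
      · by_cases hsB : s ∈ Bad
        · obtain ⟨h, h1, h2⟩ := hB s hsB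
          have hh : 0 < h := by
            rcases Nat.eq_zero_or_pos h with rfl | hh
            · simp at h2
            · exact hh
          have ih' := ih (j - h) (by omega) (s + h) (by omega)
          have hsub : Bad.filter (fun g => s ≤ g) ⊆
              Ico s (s + h) ∪ Bad.filter (fun g => s + h ≤ g) := by
            intro g hg
            simp only [mem_filter, mem_union, mem_Ico] at hg ⊢
            by_cases hc : s + h ≤ g
            · exact Or.inr ⟨hg.1, hc⟩
            · exact Or.inl ⟨hg.2, by omega⟩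
          have hc := (card_le_card hsub).trans (card_union_le _ _)
          rw [Nat.card_Ico] at hc
          have hc' : ((Bad.filter (fun g => s ≤ g)).card : ℝ) ≤
              h + ((Bad.filter (fun g => s + h ≤ g)).card : ℝ) := by
            have : s + h - s = h := by omega
            rw [this] at hc
            exact_mod_cast hc
          rw [← sum_Ico_consecutive f (Nat.le_add_right s h) h1]
          have := mul_le_mul_of_nonneg_left hc' hlam
          linarith
        · have ih' := ih (j - 1) (by omega) (s + 1) (by omega)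
          have he : Bad.filter (fun g => s ≤ g) = Bad.filter (fun g => s + 1 ≤ g) := by
            apply filter_congr
            intro g hg
            have : g ≠ s := fun h => hsB (h ▸ hg)
            omega
          rw [he, ← sum_Ico_consecutive f (Nat.le_add_right s 1) (by omega : s + 1 ≤ K)]
          have := hf s (by omega)
          simp only [Nat.Ico_succ_singleton, sum_singleton]
          linarith
  have h1 := key K 0 (by omega)
  have h2 : Bad.filter (fun g => 0 ≤ g) = Bad := filter_true_of_mem (fun g _ => Nat.zero_le g)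
  rw [h2] at h1
  rwa [range_eq_Ico]

lemma sun_left (f : ℕ → ℝ) (K : ℕ) (lam : ℝ) (hf : ∀ n, n < K → 0 ≤ f n) (hlam : 0 ≤ lam)
    (Bad : Finset ℕ)
    (hB : ∀ g ∈ Bad, g ≤ K ∧ ∃ h : ℕ, h ≤ g ∧ lam * h < ∑ n ∈ Ico (g - h) g, f n) :
    lam * (Bad.card : ℝ) ≤ ∑ n ∈ range K, f n := by
  have key : ∀ e : ℕ, e ≤ K →
      lam * ((Bad.filter (fun g => g ≤ e)).card : ℝ) ≤ ∑ n ∈ Ico 0 e, f n := by
    intro e
    induction e using Nat.strong_induction_on with
    | _ e ih =>
      intro he
      by_cases heB : e ∈ Bad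
      · obtain ⟨_, h, h1, h2⟩ := hB e heB
        have hh : 0 < h := by
          rcases Nat.eq_zero_or_pos h with rfl | hh
          · simp at h2
          · exact hh
        have ih' := ih (e - h) (by omega) (by omega)
        have hsub : Bad.filter (fun g => g ≤ e) ⊆
            Ioc (e - h) e ∪ Bad.filter (fun g => g ≤ e - h) := by
          intro g hg
          simp only [mem_filter, mem_union, mem_Ioc] at hg ⊢
          by_cases hc : g ≤ e - h
          · exact Or.inr ⟨hg.1, hc⟩
          · exact Or.inl ⟨by omega, hg.2⟩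
        have hc := (card_le_card hsub).trans (card_union_le _ _)
        rw [Nat.card_Ioc] at hc
        have hc' : ((Bad.filter (fun g => g ≤ e)).card : ℝ) ≤
            h + ((Bad.filter (fun g => g ≤ e - h)).card : ℝ) := by
          have : e - (e - h) = h := by omega
          rw [this] at hc
          exact_mod_cast hc
        rw [← sum_Ico_consecutive f (Nat.zero_le (e - h)) (Nat.sub_le e h)]
        have := mul_le_mul_of_nonneg_left hc' hlam
        linarith
      · rcases Nat.eq_zero_or_pos e with rfl | hpos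
        · have : Bad.filter (fun g => g ≤ 0) = ∅ := by
            apply filter_eq_empty_iff.mpr
            intro g hg hg0
            have : g = 0 := by omega
            exact heB (this ▸ hg)
          rw [this]
          simp
        · have ih' := ih (e - 1) (by omega) (by omega)
          have hee : Bad.filter (fun g => g ≤ e) = Bad.filter (fun g => g ≤ e - 1) := by
            apply filter_congr
            intro g hg
            have : g ≠ e := fun h => heB (h ▸ hg)
            omega
          rw [hee, ← sum_Ico_consecutive f (Nat.zero_le (e - 1)) (Nat.sub_le e 1)]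
          have h0 : 0 ≤ ∑ n ∈ Ico (e - 1) e, f n := by
            apply sum_nonneg
            intro n hn
            exact hf n (by have := (mem_Ico.mp hn).2; omega)
          linarith
  have h1 := key K le_rfl
  have h2 : Bad.filter (fun g => g ≤ K) = Bad := filter_true_of_mem (fun g hg => (hB g hg).1)
  rw [h2] at h1
  rwa [range_eq_Ico]

lemma cover (B : Finset ℕ) (u n l : ℕ) (hl : 0 < l) (hB : B ⊆ Ico u (u + n)) (r : ℝ)
    (h : ∀ j, ((B ∩ Ico j (j + l)).card : ℝ) ≤ r) :
    (B.card : ℝ) ≤ r * ((n : ℝ) / l + 1) := by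
  have hr : 0 ≤ r := le_trans (Nat.cast_nonneg _) (h 0)
  have hsub : B ⊆ (range (n / l + 1)).biUnion (fun i => B ∩ Ico (u + i * l) (u + i * l + l)) := by
    intro b hb
    have hb' := mem_Ico.mp (hB hb)
    simp only [mem_biUnion, mem_range, mem_inter, mem_Ico]
    refine ⟨(b - u) / l, ?_, hb, ?_, ?_⟩
    · have : (b - u) / l ≤ n / l := Nat.div_le_div_right (by omega)
      omega
    · have := Nat.div_mul_le_self (b - u) l
      omega
    · have := Nat.lt_div_mul_add (a := b - u) hl
      omega
  have h1 := (card_le_card hsub).trans card_biUnion_le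
  have h2 : (B.card : ℝ) ≤ ∑ i ∈ range (n / l + 1),
      ((B ∩ Ico (u + i * l) (u + i * l + l)).card : ℝ) := by exact_mod_cast h1
  have h3 : ∑ i ∈ range (n / l + 1), ((B ∩ Ico (u + i * l) (u + i * l + l)).card : ℝ)
      ≤ ∑ _i ∈ range (n / l + 1), r := sum_le_sum (fun i _ => h _)
  rw [sum_const, card_range, nsmul_eq_mul] at h3
  have h4 : ((n / l + 1 : ℕ) : ℝ) ≤ (n : ℝ) / l + 1 := by
    push_cast
    have := @Nat.cast_div_le ℝ _ _ _ n l
    linarith
  nlinarith

/-- Elements of `A` on the progression `a + d t`, `t < L`. -/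
def sub (A : Finset ℕ) (a d L : ℕ) : Finset ℕ := (range L).filter (fun t => a + d * t ∈ A)

lemma increment (eta : ℝ) (heta : 0 ≤ eta) (P : ℕ → Prop) (hP1 : P 1)
    (hPm : ∀ d d', P d → P d' → P (d * d')) (B : ℕ) (T : ℕ) (hT : 1 ≤ T) :
    ∀ (s : ℕ) (δ : ℝ) (A : Finset ℕ), A ⊆ range (T ^ (B ^ s)) →
      δ * ((T ^ (B ^ s) : ℕ) : ℝ) ≤ A.card → 1 < δ * (1 + eta) ^ s → 1 ≤ B →
      ∃ (q a d : ℕ) (σ : ℝ) (A' : Finset ℕ), T ≤ q ∧ P d ∧ δ ≤ σ ∧
        a + d * (q ^ B - 1) < T ^ (B ^ s) ∧ A' ⊆ range (q ^ B) ∧ (∀ t ∈ A', a + d * t ∈ A) ∧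
        σ * ((q ^ B : ℕ) : ℝ) ≤ A'.card ∧
        ∀ a' d', P d' → a' + d' * (q - 1) < q ^ B →
          ((sub A' a' d' q).card : ℝ) ≤ (1 + eta) * σ * q := by
  intro s
  induction s with
  | zero =>
    intro δ A hA hc h1 _
    exfalso
    have h2 := card_le_card hA
    simp only [pow_zero, pow_one, card_range, mul_one] at h1 h2 hc
    have h3 : (A.card : ℝ) ≤ T := by exact_mod_cast h2
    have h4 : (1 : ℝ) ≤ T := by exact_mod_cast hT
    nlinarith
  | succ s ih =>
    intro δ A hA hc h1 hB
    set q := T ^ (B ^ s) with hq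
    have hK : T ^ (B ^ (s + 1)) = q ^ B := by rw [hq, ← pow_mul, pow_succ]
    have hq1 : 1 ≤ q := Nat.one_le_pow _ _ hT
    have hTq : T ≤ q := by
      rw [hq]
      exact Nat.le_self_pow (pow_pos hB s).ne' T
    have hK1 : 1 ≤ q ^ B := Nat.one_le_pow _ _ hq1
    have hKpos : (0 : ℝ) < ((q ^ B : ℕ) : ℝ) := by exact_mod_cast hK1
    rw [hK] at hA hc ⊢
    set σ : ℝ := (A.card : ℝ) / ((q ^ B : ℕ) : ℝ) with hσ
    have hδσ : δ ≤ σ := by rw [hσ, le_div_iff₀ hKpos]; exact hc
    by_cases hmax : ∀ a' d', P d' → a' + d' * (q - 1) < q ^ B →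
          ((sub A a' d' q).card : ℝ) ≤ (1 + eta) * σ * q
    · refine ⟨q, 0, 1, σ, A, hTq, hP1, hδσ, by omega, hA, by simp, ?_, hmax⟩
      rw [hσ, div_mul_cancel₀ _ hKpos.ne']
    · push Not at hmax
      obtain ⟨a1, d1, hP, hlt, hbig⟩ := hmax
      have hqpos : (0 : ℝ) < q := by exact_mod_cast hq1
      obtain ⟨q', a, d, σ', A', h2, h3, h4, h5, h6, h7, h8, h9⟩ :=
        ih ((1 + eta) * δ) (sub A a1 d1 q) (filter_subset _ _)
          (by
            have : (1 + eta) * δ * q ≤ (1 + eta) * σ * q := by gcongr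
            linarith)
          (by rw [pow_succ] at h1; linarith) hB
      have hδ : 0 ≤ δ := by
        by_contra hneg
        push Not at hneg
        have : δ * (1 + eta) ^ (s + 1) ≤ 0 :=
          mul_nonpos_of_nonpos_of_nonneg hneg.le (by positivity)
        linarith
      refine ⟨q', a1 + d1 * a, d1 * d, σ', A', h2, hPm _ _ hP h3, ?_, ?_, h6, ?_, h8, h9⟩
      · nlinarith
      · have : a + d * (q' ^ B - 1) ≤ q - 1 := by omega
        calc a1 + d1 * a + d1 * d * (q' ^ B - 1) = a1 + d1 * (a + d * (q' ^ B - 1)) := by ring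
          _ ≤ a1 + d1 * (q - 1) := by gcongr
          _ < q ^ B := hlt
      · intro t ht
        have := (mem_filter.mp (h7 t ht)).2
        have e : a1 + d1 * a + d1 * d * t = a1 + d1 * (a + d * t) := by ring
        rw [e]
        exact this

end Pool.Agent.Lib.MP_ce1fc8_nt
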