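import Pool.Agent.Lib.MP_ce1fc8_nt.Sieve3

set_option autoImplicit false

namespace Pool.Agent.Lib.MP_ce1fc8_nt

open Finset

lemma card_le_of_cover {ι : Type*} (T : Finset ι) (E : Finset ℕ) (P : ι → ℕ → Prop) (b : ι → ℝ)
    (h1 : ∀ n ∈ E, ∃ τ ∈ T, P τ n)
    (h2 : ∀ τ ∈ T, ∀ E' : Finset ℕ, E' ⊆ E → (∀ n ∈ E', P τ n) → (E'.card : ℝ) ≤ b τ) :
    (E.card : ℝ) ≤ ∑ τ ∈ T, b τ := by
  classical
  have hsub : E ⊆ T.biUnion (fun τ => E.filter (P τ)) := by
    intro n hn
    obtain ⟨τ, h3, h4⟩ := h1 n hn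
    exact mem_biUnion.mpr ⟨τ, h3, mem_filter.mpr ⟨hn, h4⟩⟩
  have h3 := (card_le_card hsub).trans card_biUnion_le
  have h4 : (E.card : ℝ) ≤ ∑ τ ∈ T, ((E.filter (P τ)).card : ℝ) := by exact_mod_cast h3
  exact h4.trans (sum_le_sum (fun τ hτ =>
    h2 τ hτ _ (filter_subset _ _) (fun n hn => (mem_filter.mp hn).2)))

lemma dd_ne_zero {a b : ℕ} (h : a ≠ b) : dd a b ≠ 0 := by unfold dd; omega

lemma inj_insert (k : ℕ) (Hs : Finset ℕ) (Q h : ℕ)
    (hkQ : ∀ p, p.Prime → ¬ p ∣ Q → 2 * k ≤ p ∧ ∀ a ∈ Hs, ∀ b ∈ Hs, a ≡ b [MOD p] → a = b) :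
    ∀ p, p.Prime → ¬ p ∣ Q * ∏ h' ∈ Hs, dd h h' →
      2 * k ≤ p ∧ ∀ a ∈ insert h Hs, ∀ b ∈ insert h Hs, a ≡ b [MOD p] → a = b := by
  intro p hp hnd
  obtain ⟨h1, h2⟩ := hkQ p hp (fun hc => hnd (Dvd.dvd.mul_right hc _))
  have h3 : ∀ a ∈ Hs, ¬ a ≡ h [MOD p] := by
    intro a ha hc
    exact hnd (Dvd.dvd.mul_left (((dvd_dd _ _ _).mpr hc).trans
      (dvd_prod_of_mem (fun h' => dd h h') ha)) _)
  refine ⟨h1, ?_⟩
  intro a ha b hb hab
  rcases mem_insert.mp ha with rfl | ha' <;> rcases mem_insert.mp hb with rfl | hb'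
  · rfl
  · exact absurd hab.symm (h3 b hb')
  · exact absurd hab (h3 a ha')
  · exact h2 a ha' b hb' hab

lemma step_sum (k H : ℕ) (C : ℝ) (hC0 : 0 ≤ C)
    (hC : ∀ (t Y H h' : ℕ) (I : Finset ℕ), h' ≤ H → I ⊆ Ico t (t + Y) →
      (∀ h ∈ I, h ≤ H ∧ h ≠ h') → ∑ h ∈ I, eul (dd h h') ^ (k * k) ≤ C * (Y + Real.sqrt H))
    (Hs : Finset ℕ) (Q t Y : ℕ) (hne : Hs.Nonempty) (hcard : Hs.card ≤ k) (hQ : Q ≠ 0)
    (hH : ∀ h ∈ Hs, h ≤ H) (I : Finset ℕ) (hI : I ⊆ Ico t (t + Y))
    (hI2 : ∀ h ∈ I, h ≤ H ∧ h ∉ Hs) :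
    ∑ h ∈ I, eul (Q * ∏ h' ∈ Hs, dd h h') ^ k ≤ eul Q ^ k * (k * C * (Y + Real.sqrt H)) := by
  have h0 : ∀ n, 0 ≤ eul n := fun n => le_trans zero_le_one (one_le_eul n)
  have h1 : ∀ h ∈ I, eul (Q * ∏ h' ∈ Hs, dd h h') ^ k ≤
      eul Q ^ k * ∑ h' ∈ Hs, eul (dd h h') ^ (k * k) := by
    intro h hh
    have a1 : ∀ h' ∈ Hs, dd h h' ≠ 0 := fun h' hh' =>
      dd_ne_zero (fun hc => (hI2 h hh).2 (hc ▸ hh'))
    have a2 := eul_mul_le Q _ hQ (prod_ne_zero_iff.mpr a1)
    have a3 := eul_prod_le Hs (fun h' => dd h h') a1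
    obtain ⟨m, hm, hmax⟩ := exists_max_image Hs (fun h' => eul (dd h h')) hne
    have a4 : ∏ h' ∈ Hs, eul (dd h h') ≤ eul (dd h m) ^ k := by
      calc ∏ h' ∈ Hs, eul (dd h h') ≤ ∏ _h' ∈ Hs, eul (dd h m) :=
            prod_le_prod (fun _ _ => h0 _) hmax
        _ = eul (dd h m) ^ Hs.card := prod_const _
        _ ≤ _ := pow_le_pow_right₀ (one_le_eul _) hcard
    have a5 : eul (dd h m) ^ (k * k) ≤ ∑ h' ∈ Hs, eul (dd h h') ^ (k * k) :=
      single_le_sum (f := fun h' => eul (dd h h') ^ (k * k)) (fun _ _ => pow_nonneg (h0 _) _) hm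
    calc eul (Q * ∏ h' ∈ Hs, dd h h') ^ k ≤ (eul Q * eul (dd h m) ^ k) ^ k := by
          apply pow_le_pow_left₀ (h0 _)
          exact a2.trans (mul_le_mul_of_nonneg_left (a3.trans a4) (h0 _))
      _ = eul Q ^ k * eul (dd h m) ^ (k * k) := by rw [mul_pow, ← pow_mul]
      _ ≤ _ := mul_le_mul_of_nonneg_left a5 (pow_nonneg (h0 _) _)
  refine (sum_le_sum h1).trans ?_
  rw [← mul_sum, sum_comm]
  apply mul_le_mul_of_nonneg_left _ (pow_nonneg (h0 _) _)
  have h2 : ∀ h' ∈ Hs, ∑ h ∈ I, eul (dd h h') ^ (k * k) ≤ C * (Y + Real.sqrt H) :=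
    fun h' hh' => hC t Y H h' I (hH h' hh') hI
      (fun h hh => ⟨(hI2 h hh).1, fun hc => (hI2 h hh).2 (hc ▸ hh')⟩)
  refine (sum_le_sum h2).trans ?_
  rw [sum_const, nsmul_eq_mul, mul_assoc]
  apply mul_le_mul_of_nonneg_right _ (by positivity)
  exact_mod_cast hcard

/-- The main sieve term. -/
noncomputable def Phi (k y X : ℕ) : ℝ :=
  X / Real.log ((y : ℝ) + 1) ^ k + 4 * ((y : ℝ) ^ k) ^ 4

lemma Phi_nonneg (k y X : ℕ) : 0 ≤ Phi k y X := by
  unfold Phi
  have : 0 ≤ Real.log ((y : ℝ) + 1) := Real.log_nonneg (by simp)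
  positivity

lemma family_bound (k y X H Y : ℕ) (C : ℝ) (hk : 1 ≤ k) (hy : 1 ≤ y) (hC0 : 0 ≤ C)
    (hC : ∀ (t Y H h' : ℕ) (I : Finset ℕ), h' ≤ H → I ⊆ Ico t (t + Y) →
      (∀ h ∈ I, h ≤ H ∧ h ≠ h') → ∑ h ∈ I, eul (dd h h') ^ (k * k) ≤ C * (Y + Real.sqrt H))
    (t : ℕ → ℕ) (S : Finset ℕ) :
    ∀ (Hs : Finset ℕ) (Q : ℕ) (E : Finset ℕ), Hs.Nonempty → Hs.card + S.card = k → Q ≠ 0 →
      (∀ h ∈ Hs, h ≤ H) →
      (∀ p, p.Prime → ¬ p ∣ Q → 2 * k ≤ p ∧ ∀ a ∈ Hs, ∀ b ∈ Hs, a ≡ b [MOD p] → a = b) →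
      E ⊆ range X →
      (∀ n ∈ E, (∀ h ∈ Hs, (n + h).Prime) ∧ ∃ g : ℕ → ℕ, Set.InjOn g S ∧
        ∀ i ∈ S, g i ∈ Ico (t i) (t i + Y) ∧ g i ≤ H ∧ g i ∉ Hs ∧ (n + g i).Prime) →
      (E.card : ℝ) ≤ eul Q ^ k * (Phi k y X * (k * C * (Y + Real.sqrt H)) ^ S.card) := by
  classical
  induction S using Finset.induction_on with
  | empty =>
    intro Hs Q E _ hc hQ _ hinj hE hEp
    rw [card_empty, pow_zero, mul_one]
    exact tuple_bound Hs k Q y X hk (by simpa using hc) hQ hy hinj E hE (fun n hn => (hEp n hn).1)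
  | insert i S hi ih =>
    intro Hs Q E hne hc hQ hH hinj hE hEp
    rw [card_insert_of_notMem hi] at hc ⊢
    set I := (Ico (t i) (t i + Y)).filter (fun h => h ≤ H ∧ h ∉ Hs) with hI
    have h1 := card_le_of_cover I E
      (fun h n => (∀ h' ∈ insert h Hs, (n + h').Prime) ∧ ∃ g : ℕ → ℕ, Set.InjOn g S ∧
        ∀ j ∈ S, g j ∈ Ico (t j) (t j + Y) ∧ g j ≤ H ∧ g j ∉ insert h Hs ∧ (n + g j).Prime)
      (fun h => eul (Q * ∏ h' ∈ Hs, dd h h') ^ k *
        (Phi k y X * (k * C * (Y + Real.sqrt H)) ^ S.card))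
      (by
        intro n hn
        obtain ⟨a1, g, a2, a3⟩ := hEp n hn
        obtain ⟨b1, b2, b3, b4⟩ := a3 i (mem_insert_self _ _)
        refine ⟨g i, mem_filter.mpr ⟨b1, b2, b3⟩, ?_, g, a2.mono (by simp), ?_⟩
        · intro h' hh'
          rcases mem_insert.mp hh' with rfl | hh'
          · exact b4
          · exact a1 h' hh'
        · intro j hj
          obtain ⟨c1, c2, c3, c4⟩ := a3 j (mem_insert_of_mem hj)
          refine ⟨c1, c2, ?_, c4⟩
          rw [mem_insert, not_or]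
          refine ⟨fun hc => hi ?_, c3⟩
          have := a2 (by simp [hj]) (by simp) hc
          exact this ▸ hj)
      (by
        intro h hh E' hE' hP
        obtain ⟨-, b2, b3⟩ := mem_filter.mp hh
        apply ih (insert h Hs) _ E' (insert_nonempty _ _)
          (by rw [card_insert_of_notMem b3]; omega)
          (mul_ne_zero hQ (prod_ne_zero_iff.mpr
            (fun h' hh' => dd_ne_zero (a := h) (b := h') (fun hc => b3 (hc ▸ hh')))))
          _ (inj_insert k Hs Q h hinj) (hE'.trans hE) hP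
        intro h' hh'
        rcases mem_insert.mp hh' with rfl | hh'
        · exact b2
        · exact hH h' hh')
    refine h1.trans ?_
    rw [← sum_mul]
    have h2 := step_sum k H C hC0 hC Hs Q (t i) Y hne (by omega) hQ hH I (filter_subset _ _)
      (fun h hh => (mem_filter.mp hh).2)
    have h3 : 0 ≤ Phi k y X * (k * C * (Y + Real.sqrt H)) ^ S.card :=
      mul_nonneg (Phi_nonneg _ _ _) (by positivity)
    refine (mul_le_mul_of_nonneg_right h2 h3).trans (le_of_eq ?_)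
    ring

theorem pattern_bound (k : ℕ) (hk : 2 ≤ k) : ∃ C : ℝ, 0 < C ∧
    ∀ (y X H l0 Y : ℕ) (W : ℝ), 1 ≤ y → 0 ≤ W → 4 * W * (l0 + 1) + 1 ≤ Y →
      ∀ E : Finset ℕ, E ⊆ range X →
      (∀ n ∈ E, ∃ (S : Finset ℕ) (u : ℕ → ℕ) (μ ν : ℝ), S ⊆ range l0 ∧ S.card = k ∧
        Set.InjOn u S ∧ (∃ i ∈ S, u i = n) ∧
        ∀ i ∈ S, (u i).Prime ∧ n ≤ u i ∧ u i ≤ n + H ∧ |(u i : ℝ) - (μ * i + ν)| ≤ W) →
      (E.card : ℝ) ≤ 2 ^ l0 * (l0 : ℝ) ^ 2 * C *
        (Phi k y X * (H + 1 + Real.sqrt H) * (Y + Real.sqrt H) ^ (k - 2)) := by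
  classical
  obtain ⟨C, hC0, hC⟩ := sum_eul_le (k * k)
  have hkpos : (0 : ℝ) < k := by exact_mod_cast (by omega : 0 < k)
  have he0 : 0 < eul (2 * k).factorial := lt_of_lt_of_le one_pos (one_le_eul _)
  refine ⟨eul (2 * k).factorial ^ k * (k * C) * (k * C) ^ (k - 2), by positivity, ?_⟩
  intro y X H l0 Y W hy hW hY E hE hEp
  set b : ℝ := eul (2 * k).factorial ^ k * (k * C) * (k * C) ^ (k - 2) *
        (Phi k y X * (H + 1 + Real.sqrt H) * (Y + Real.sqrt H) ^ (k - 2)) with hb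
  have hinj0 : ∀ p, p.Prime → ¬ p ∣ (2 * k).factorial →
      2 * k ≤ p ∧ ∀ a ∈ ({0} : Finset ℕ), ∀ b ∈ ({0} : Finset ℕ), a ≡ b [MOD p] → a = b := by
    intro p hp hnd
    rw [hp.dvd_factorial] at hnd
    refine ⟨by omega, ?_⟩
    intro a ha b hb _
    rw [mem_singleton.mp ha, mem_singleton.mp hb]
  have h1 := card_le_of_cover ((range l0).powerset ×ˢ range l0 ×ˢ range l0) E
    (fun τ n => τ.1.card = k ∧ τ.2.1 ∈ τ.1 ∧ τ.2.2 ∈ τ.1 ∧ τ.2.1 ≠ τ.2.2 ∧
      ∃ (u : ℕ → ℕ) (μ ν : ℝ), Set.InjOn u τ.1 ∧ u τ.2.1 = n ∧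
        ∀ i ∈ τ.1, (u i).Prime ∧ n ≤ u i ∧ u i ≤ n + H ∧ |(u i : ℝ) - (μ * i + ν)| ≤ W)
    (fun _ => b)
    (by
      intro n hn
      obtain ⟨S, u, μ, ν, a1, a2, a3, ⟨i, a4, a5⟩, a6⟩ := hEp n hn
      obtain ⟨j, hj, hji⟩ := exists_mem_ne (by omega : 1 < S.card) i
      exact ⟨(S, i, j), by simp only [mem_product, mem_powerset]; exact ⟨a1, a1 a4, a1 hj⟩,
        a2, a4, hj, hji.symm, u, μ, ν, a3, a5, a6⟩)
    (by
      rintro ⟨S, i1, i2⟩ hτ E' hE' hP
      simp only [mem_product, mem_powerset, mem_range] at hτ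
      simp only at hP
      rcases E'.eq_empty_or_nonempty with rfl | ⟨n0, hn0⟩
      · rw [card_empty, Nat.cast_zero, hb]
        have := Phi_nonneg k y X
        positivity
      obtain ⟨hSk, hi1, hi2, hi12, -⟩ := hP n0 hn0
      set S' := (S.erase i1).erase i2 with hS'
      have hS'c : S'.card = k - 2 := by
        rw [hS', card_erase_of_mem (mem_erase.mpr ⟨hi12.symm, hi2⟩), card_erase_of_mem hi1]
        omega
      set V : ℝ := 2 * W * (l0 + 1) with hV
      set I := (Ico 0 (0 + (H + 1))).filter (fun h => h ≤ H ∧ h ∉ ({0} : Finset ℕ)) with hI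
      have h2 := card_le_of_cover I E'
        (fun h n => (∀ h' ∈ insert h ({0} : Finset ℕ), (n + h').Prime) ∧ ∃ g : ℕ → ℕ,
          Set.InjOn g S' ∧ ∀ i ∈ S', g i ∈ Ico ⌊((i : ℝ) - i1) / ((i2 : ℝ) - i1) * h - V⌋₊
            (⌊((i : ℝ) - i1) / ((i2 : ℝ) - i1) * h - V⌋₊ + Y) ∧ g i ≤ H ∧
            g i ∉ insert h ({0} : Finset ℕ) ∧ (n + g i).Prime)
        (fun h => eul ((2 * k).factorial * ∏ h' ∈ ({0} : Finset ℕ), dd h h') ^ k *
          (Phi k y X * (k * C * (Y + Real.sqrt H)) ^ S'.card))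
        (by
          intro n hn
          obtain ⟨-, -, -, -, u, μ, ν, a1, a2, a3⟩ := hP n hn
          obtain ⟨b1, -, -, b4⟩ := a3 i1 hi1
          obtain ⟨c1, c2, c3, c4⟩ := a3 i2 hi2
          have hne : ∀ i ∈ S, ∀ j ∈ S, i ≠ j → u i ≠ u j := fun i hi j hj hij hc =>
            hij (a1 hi hj hc)
          have c5 := hne i1 hi1 i2 hi2 hi12
          refine ⟨u i2 - n, ?_, ?_, fun i => u i - n, ?_, ?_⟩
          · simp only [hI, mem_filter, mem_Ico, mem_singleton]
            omega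
          · intro h' hh'
            simp only [mem_insert, mem_singleton] at hh'
            rcases hh' with rfl | rfl
            · rwa [Nat.add_sub_cancel' c2]
            · rwa [add_zero, ← a2]
          · intro i hi j hj hij
            have hi' : i ∈ S := mem_of_mem_erase (mem_of_mem_erase hi)
            have hj' : j ∈ S := mem_of_mem_erase (mem_of_mem_erase hj)
            apply a1 hi' hj'
            have := (a3 i hi').2.1
            have := (a3 j hj').2.1
            simp only at hij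
            omega
          · intro i hi
            obtain ⟨d1, hi'⟩ := mem_erase.mp hi
            obtain ⟨d2, hi''⟩ := mem_erase.mp hi'
            obtain ⟨e1, e2, e3, e4⟩ := a3 i hi''
            have e5 := hne i hi'' i1 hi1 d2
            have e6 := hne i hi'' i2 hi2 d1
            beta_reduce
            refine ⟨?_, by omega, ?_, by rwa [Nat.add_sub_cancel' e2]⟩
            · set ρ : ℝ := ((i : ℝ) - i1) / ((i2 : ℝ) - i1) with hρ
              have f1 : 1 ≤ |(i2 : ℝ) - i1| := by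
                have : (1 : ℤ) ≤ |(i2 : ℤ) - i1| := Int.one_le_abs (by omega)
                exact_mod_cast this
              have f2 : (i2 : ℝ) - i1 ≠ 0 := by
                intro hc
                rw [hc, abs_zero] at f1
                linarith
              have f3 : |ρ| ≤ l0 := by
                rw [hρ, abs_div]
                apply div_le_of_le_mul₀ (abs_nonneg _) (by positivity)
                have g1 : |(i : ℝ) - i1| ≤ l0 := by
                  have g2 := mem_range.mp (hτ.1 hi'')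
                  have : |(i : ℤ) - i1| ≤ l0 := by rw [abs_le]; constructor <;> omega
                  exact_mod_cast this
                have : (l0 : ℝ) * 1 ≤ l0 * |(i2 : ℝ) - i1| := by gcongr
                linarith
              have f4 : ((u i - n : ℕ) : ℝ) - ρ * ((u i2 - n : ℕ) : ℝ) =
                  (((u i : ℝ) - (μ * i + ν)) - ((u i1 : ℝ) - (μ * i1 + ν))) -
                  ρ * (((u i2 : ℝ) - (μ * i2 + ν)) - ((u i1 : ℝ) - (μ * i1 + ν))) := by
                rw [Nat.cast_sub e2, Nat.cast_sub c2, a2, hρ]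
                field_simp
                ring
              have f5 : |((u i - n : ℕ) : ℝ) - ρ * ((u i2 - n : ℕ) : ℝ)| ≤ V := by
                rw [f4]
                refine (abs_sub _ _).trans ?_
                rw [abs_mul]
                have g1 := (abs_sub _ _).trans (add_le_add e4 b4)
                have g2 := (abs_sub _ _).trans (add_le_add c4 b4)
                have g3 := mul_le_mul f3 g2 (abs_nonneg _) (by positivity)
                rw [hV]
                linarith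
              obtain ⟨f6, f7⟩ := abs_le.mp f5
              rw [mem_Ico]
              constructor
              · exact Nat.floor_le_of_le (by linarith)
              · have g1 := Nat.lt_floor_add_one (ρ * ((u i2 - n : ℕ) : ℝ) - V)
                have g2 : ((u i - n : ℕ) : ℝ) <
                    (⌊ρ * ((u i2 - n : ℕ) : ℝ) - V⌋₊ : ℝ) + Y := by
                  rw [hV] at *
                  linarith
                exact_mod_cast g2
            · simp only [mem_insert, mem_singleton]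
              omega)
        (by
          intro h hh E'' hE'' hP'
          obtain ⟨-, b2, b3⟩ := mem_filter.mp hh
          apply family_bound k y X H Y C (by omega) hy hC0.le hC _ S' (insert h {0}) _ E''
            (insert_nonempty _ _) (by rw [card_insert_of_notMem b3, card_singleton]; omega)
            (mul_ne_zero (Nat.factorial_ne_zero _) (prod_ne_zero_iff.mpr
              (fun h' hh' => dd_ne_zero (a := h) (b := h') (fun hc => b3 (hc ▸ hh')))))
            _ (inj_insert k {0} _ h hinj0) (hE''.trans (hE'.trans hE)) hP'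
          intro h' hh'
          simp only [mem_insert, mem_singleton] at hh'
          omega)
      refine h2.trans ?_
      rw [← sum_mul]
      have h3 := step_sum k H C hC0.le hC {0} (2 * k).factorial 0 (H + 1) (singleton_nonempty _)
        (by rw [card_singleton]; omega) (Nat.factorial_ne_zero _) (by simp) I (filter_subset _ _)
        (fun h hh => (mem_filter.mp hh).2)
      have h4 : 0 ≤ Phi k y X * (k * C * (Y + Real.sqrt H)) ^ S'.card :=
        mul_nonneg (Phi_nonneg _ _ _) (by positivity)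
      refine (mul_le_mul_of_nonneg_right h3 h4).trans (le_of_eq ?_)
      rw [hb, hS'c, mul_pow _ ((Y : ℝ) + Real.sqrt H)]
      push_cast
      ring)
  refine h1.trans (le_of_eq ?_)
  rw [sum_const, card_product, card_product, card_powerset, card_range, nsmul_eq_mul, hb]
  push_cast
  ring

end Pool.Agent.Lib.MP_ce1fc8_nt
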