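import Pool.Agent.Lib.MP_ce1fc8_nt.Stage
import Pool.Agent.Lib.MP_ce1fc8_nt.Tuples

set_option autoImplicit false

namespace Pool.Agent.Lib.MP_ce1fc8_nt

open Finset Filter

lemma ev_log_ge (c : ℝ) : ∀ᶠ N : ℕ in atTop, c ≤ Real.log N :=
  (Real.tendsto_log_atTop.comp tendsto_natCast_atTop_atTop).eventually_ge_atTop c

lemma ev_log_pow (r : ℕ) (c : ℝ) (hc : 0 < c) : ∀ᶠ N : ℕ in atTop, Real.log N ^ r ≤ c * N := by
  have h1 := (Real.isLittleO_pow_log_id_atTop (n := r)).bound hc
  have h2 := tendsto_natCast_atTop_atTop.eventually h1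
  filter_upwards [h2] with N hN
  simp only [id, Real.norm_eq_abs, Nat.abs_cast] at hN
  exact (le_abs_self _).trans hN

lemma nth_prime_lt (N : ℕ) (hL : 10 ≤ Real.log N) (hL2 : Real.log N ^ 1 ≤ 1 / 10 * N) (m : ℕ)
    (hm : m ≤ 2 * N) : Nat.nth Nat.Prime m < ⌊10 * N * Real.log N⌋₊ + 1 := by
  set L := Real.log N with hLdef
  set X := ⌊10 * N * L⌋₊ with hX
  rw [pow_one] at hL2
  have hN : (100 : ℝ) ≤ N := by linarith
  have h1 : (X : ℝ) ≤ 10 * N * L := Nat.floor_le (by positivity)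
  have h2 : 10 * N * L < X + 1 := Nat.lt_floor_add_one _
  have hNL : 1000 ≤ N * L := by nlinarith
  have hX1 : (1 : ℝ) < X := by linarith
  have h3 : (X : ℝ) ≤ (N : ℝ) ^ 2 := by nlinarith
  have h4 : Real.log X ≤ 2 * L := by
    have := Real.log_le_log (by linarith) h3
    rwa [Real.log_pow] at this
  have h5 : Real.log (X + 1) ≤ 3 * L := by
    have h6 : (X : ℝ) + 1 ≤ (N : ℝ) ^ 3 := by nlinarith
    have := Real.log_le_log (by linarith) h6
    rwa [Real.log_pow] at this
  have h6 := Chebyshev.pi_ge X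
  have hlogX : 0 < Real.log X := Real.log_pos hX1
  rw [div_le_iff₀ hlogX] at h6
  have h7 := Real.log_two_gt_d9
  have h8 : (2 * N : ℝ) < Nat.primeCounting X := by
    by_contra hc
    push Not at hc
    have h9 : (Nat.primeCounting X : ℝ) * Real.log X ≤ (2 * N) * (2 * L) :=
      mul_le_mul hc h4 hlogX.le (by positivity)
    have h10 : (X : ℝ) * 0.69 ≤ X * Real.log 2 := by gcongr; linarith
    nlinarith
  have h9 : 2 * N < Nat.primeCounting X := by exact_mod_cast h8
  exact Nat.nth_lt_of_lt_count (lt_of_le_of_lt hm h9)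

lemma Phi_le (k N : ℕ) (hk : 1 ≤ k) (hL : 10 ≤ Real.log N)
    (hL2 : Real.log N ^ (5 * k) ≤ 1 * N) :
    ∃ y : ℕ, 1 ≤ y ∧ Phi k y (⌊10 * N * Real.log N⌋₊ + 1) ≤
      (11 * (5 * k) ^ k + 4) * (N / Real.log N ^ (k - 1)) := by
  set L := Real.log N with hLdef
  have hN : (1 : ℝ) ≤ N := by
    have : 1 ≤ L ^ (5 * k) := one_le_pow₀ (by linarith)
    linarith
  have hN' : 1 ≤ N := by exact_mod_cast hN
  have hkr : (1 : ℝ) ≤ k := by exact_mod_cast hk
  set y := Nat.nthRoot (5 * k) N with hy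
  have hy1 : y ^ (5 * k) ≤ N := Nat.pow_nthRoot_le (Or.inl (by omega))
  have hy2 : N < (y + 1) ^ (5 * k) := Nat.lt_pow_nthRoot_add_one (by omega) N
  refine ⟨y, (Nat.le_nthRoot_iff (by omega)).mpr (by simpa using hN'), ?_⟩
  have h1 : L ≤ 5 * k * Real.log ((y : ℝ) + 1) := by
    have h2 : (N : ℝ) ≤ ((y : ℝ) + 1) ^ (5 * k) := by exact_mod_cast hy2.le
    have := Real.log_le_log (by linarith) h2
    rw [Real.log_pow] at this
    push_cast at this
    exact this
  have h2 : L / (5 * k) ≤ Real.log ((y : ℝ) + 1) := by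
    rw [div_le_iff₀ (by positivity)]
    linarith
  have hLpos : 0 < L := by linarith
  have hX : ((⌊10 * N * L⌋₊ + 1 : ℕ) : ℝ) ≤ 11 * N * L := by
    have := Nat.floor_le (by positivity : 0 ≤ 10 * N * L)
    push_cast
    nlinarith
  have hLk : L ^ k = L * L ^ (k - 1) := by
    rw [← pow_succ']
    congr 1
    omega
  have h3 : ((⌊10 * N * L⌋₊ + 1 : ℕ) : ℝ) / Real.log ((y : ℝ) + 1) ^ k ≤
      11 * (5 * k) ^ k * (N / L ^ (k - 1)) := by
    calc ((⌊10 * N * L⌋₊ + 1 : ℕ) : ℝ) / Real.log ((y : ℝ) + 1) ^ k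
        ≤ (11 * N * L) / (L / (5 * k)) ^ k := by gcongr
      _ = _ := by rw [div_pow, hLk]; field_simp
  have h4 : ((y : ℝ) ^ k) ^ 4 ≤ N / L ^ (k - 1) := by
    rw [le_div_iff₀ (by positivity)]
    apply le_of_pow_le_pow_left₀ (n := 5) (by norm_num) (by positivity)
    have a1 : ((y : ℝ) ^ k) ^ 5 ≤ N := by
      rw [← pow_mul, mul_comm]
      exact_mod_cast hy1
    have a2 : (L ^ (k - 1)) ^ 5 ≤ N := by
      rw [← pow_mul]
      refine le_trans (pow_le_pow_right₀ (by linarith) (by omega)) (hL2.trans (by linarith))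
    calc (((y : ℝ) ^ k) ^ 4 * L ^ (k - 1)) ^ 5 = (((y : ℝ) ^ k) ^ 5) ^ 4 * (L ^ (k - 1)) ^ 5 := by
          ring
      _ ≤ (N : ℝ) ^ 4 * N := by gcongr
      _ = _ := by ring
  unfold Phi
  linarith

lemma concave_of_good (P : ℕ → ℕ) (hP : StrictMono P) (a b c H : ℕ) (habc : a + b = 2 * c)
    (hgood : ∀ i ∈ Icc 1 c, P (c - i) * P (c + i) < P c ^ 2) (ha : P c ≤ P a + H)
    (hb : P c ≤ P b + H) (hH : H * H + H ≤ P c) : P a + P b ≤ 2 * P c := by
  have key : ∀ a b : ℕ, a < c → a + b = 2 * c → P c ≤ P a + H → P a + P b ≤ 2 * P c := by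
    intro a b h1 h2 h3
    have h4 := hgood (c - a) (mem_Icc.mpr ⟨by omega, by omega⟩)
    rw [show c - (c - a) = a by omega, show c + (c - a) = b by omega] at h4
    have h5 : P a < P c := hP h1
    by_contra hc
    push Not at hc
    obtain ⟨α, hα⟩ : ∃ α, P c = P a + α := ⟨P c - P a, by omega⟩
    have h6 : P c + α + 1 ≤ P b := by omega
    have h7 : α ≤ H := by omega
    have h8 : α * α + α ≤ P c := le_trans (by gcongr) hH
    have h9 : P a * (P c + α + 1) ≤ P a * P b := Nat.mul_le_mul_left _ h6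
    rw [hα] at h4 h8 h9
    nlinarith
  rcases lt_trichotomy a c with h | h | h
  · exact key a b h habc ha
  · have : b = c := by omega
    subst h
    subst this
    omega
  · have := key b a (by omega) (by omega) hb
    omega

theorem good_density (δ : ℝ) (hδ : 0 < δ) : ∀ᶠ N : ℕ in atTop, ∀ Gd : Finset ℕ, Gd ⊆ range N →
    (∀ m ∈ Gd, ∀ i ∈ Icc 1 m, Nat.nth Nat.Prime (m - i) * Nat.nth Nat.Prime (m + i) <
      Nat.nth Nat.Prime m ^ 2) → (Gd.card : ℝ) ≤ δ * N := by
  classical
  set P := Nat.nth Nat.Prime with hPdef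
  have hPm : StrictMono P := Nat.nth_strictMono Nat.infinite_setOfPred_prime
  set C : ℝ := 88 / δ with hC
  have hCpos : 0 < C := by positivity
  obtain ⟨B, hB, h1⟩ := structure_thm (δ / 4) C (by positivity) hCpos
  set k := 2 * B + 3 with hk
  obtain ⟨T0, l0, h2⟩ := h1 k
  obtain ⟨Cp, hCp, h3⟩ := pattern_bound k (by omega)
  set c2 : ℝ := 2 ^ l0 * (l0 : ℝ) ^ 2 * Cp * ((11 * (5 * k) ^ k + 4) * (C + 2) *
    (4 * l0 + 7) ^ (k - 2)) with hc2
  have hc2' : 0 ≤ c2 := by positivity
  obtain ⟨T1, hT1⟩ := exists_nat_gt (4 * c2 / δ)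
  set T := max (max T0 T1) 1 with hT
  have hTT0 : T0 ≤ T := le_trans (le_max_left _ _) (le_max_left _ _)
  have hTT1 : T1 ≤ T := le_trans (le_max_right _ _) (le_max_left _ _)
  have hT1' : 1 ≤ T := le_max_right _ _
  have hTr : (1 : ℝ) ≤ T := by exact_mod_cast hT1'
  have hTc : 4 * c2 < δ * T := by
    rw [div_lt_iff₀ hδ] at hT1
    have : (T1 : ℝ) ≤ T := by exact_mod_cast hTT1
    nlinarith
  set K := T ^ B with hK
  have hK1 : 1 ≤ K := Nat.one_le_pow _ _ hT1'
  have hKr : (1 : ℝ) ≤ K := by exact_mod_cast hK1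
  have hCK : 0 < C * K := by positivity
  filter_upwards [ev_log_ge 10, ev_log_ge T, ev_log_ge (C * K * T ^ 2), ev_log_ge (1 / (C * K)),
    ev_log_pow 1 (1 / 10) (by norm_num), ev_log_pow (5 * k) 1 one_pos,
    ev_log_pow 2 (δ / (8 * (C * K) ^ 2)) (by positivity), eventually_ge_atTop K,
    tendsto_natCast_atTop_atTop.eventually_ge_atTop ((8 + 2 * δ * K) / δ)]
    with N hL1 hL2 hL3 hL4 hL5 hL6 hL7 hNK hNδ
  intro Gd hGd hgood
  by_contra hcon
  push Not at hcon
  set L := Real.log N with hL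
  have hLpos : 0 < L := by linarith
  have hNr : (K : ℝ) ≤ N := by exact_mod_cast hNK
  have hNpos : (0 : ℝ) < N := by linarith
  set X := ⌊10 * N * L⌋₊ + 1 with hX
  have hPX : ∀ m, m ≤ 2 * N → P m < X := nth_prime_lt N hL1 hL5
  have hXr : (X : ℝ) ≤ 11 * N * L := by
    have := Nat.floor_le (by positivity : 0 ≤ 10 * N * L)
    rw [hX]
    push_cast
    nlinarith
  obtain ⟨y, hy1, hy2⟩ := Phi_le k N (by omega) hL1 hL6
  rw [← hL, ← hX] at hy2
  set H := ⌊C * K * L⌋₊ with hH
  have hHr : (H : ℝ) ≤ C * K * L := Nat.floor_le (by positivity)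
  have hHH : ((H * H + H : ℕ) : ℝ) ≤ δ * N / 4 := by
    have a1 : 1 ≤ C * K * L := by
      rw [div_le_iff₀ hCK] at hL4
      linarith
    have a2 : (C * K) ^ 2 * L ^ 2 ≤ δ * N / 8 := by
      calc (C * K) ^ 2 * L ^ 2 ≤ (C * K) ^ 2 * (δ / (8 * (C * K) ^ 2) * N) := by gcongr
        _ = δ * N / 8 := by field_simp
    have a3 : (H : ℝ) * H ≤ (C * K * L) * (C * K * L) := by gcongr
    push_cast
    nlinarith
  set Y := ⌈4 * (L / T) * (l0 + 1) + 1⌉₊ with hY
  have hLT : 1 ≤ L / T := by rw [le_div_iff₀ (by linarith)]; linarith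
  have hsq : Real.sqrt H ≤ L / T := by
    rw [Real.sqrt_le_left (by linarith), div_pow, le_div_iff₀ (by positivity)]
    calc (H : ℝ) * (T : ℝ) ^ 2 ≤ C * K * L * (T : ℝ) ^ 2 := by gcongr
      _ = C * K * (T : ℝ) ^ 2 * L := by ring
      _ ≤ L * L := by gcongr
      _ = L ^ 2 := by ring
  have hYr : (Y : ℝ) + Real.sqrt H ≤ (4 * l0 + 7) * (L / T) := by
    have := Nat.ceil_lt_add_one (by positivity : 0 ≤ 4 * (L / T) * (l0 + 1) + 1)
    rw [← hY] at this
    nlinarith
  have hHs : (H : ℝ) + 1 + Real.sqrt H ≤ (C + 2) * K * L := by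
    have a1 : L / T ≤ L := div_le_self hLpos.le hTr
    have a2 : L ≤ K * L := le_mul_of_one_le_left hLpos.le hKr
    nlinarith
  set Pat : ℕ → Prop := fun n => ∃ (S : Finset ℕ) (u : ℕ → ℕ) (μ ν : ℝ), S ⊆ range l0 ∧
    S.card = k ∧ Set.InjOn u S ∧ (∃ i ∈ S, u i = n) ∧
    ∀ i ∈ S, (u i).Prime ∧ n ≤ u i ∧ u i ≤ n + H ∧ |(u i : ℝ) - (μ * i + ν)| ≤ L / T with hPat
  have hE := h3 y X H l0 Y (L / T) hy1 (by positivity) (Nat.le_ceil _) ((range X).filter Pat)
    (filter_subset _ _) (fun n hn => (mem_filter.mp hn).2)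
  have hE2 : (((range X).filter Pat).card : ℝ) ≤ c2 * N / (K * T) := by
    refine hE.trans ?_
    have a1 : Phi k y X * (H + 1 + Real.sqrt H) * (Y + Real.sqrt H) ^ (k - 2) ≤
        (11 * (5 * k) ^ k + 4) * (N / L ^ (k - 1)) * ((C + 2) * K * L) *
          ((4 * l0 + 7) * (L / T)) ^ (k - 2) := by
      have := Phi_nonneg k y X
      gcongr
    refine (mul_le_mul_of_nonneg_left a1 (by positivity)).trans (le_of_eq ?_)
    have e1 : L ^ (k - 1) = L * L ^ (k - 2) := by
      rw [← pow_succ']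
      congr 1
    have e2 : (T : ℝ) ^ (k - 2) = K * K * T := by
      rw [hK]
      push_cast
      rw [← pow_add, ← pow_succ]
      congr 1
      omega
    rw [hc2, mul_pow _ (L / T), div_pow, e1, e2]
    field_simp
  set Gd' := Gd.filter (fun m : ℕ => δ * N / 4 ≤ (m : ℝ)) with hGd'
  have hGd'c : 3 / 4 * (δ * N) - 1 ≤ Gd'.card := by
    have hsub : Gd ⊆ Gd' ∪ range ⌈δ * N / 4⌉₊ := by
      intro m hm
      simp only [hGd', mem_union, mem_filter, mem_range]
      by_cases hc : δ * N / 4 ≤ (m : ℝ)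
      · exact Or.inl ⟨hm, hc⟩
      · exact Or.inr (Nat.lt_ceil.mpr (by linarith))
    have a1 := (card_le_card hsub).trans (card_union_le _ _)
    rw [card_range] at a1
    have a2 : (Gd.card : ℝ) ≤ Gd'.card + ⌈δ * N / 4⌉₊ := by exact_mod_cast a1
    have a3 := Nat.ceil_lt_add_one (by positivity : 0 ≤ δ * N / 4)
    linarith
  set nW := N / K + 1 with hnW
  have hnW1 : nW * K ≤ N + K := by
    have := Nat.div_mul_le_self N K
    rw [hnW, add_mul]
    omega
  set Long := (range nW).filter (fun w => C * K * L < (P (w * K + K) : ℝ) - P (w * K)) with hLong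
  set Sp := (range nW).filter (fun w => (P (w * K + K) : ℝ) - P (w * K) ≤ C * K * L ∧
    δ / 4 * K ≤ ((sub Gd' (w * K) 1 K).card : ℝ)) with hSp
  have hLongc : K * (Long.card : ℝ) ≤ δ * N / 8 := by
    have a1 : ∑ w ∈ range nW, ((P ((w + 1) * K) : ℝ) - P (w * K)) = P (nW * K) - P (0 * K) :=
      sum_range_sub (fun w => (P (w * K) : ℝ)) nW
    have a2 : ∑ w ∈ Long, ((P ((w + 1) * K) : ℝ) - P (w * K)) ≤
        ∑ w ∈ range nW, ((P ((w + 1) * K) : ℝ) - P (w * K)) := by
      apply sum_le_sum_of_subset_of_nonneg (filter_subset _ _)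
      intro w _ _
      have : P (w * K) ≤ P ((w + 1) * K) := hPm.monotone (by rw [add_mul]; omega)
      have : (P (w * K) : ℝ) ≤ P ((w + 1) * K) := by exact_mod_cast this
      linarith
    have a3 : ∑ _w ∈ Long, C * K * L ≤ ∑ w ∈ Long, ((P ((w + 1) * K) : ℝ) - P (w * K)) := by
      apply sum_le_sum
      intro w hw
      rw [add_mul, one_mul]
      exact (mem_filter.mp hw).2.le
    rw [sum_const, nsmul_eq_mul] at a3
    have a4 : (P (nW * K) : ℝ) ≤ X := by exact_mod_cast (hPX _ (by omega)).le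
    have a5 : (0 : ℝ) ≤ P (0 * K) := by positivity
    have a6 : (K * (Long.card : ℝ)) * (C * L) ≤ (δ * N / 8) * (C * L) := by
      have : (δ * N / 8) * (C * L) = 11 * N * L := by rw [hC]; field_simp; ring
      rw [this]
      linarith
    exact le_of_mul_le_mul_right a6 (by positivity)
  have hcount : (Gd'.card : ℝ) ≤ δ / 4 * (N + K) + K * Long.card + K * Sp.card := by
    have hsub : Gd' ⊆ (range nW).biUnion (fun w => Gd' ∩ Ico (w * K) (w * K + K)) := by
      intro m hm
      have hmN := mem_range.mp (hGd (mem_filter.mp hm).1)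
      simp only [mem_biUnion, mem_range, mem_inter, mem_Ico]
      refine ⟨m / K, ?_, hm, Nat.div_mul_le_self _ _, Nat.lt_div_mul_add hK1⟩
      have : m / K ≤ N / K := Nat.div_le_div_right hmN.le
      omega
    have a1 := (card_le_card hsub).trans card_biUnion_le
    have a2 : (Gd'.card : ℝ) ≤ ∑ w ∈ range nW, ((Gd' ∩ Ico (w * K) (w * K + K)).card : ℝ) := by
      exact_mod_cast a1
    have a3 : ∀ w ∈ range nW, ((Gd' ∩ Ico (w * K) (w * K + K)).card : ℝ) ≤
        δ / 4 * K + (if w ∈ Long then (K : ℝ) else 0) + (if w ∈ Sp then (K : ℝ) else 0) := by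
      intro w hw
      have b1 : ((Gd' ∩ Ico (w * K) (w * K + K)).card : ℝ) ≤ K := by
        have := card_le_card (inter_subset_right (s₁ := Gd') (s₂ := Ico (w * K) (w * K + K)))
        rw [Nat.card_Ico] at this
        exact_mod_cast (by omega : (Gd' ∩ Ico (w * K) (w * K + K)).card ≤ K)
      have b2 : 0 ≤ δ / 4 * K := by positivity
      by_cases c1 : w ∈ Long
      · rw [if_pos c1]
        split_ifs <;> linarith
      · by_cases c2 : w ∈ Sp
        · rw [if_neg c1, if_pos c2]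
          linarith
        · rw [if_neg c1, if_neg c2]
          simp only [hLong, hSp, mem_filter, hw, true_and, not_lt, not_and, not_le] at c1 c2
          have := c2 c1
          rw [card_sub_one] at this
          linarith
    refine a2.trans ((sum_le_sum a3).trans ?_)
    rw [sum_add_distrib, sum_add_distrib, sum_ite_mem, sum_ite_mem,
      inter_eq_right.mpr (filter_subset _ _), inter_eq_right.mpr (filter_subset _ _)]
    simp only [sum_const, card_range, nsmul_eq_mul]
    have a4 : (nW : ℝ) * K ≤ N + K := by exact_mod_cast hnW1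
    have a5 : δ / 4 * (nW * K) ≤ δ / 4 * (N + K) := by gcongr
    linarith
  have hSpc : δ * N / 4 ≤ K * Sp.card := by
    rw [div_le_iff₀ hδ] at hNδ
    linarith
  have hex : ∀ w, ∃ m, w ∈ Sp → (w * K ≤ m ∧ m < w * K + K ∧ Pat (P m)) := by
    intro w
    by_cases hw : w ∈ Sp
    swap
    · exact ⟨0, fun h => absurd h hw⟩
    obtain ⟨hw1, hw2, hw3⟩ := mem_filter.mp hw
    have hHw : P (w * K + K) ≤ P (w * K) + H := by
      have a1 : P (w * K) ≤ P (w * K + K) := hPm.monotone (by omega)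
      have a2 : P (w * K + K) - P (w * K) ≤ H := by
        apply Nat.le_floor
        rw [Nat.cast_sub a1]
        exact hw2
      omega
    have hwin : ∀ a b, a < K → b < K → P (w * K + a) ≤ P (w * K + b) + H := by
      intro a b ha hb
      have a1 : P (w * K + a) ≤ P (w * K + K) := hPm.monotone (by omega)
      have a2 : P (w * K) ≤ P (w * K + b) := hPm.monotone (by omega)
      omega
    obtain ⟨a, d, S, μ, ν, hd, hS1, hS2, hS3⟩ := h2 T hTT0 (sub Gd' (w * K) 1 K)
      (fun n => (P (w * K + n) : ℝ) / L) (filter_subset _ _) hw3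
      (by
        intro a b hab
        have : P (w * K + a) ≤ P (w * K + b) := hPm.monotone (by omega)
        have : (P (w * K + a) : ℝ) ≤ P (w * K + b) := by exact_mod_cast this
        simp only
        gcongr)
      (by
        simp only [add_zero]
        rw [← sub_div, div_le_iff₀ hLpos]
        exact hw2)
      (by
        intro a b c ha hb hc habc
        obtain ⟨hc1, hc2⟩ := mem_filter.mp hc
        rw [one_mul] at hc2
        obtain ⟨hc3, hc4⟩ := mem_filter.mp hc2
        have hc5 := mem_range.mp hc1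
        have a1 : H * H + H ≤ P (w * K + c) := by
          have b1 : H * H + H ≤ w * K + c := by exact_mod_cast hHH.trans hc4
          have b2 := Nat.add_two_le_nth_prime (w * K + c)
          rw [← hPdef] at b2
          omega
        have a2 := concave_of_good P hPm (w * K + a) (w * K + b) (w * K + c) H (by omega)
          (hgood _ hc3) (hwin _ _ hc5 ha) (hwin _ _ hc5 hb) a1
        have a3 : (P (w * K + a) : ℝ) + P (w * K + b) ≤ 2 * P (w * K + c) := by exact_mod_cast a2
        rw [← add_div, ← mul_div_assoc]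
        gcongr)
    have hSne : S.Nonempty := card_pos.mp (by omega)
    refine ⟨w * K + (a + d * S.min' hSne), fun _ => ⟨by omega, ?_, ?_⟩⟩
    · have := (hS3 _ (S.min'_mem hSne)).1
      omega
    · refine ⟨S, fun i => P (w * K + (a + d * i)), L * μ, L * ν, hS1, hS2, ?_,
        ⟨_, S.min'_mem hSne, rfl⟩, ?_⟩
      · intro i _ j _ hij
        have b1 := hPm.injective hij
        have b2 : d * i = d * j := by omega
        exact Nat.eq_of_mul_eq_mul_left hd b2
      · intro i hi
        obtain ⟨b1, b2⟩ := hS3 i hi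
        refine ⟨Nat.prime_nth_prime _, hPm.monotone ?_,
          hwin _ _ b1 (hS3 _ (S.min'_mem hSne)).1, ?_⟩
        · have := Nat.mul_le_mul_left d (S.min'_le i hi)
          omega
        · have e : (P (w * K + (a + d * i)) : ℝ) - (L * μ * i + L * ν) =
              L * ((P (w * K + (a + d * i)) : ℝ) / L - (μ * i + ν)) := by field_simp
          rw [e, abs_mul, abs_of_pos hLpos, div_eq_mul_one_div L]
          exact mul_le_mul_of_nonneg_left b2 hLpos.le
  choose m hm using hex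
  have hSpE : Sp.card ≤ ((range X).filter Pat).card := by
    apply card_le_card_of_injOn (fun w => P (m w))
    · intro w hw
      obtain ⟨a1, a2, a3⟩ := hm w hw
      have a4 : w < nW := mem_range.mp (mem_filter.mp hw).1
      have a5 : (w + 1) * K ≤ nW * K := Nat.mul_le_mul_right _ a4
      rw [add_mul] at a5
      exact mem_filter.mpr ⟨mem_range.mpr (hPX _ (by omega)), a3⟩
    · intro w hw w' hw' hww
      obtain ⟨a1, a2, -⟩ := hm w hw
      obtain ⟨b1, b2, -⟩ := hm w' hw'
      have a3 := hPm.injective hww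
      have a4 : m w / K = w := Nat.div_eq_of_lt_le a1 (by rw [add_mul]; omega)
      have b4 : m w' / K = w' := Nat.div_eq_of_lt_le b1 (by rw [add_mul]; omega)
      rw [← a4, ← b4, a3]
  have hSpE' : (Sp.card : ℝ) ≤ c2 * N / (K * T) := le_trans (by exact_mod_cast hSpE) hE2
  have f1 : (K : ℝ) * Sp.card ≤ c2 * N / T := by
    calc (K : ℝ) * Sp.card ≤ K * (c2 * N / (K * T)) := by gcongr
      _ = _ := by field_simp
  have f2 := hSpc.trans f1
  rw [le_div_iff₀ (by linarith)] at f2
  nlinarith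

end Pool.Agent.Lib.MP_ce1fc8_nt
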