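import Mathlib

set_option autoImplicit false

namespace Pool.Agent.Lib.MP_ce1fc8_nt

open Finset Complex

/-- The additive character `exp (2 π i x)`. -/
noncomputable def ex (x : ℝ) : ℂ := Complex.exp (Complex.I * ((2 * Real.pi * x : ℝ) : ℂ))

lemma ex_add (x y : ℝ) : ex (x + y) = ex x * ex y := by
  unfold ex
  rw [← Complex.exp_add]
  congr 1
  push_cast
  ring

lemma ex_zero : ex 0 = 1 := by simp [ex]

lemma norm_ex (x : ℝ) : ‖ex x‖ = 1 := by
  unfold ex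
  exact Complex.norm_exp_I_mul_ofReal _

lemma ex_int (n : ℤ) : ex n = 1 := by
  unfold ex
  rw [Complex.exp_eq_one_iff]
  exact ⟨n, by push_cast; ring⟩

lemma conj_ex (x : ℝ) : (starRingEnd ℂ) (ex x) = ex (-x) := by
  unfold ex
  rw [← Complex.exp_conj, map_mul, Complex.conj_I, Complex.conj_ofReal]
  congr 1
  push_cast
  ring

lemma norm_ex_sub_one (x : ℝ) (n : ℤ) : ‖ex x - 1‖ ≤ 2 * Real.pi * |x - n| := by
  have h1 : ex x = ex (x - n) := by
    have : x = (x - n) + n := by ring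
    conv_lhs => rw [this, ex_add, ex_int, mul_one]
  rw [h1]
  unfold ex
  refine Real.norm_exp_I_mul_ofReal_sub_one_le.trans (le_of_eq ?_)
  rw [Real.norm_eq_abs, abs_mul, abs_of_pos (by positivity : 0 < 2 * Real.pi)]

lemma norm_ex_sub_ex (x y : ℝ) : ‖ex x - ex y‖ ≤ 2 * Real.pi * |x - y| := by
  have h1 : ex x - ex y = ex y * (ex (x - y) - 1) := by
    rw [mul_sub, ← ex_add, mul_one]
    congr 2
    ring
  rw [h1, norm_mul, norm_ex, one_mul]
  simpa using norm_ex_sub_one (x - y) 0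

lemma ex_nat_mul (x : ℝ) (n : ℕ) : ex (n * x) = ex x ^ n := by
  induction n with
  | zero => simp [ex_zero]
  | succ n ih => rw [pow_succ, ← ih, ← ex_add]; congr 1; push_cast; ring

lemma orth (N : ℕ) (k : ℤ) (hk : |k| < N) :
    ∑ ξ ∈ range N, ex (k * (ξ / N)) = if k = 0 then (N : ℂ) else 0 := by
  split_ifs with h
  · simp [h, ex_zero]
  · have hN : (0 : ℝ) < N := by
      have : (0 : ℤ) < N := lt_of_le_of_lt (abs_nonneg k) hk
      exact_mod_cast this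
    have h1 : ∀ ξ ∈ range N, ex (k * (ξ / N)) = ex (k / N) ^ ξ := by
      intro ξ _
      rw [← ex_nat_mul]
      congr 1
      ring
    rw [sum_congr rfl h1]
    have h2 : ex (k / N) ^ N = 1 := by
      rw [← ex_nat_mul, mul_div_cancel₀ _ hN.ne', ex_int]
    have h3 : ex (k / N) ≠ 1 := by
      intro h4
      unfold ex at h4
      rw [Complex.exp_eq_one_iff] at h4
      obtain ⟨n, hn⟩ := h4
      have h5 : ((2 * Real.pi * (k / N) : ℝ) : ℂ) = ((n * (2 * Real.pi) : ℝ) : ℂ) := by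
        apply mul_left_cancel₀ Complex.I_ne_zero
        rw [hn]
        push_cast
        ring
      have h6 : 2 * Real.pi * (k / N) = n * (2 * Real.pi) := by exact_mod_cast h5
      have h7 : (k : ℝ) / N = n := by
        have hpi : 2 * Real.pi ≠ 0 := by positivity
        apply mul_left_cancel₀ hpi
        linarith
      have h8 : (k : ℝ) = n * N := by rw [← h7]; field_simp
      have h9 : k = n * N := by exact_mod_cast h8
      have h10 : n ≠ 0 := by
        rintro rfl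
        simp [h] at h9
      rw [h9, abs_mul] at hk
      have h11 : 1 ≤ |n| := Int.one_le_abs h10
      have h12 : |(N : ℤ)| = N := by simp
      rw [h12] at hk
      have : (0 : ℤ) ≤ N := by positivity
      nlinarith
    have h4 := geom_sum_mul (ex (k / N)) N
    rw [h2, sub_self] at h4
    exact (mul_eq_zero.mp h4).resolve_right (sub_ne_zero.mpr h3)

/-- Exponential sum over a finite set. -/
noncomputable def hat (U : Finset ℕ) (θ : ℝ) : ℂ := ∑ a ∈ U, ex (a * θ)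

lemma parseval (U : Finset ℕ) (j N : ℕ) (hU : U ⊆ Ico j (j + N)) :
    ∑ ξ ∈ range N, ‖hat U (ξ / N)‖ ^ 2 = N * U.card := by
  have h1 : ∀ ξ ∈ range N, ((‖hat U (ξ / N)‖ ^ 2 : ℝ) : ℂ) =
      ∑ a ∈ U, ∑ b ∈ U, ex ((((a : ℤ) - b : ℤ) : ℝ) * (ξ / N)) := by
    intro ξ _
    rw [← Complex.normSq_eq_norm_sq, ← Complex.mul_conj]
    unfold hat
    rw [map_sum, sum_mul_sum]
    apply sum_congr rfl
    intro a _
    apply sum_congr rfl
    intro b _
    rw [conj_ex, ← ex_add]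
    congr 1
    push_cast
    ring
  have h2 : ((∑ ξ ∈ range N, ‖hat U (ξ / N)‖ ^ 2 : ℝ) : ℂ) = ((N * U.card : ℝ) : ℂ) := by
    rw [Complex.ofReal_sum, sum_congr rfl h1, sum_comm]
    have h3 : ∀ a ∈ U, ∑ ξ ∈ range N, ∑ b ∈ U, ex ((((a : ℤ) - b : ℤ) : ℝ) * (ξ / N)) = N := by
      intro a ha
      rw [sum_comm]
      have h4 : ∀ b ∈ U, ∑ ξ ∈ range N, ex ((((a : ℤ) - b : ℤ) : ℝ) * (ξ / N)) =
          if a = b then (N : ℂ) else 0 := by
        intro b hb
        have ha' := mem_Ico.mp (hU ha)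
        have hb' := mem_Ico.mp (hU hb)
        rw [orth N _ (by rw [abs_lt]; constructor <;> omega)]
        congr 1
        simp only [eq_iff_iff]
        omega
      rw [sum_congr rfl h4, sum_ite_eq, if_pos ha]
    rw [sum_congr rfl h3, sum_const, nsmul_eq_mul]
    push_cast
    ring
  exact_mod_cast h2

/-- Number of solutions of `a + b = 2 c + τ`. -/
noncomputable def cntT (U Z : Finset ℕ) (τ : ℕ) : ℝ :=
  ∑ a ∈ U, ∑ b ∈ U, ∑ c ∈ Z, if a + b = 2 * c + τ then (1 : ℝ) else 0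

lemma cntT_eq (U Z : Finset ℕ) (τ M N : ℕ) (hU : ∀ a ∈ U, a ≤ M) (hZ : ∀ a ∈ Z, a ≤ M)
    (hN : 2 * M + τ < N) :
    (N : ℂ) * (cntT U Z τ : ℂ) = ∑ ξ ∈ range N,
      hat U (ξ / N) ^ 2 * (starRingEnd ℂ) (hat Z (2 * (ξ / N))) * ex (-(τ * (ξ / N))) := by
  have h1 : ∀ ξ ∈ range N,
      hat U (ξ / N) ^ 2 * (starRingEnd ℂ) (hat Z (2 * (ξ / N))) * ex (-(τ * (ξ / N))) =
      ∑ a ∈ U, ∑ b ∈ U, ∑ c ∈ Z, ex ((((a : ℤ) + b - 2 * c - τ : ℤ) : ℝ) * (ξ / N)) := by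
    intro ξ _
    unfold hat
    rw [sq, sum_mul_sum, map_sum, sum_mul, sum_mul]
    apply sum_congr rfl
    intro a _
    rw [sum_mul, sum_mul]
    apply sum_congr rfl
    intro b _
    rw [mul_sum, sum_mul]
    apply sum_congr rfl
    intro c _
    rw [conj_ex, ← ex_add, ← ex_add, ← ex_add]
    congr 1
    push_cast
    ring
  rw [sum_congr rfl h1, sum_comm]
  unfold cntT
  push_cast
  rw [mul_sum]
  apply sum_congr rfl
  intro a ha
  rw [mul_sum, sum_comm (s := range N)]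
  apply sum_congr rfl
  intro b hb
  rw [mul_sum, sum_comm (s := range N)]
  apply sum_congr rfl
  intro c hc
  have h2 := hU a ha
  have h3 := hU b hb
  have h4 := hZ c hc
  have h5 := orth N ((a : ℤ) + b - 2 * c - τ) (by rw [abs_lt]; constructor <;> omega)
  push_cast at h5
  rw [h5]
  by_cases h : a + b = 2 * c + τ
  · rw [if_pos h, if_pos (by omega)]
    simp
  · rw [if_neg h, if_neg (by omega)]
    simp

lemma cntT_le (U Z : Finset ℕ) (τ : ℕ) (η : ℝ)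
    (h : ∀ θ : ℝ, ‖hat Z (2 * θ)‖ * ‖ex (τ * θ) - 1‖ ≤ η) :
    cntT U Z τ ≤ cntT U Z 0 + η * U.card := by
  obtain ⟨M, hM⟩ := (U ∪ Z).bddAbove
  have hU : ∀ a ∈ U, a ≤ M := fun a ha => hM (by simp [ha])
  have hZ : ∀ a ∈ Z, a ≤ M := fun a ha => hM (by simp [ha])
  set N := 2 * M + τ + 1 with hN
  have hNpos : (0 : ℝ) < N := by rw [hN]; positivity
  have h1 := cntT_eq U Z τ M N hU hZ (by omega)
  have h2 := cntT_eq U Z 0 M N hU hZ (by omega)
  have h3 : (((N : ℝ) * (cntT U Z τ - cntT U Z 0) : ℝ) : ℂ) = ∑ ξ ∈ range N,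
      hat U (ξ / N) ^ 2 * (starRingEnd ℂ) (hat Z (2 * (ξ / N))) * (ex (-(τ * (ξ / N))) - 1) := by
    push_cast
    rw [mul_sub, h1, h2, ← sum_sub_distrib]
    apply sum_congr rfl
    intro ξ _
    simp only [Nat.cast_zero, zero_mul, neg_zero, ex_zero]
    ring
  have h4 : (N : ℝ) * (cntT U Z τ - cntT U Z 0) ≤ ∑ ξ ∈ range N, ‖hat U (ξ / N)‖ ^ 2 * η := by
    refine (le_abs_self _).trans ?_
    rw [← Real.norm_eq_abs, ← Complex.norm_real, h3]
    refine (norm_sum_le _ _).trans (sum_le_sum ?_)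
    intro ξ _
    rw [norm_mul, norm_mul, norm_pow, mul_assoc]
    apply mul_le_mul_of_nonneg_left _ (by positivity)
    have h5 : ex (-(τ * (ξ / N))) - 1 = (starRingEnd ℂ) (ex (τ * (ξ / N)) - 1) := by
      rw [map_sub, conj_ex, map_one]
    rw [h5, Complex.norm_conj, Complex.norm_conj]
    exact h _
  rw [← sum_mul, parseval U 0 N (by
    intro a ha
    have := hU a ha
    exact mem_Ico.mpr ⟨by omega, by omega⟩)] at h4
  have h6 : (N : ℝ) * (cntT U Z τ - cntT U Z 0) ≤ N * (η * U.card) := by linarith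
  have := le_of_mul_le_mul_left h6 hNpos
  linarith

lemma dirichlet (S : Finset ℕ) (α : ℕ → ℝ) (D R : ℕ) (hD : 1 ≤ D) (hR : S.card ≤ R) :
    ∃ d : ℕ, 1 ≤ d ∧ d ≤ D ^ R ∧ ∀ ξ ∈ S, ∃ r : ℤ, |d * α ξ - r| ≤ 1 / D := by
  classical
  have hDpos : (0 : ℝ) < D := by exact_mod_cast hD
  set f : ℕ → (S → ℕ) := fun d ξ => ⌊D * Int.fract (d * α ξ)⌋₊ with hf
  have hmaps : Set.MapsTo f (range (D ^ R + 1) : Finset ℕ)
      (Fintype.piFinset (fun _ : S => range D) : Finset (S → ℕ)) := by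
    intro d _
    simp only [mem_coe, Fintype.mem_piFinset, mem_range, hf]
    intro ξ
    rw [Nat.floor_lt (mul_nonneg hDpos.le (Int.fract_nonneg _))]
    have := Int.fract_lt_one ((d : ℝ) * α ξ)
    nlinarith
  have hcard : (Fintype.piFinset (fun _ : S => range D)).card < (range (D ^ R + 1)).card := by
    rw [Fintype.card_piFinset]
    simp only [card_range, prod_const, card_univ, Fintype.card_coe]
    have := Nat.pow_le_pow_right hD hR
    omega
  obtain ⟨x, hx, y, hy, hxy, hfxy⟩ := exists_ne_map_eq_of_card_lt_of_maps_to hcard hmaps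
  have key : ∀ x y : ℕ, x < y → y ≤ D ^ R → f x = f y →
      ∃ d : ℕ, 1 ≤ d ∧ d ≤ D ^ R ∧ ∀ ξ ∈ S, ∃ r : ℤ, |d * α ξ - r| ≤ 1 / D := by
    intro x y hlt hy hfxy
    refine ⟨y - x, by omega, by omega, ?_⟩
    intro ξ hξ
    have h1 := congrFun hfxy ⟨ξ, hξ⟩
    simp only [hf] at h1
    refine ⟨⌊(y : ℝ) * α ξ⌋ - ⌊(x : ℝ) * α ξ⌋, ?_⟩
    have e : ((y - x : ℕ) : ℝ) * α ξ - ((⌊(y : ℝ) * α ξ⌋ - ⌊(x : ℝ) * α ξ⌋ : ℤ) : ℝ) =
        Int.fract ((y : ℝ) * α ξ) - Int.fract ((x : ℝ) * α ξ) := by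
      rw [Nat.cast_sub hlt.le]
      unfold Int.fract
      push_cast
      ring
    rw [e]
    have a1 := Nat.floor_le (mul_nonneg hDpos.le (Int.fract_nonneg ((x : ℝ) * α ξ)))
    have a2 := Nat.lt_floor_add_one ((D : ℝ) * Int.fract ((x : ℝ) * α ξ))
    have a3 := Nat.floor_le (mul_nonneg hDpos.le (Int.fract_nonneg ((y : ℝ) * α ξ)))
    have a4 := Nat.lt_floor_add_one ((D : ℝ) * Int.fract ((y : ℝ) * α ξ))
    rw [h1] at a1 a2
    rw [abs_le, neg_le, le_div_iff₀ hDpos, le_div_iff₀ hDpos]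
    constructor <;> linarith
  have hx' := mem_range.mp hx
  have hy' := mem_range.mp hy
  rcases lt_or_gt_of_ne hxy with h | h
  · exact key x y h (by omega) hfxy
  · exact key y x h (by omega) hfxy.symm

lemma norm_hat_le (Z : Finset ℕ) (θ : ℝ) : ‖hat Z θ‖ ≤ Z.card := by
  unfold hat
  refine (norm_sum_le _ _).trans (le_of_eq ?_)
  simp [norm_ex]

lemma hat_add_int (Z : Finset ℕ) (θ : ℝ) (k : ℤ) : hat Z (θ + k) = hat Z θ := by
  unfold hat
  apply sum_congr rfl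
  intro a _
  have : (a : ℝ) * (θ + k) = a * θ + ((a * k : ℤ) : ℝ) := by push_cast; ring
  rw [this, ex_add, ex_int, mul_one]

lemma hat_lip (Z : Finset ℕ) (j l : ℕ) (hZ : Z ⊆ Ico j (j + l)) (θ θ' : ℝ) :
    ‖hat Z θ‖ ≤ ‖hat Z θ'‖ + 2 * Real.pi * (l : ℝ) ^ 2 * |θ - θ'| := by
  have h1 : ∀ x : ℝ, ‖hat Z x‖ = ‖∑ a ∈ Z, ex (((a : ℝ) - j) * x)‖ := by
    intro x
    have : hat Z x = ex (j * x) * ∑ a ∈ Z, ex (((a : ℝ) - j) * x) := by
      unfold hat
      rw [mul_sum]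
      apply sum_congr rfl
      intro a _
      rw [← ex_add]
      congr 1
      ring
    rw [this, norm_mul, norm_ex, one_mul]
  rw [h1, h1]
  have h2 : ‖∑ a ∈ Z, ex (((a : ℝ) - j) * θ) - ∑ a ∈ Z, ex (((a : ℝ) - j) * θ')‖ ≤
      2 * Real.pi * (l : ℝ) ^ 2 * |θ - θ'| := by
    rw [← sum_sub_distrib]
    refine (norm_sum_le _ _).trans ?_
    have h3 : ∀ a ∈ Z, ‖ex (((a : ℝ) - j) * θ) - ex (((a : ℝ) - j) * θ')‖ ≤
        2 * Real.pi * (l * |θ - θ'|) := by
      intro a ha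
      have ha' := mem_Ico.mp (hZ ha)
      have a1 : (j : ℝ) ≤ a := by exact_mod_cast ha'.1
      have a2 : (a : ℝ) ≤ j + l := by exact_mod_cast ha'.2.le
      refine (norm_ex_sub_ex _ _).trans ?_
      rw [← mul_sub, abs_mul, abs_of_nonneg (by linarith)]
      gcongr
      linarith
    refine (sum_le_sum h3).trans ?_
    rw [sum_const, nsmul_eq_mul]
    have h4 : (Z.card : ℝ) ≤ l := by
      have := card_le_card hZ
      rw [Nat.card_Ico] at this
      exact_mod_cast (by omega : Z.card ≤ l)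
    calc (Z.card : ℝ) * (2 * Real.pi * (l * |θ - θ'|)) ≤ l * (2 * Real.pi * (l * |θ - θ'|)) := by
          gcongr
      _ = _ := by ring
  have h5 := norm_le_norm_add_norm_sub' (∑ a ∈ Z, ex (((a : ℝ) - j) * θ))
    (∑ a ∈ Z, ex (((a : ℝ) - j) * θ'))
  linarith

lemma spectrum (Z : Finset ℕ) (j l L R D Q : ℕ) (ε : ℝ) (hZ : Z ⊆ Ico j (j + l)) (hl : 1 ≤ l)
    (hε : 0 < ε) (hL : 13 ≤ ε * L) (hR : 16 * (L : ℝ) ≤ ε ^ 2 * R) (hD : 1 ≤ D)
    (hQ : 7 * (Q : ℝ) * (1 / D + (D : ℝ) ^ R / (2 * l)) ≤ ε) :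
    ∃ d : ℕ, 1 ≤ d ∧ d ≤ D ^ R ∧ ∀ (θ : ℝ) (τ : ℕ), τ ≤ Q →
      ‖hat Z θ‖ * ‖ex (τ * d * θ) - 1‖ ≤ ε * l := by
  classical
  have hlpos : (0 : ℝ) < l := by exact_mod_cast hl
  have hLpos : (0 : ℝ) < L := by
    by_contra hc
    push Not at hc
    have : ε * L ≤ 0 := mul_nonpos_of_nonneg_of_nonpos hε.le hc
    linarith
  have hL1 : 1 ≤ L := by exact_mod_cast hLpos
  have hL1' : (1 : ℝ) ≤ L := by exact_mod_cast hL1
  have hDpos : (0 : ℝ) < D := by exact_mod_cast hD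
  set N := L * l with hN
  have hNl : l ≤ N := Nat.le_mul_of_pos_left _ hL1
  have hNr : (N : ℝ) = L * l := by rw [hN]; push_cast; ring
  have hNpos : (0 : ℝ) < N := by rw [hNr]; positivity
  have hZc : (Z.card : ℝ) ≤ l := by
    have := card_le_card hZ
    rw [Nat.card_Ico] at this
    exact_mod_cast (by omega : Z.card ≤ l)
  set S := (range N).filter (fun ξ : ℕ => ε * l / 4 ≤ ‖hat Z (ξ / N)‖) with hS
  have hSR : S.card ≤ R := by
    have h1 := parseval Z j N (hZ.trans (Ico_subset_Ico_right (by omega)))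
    have h2 : ∑ ξ ∈ S, ‖hat Z (ξ / N)‖ ^ 2 ≤ ∑ ξ ∈ range N, ‖hat Z (ξ / N)‖ ^ 2 :=
      sum_le_sum_of_subset_of_nonneg (filter_subset _ _) (fun _ _ _ => by positivity)
    have h3 : ∑ _ξ ∈ S, (ε * l / 4) ^ 2 ≤ ∑ ξ ∈ S, ‖hat Z (ξ / N)‖ ^ 2 := by
      apply sum_le_sum
      intro ξ hξ
      have := (mem_filter.mp hξ).2
      gcongr
    rw [sum_const, nsmul_eq_mul] at h3
    have h4 : (S.card : ℝ) * (ε * l / 4) ^ 2 ≤ L * l * l := by
      have : (N : ℝ) * Z.card ≤ L * l * l := by rw [hNr]; gcongr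
      linarith
    have h5 : (S.card : ℝ) * (ε ^ 2 * l ^ 2) ≤ R * (ε ^ 2 * l ^ 2) := by
      have : (16 * (L : ℝ)) * l ^ 2 ≤ ε ^ 2 * R * l ^ 2 := by gcongr
      nlinarith
    have h6 : (S.card : ℝ) ≤ R := le_of_mul_le_mul_right h5 (by positivity)
    exact_mod_cast h6
  obtain ⟨d, hd1, hd2, hd3⟩ := dirichlet S (fun ξ => (ξ : ℝ) / N) D R hD hSR
  refine ⟨d, hd1, hd2, ?_⟩
  intro θ τ hτ
  set k : ℤ := round (θ * N) with hk
  have hk1 : |θ - k / N| ≤ 1 / (2 * N) := by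
    have h1 := abs_sub_round (θ * N)
    rw [← hk] at h1
    have : θ - k / N = (θ * N - k) / N := by field_simp
    rw [this, abs_div, abs_of_pos hNpos, div_le_iff₀ hNpos]
    refine h1.trans (le_of_eq ?_)
    field_simp
  have hNz : (0 : ℤ) < N := by exact_mod_cast hNpos
  set ξ : ℕ := (k % N).toNat with hξ
  have hξ1 : (ξ : ℤ) = k % N := Int.toNat_of_nonneg (Int.emod_nonneg _ hNz.ne')
  have hξ2 : ξ < N := by
    have := Int.emod_lt_of_pos k hNz
    omega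
  have hξ3 : (k : ℝ) / N = ξ / N + ((k / N : ℤ) : ℝ) := by
    have h1 : k = N * (k / N) + ξ := by rw [hξ1]; exact (Int.mul_ediv_add_emod k N).symm
    have h2 : (k : ℝ) = N * ((k / N : ℤ) : ℝ) + ξ := by exact_mod_cast h1
    conv_lhs => rw [h2]
    field_simp
    ring
  by_cases hξS : ξ ∈ S
  · obtain ⟨r, hr⟩ := hd3 ξ hξS
    have h1 := norm_ex_sub_one (τ * d * θ) (τ * d * (k / N) + τ * r)
    have h2 : (τ : ℝ) * d * θ - ((τ * d * (k / N) + τ * r : ℤ) : ℝ) =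
        τ * (d * (θ - k / N) + (d * (ξ / N) - r)) := by
      rw [hξ3]
      push_cast
      ring
    have hd2' : (d : ℝ) ≤ (D : ℝ) ^ R := by exact_mod_cast hd2
    have hτ' : (τ : ℝ) ≤ Q := by exact_mod_cast hτ
    have h3 : |(τ : ℝ) * (d * (θ - k / N) + (d * (ξ / N) - r))| ≤
        Q * (1 / D + (D : ℝ) ^ R / (2 * l)) := by
      rw [abs_mul, Nat.abs_cast]
      apply mul_le_mul hτ' _ (abs_nonneg _) (by positivity)
      refine (abs_add_le _ _).trans ?_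
      rw [abs_mul, Nat.abs_cast]
      have h4 : (d : ℝ) * |θ - k / N| ≤ (D : ℝ) ^ R / (2 * l) := by
        have h5 : 1 / (2 * (N : ℝ)) ≤ 1 / (2 * l) := by
          have : (l : ℝ) ≤ N := by exact_mod_cast hNl
          gcongr
        calc (d : ℝ) * |θ - k / N| ≤ (D : ℝ) ^ R * (1 / (2 * l)) := by
              apply mul_le_mul hd2' (hk1.trans h5) (abs_nonneg _) (by positivity)
          _ = _ := by ring
      linarith
    rw [h2] at h1
    have hpi : 2 * Real.pi ≤ 7 := by linarith [Real.pi_lt_d2]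
    have h6 : ‖ex (τ * d * θ) - 1‖ ≤ ε := by
      refine h1.trans (le_trans ?_ hQ)
      rw [mul_assoc 7]
      apply mul_le_mul hpi h3 (abs_nonneg _) (by norm_num)
    calc ‖hat Z θ‖ * ‖ex (τ * d * θ) - 1‖ ≤ l * ε :=
          mul_le_mul ((norm_hat_le Z θ).trans hZc) h6 (norm_nonneg _) hlpos.le
      _ = ε * l := by ring
  · have h1 : ‖hat Z (ξ / N)‖ < ε * l / 4 := by
      by_contra hc
      push Not at hc
      exact hξS (mem_filter.mpr ⟨mem_range.mpr hξ2, hc⟩)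
    have h2 := hat_lip Z j l hZ θ (k / N)
    rw [hξ3, hat_add_int, ← hξ3] at h2
    have h3 : 2 * Real.pi * (l : ℝ) ^ 2 * |θ - k / N| ≤ ε * l / 4 := by
      have hpi : Real.pi ≤ 13 / 4 := by linarith [Real.pi_lt_d2]
      calc 2 * Real.pi * (l : ℝ) ^ 2 * |θ - k / N|
          ≤ 2 * (13 / 4) * (l : ℝ) ^ 2 * (1 / (2 * N)) := by gcongr
        _ = 13 / (L : ℝ) * l / 4 := by rw [hNr]; field_simp
        _ ≤ ε * l / 4 := by
          have : 13 / (L : ℝ) ≤ ε := by rw [div_le_iff₀ hLpos]; exact hL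
          gcongr
    have h4 : ‖ex (τ * d * θ) - 1‖ ≤ 2 := by
      refine (norm_sub_le _ _).trans ?_
      rw [norm_ex, norm_one]
      norm_num
    calc ‖hat Z θ‖ * ‖ex (τ * d * θ) - 1‖ ≤ (ε * l / 2) * 2 :=
          mul_le_mul (by linarith) h4 (norm_nonneg _) (by positivity)
      _ = ε * l := by ring

end Pool.Agent.Lib.MP_ce1fc8_nt
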