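import Pool.Agent.Lib.MP_ce1fc8_nt.Barrier1
import Pool.Agent.Lib.MP_ce1fc8_nt.Fourier

set_option autoImplicit false

namespace Pool.Agent.Lib.MP_ce1fc8_nt

open Finset

lemma sub_mono {U A : Finset ℕ} (h : U ⊆ A) (a d L : ℕ) : sub U a d L ⊆ sub A a d L := by
  intro t ht
  simp only [sub, mem_filter] at ht ⊢
  exact ⟨ht.1, h ht.2⟩

lemma smooth (U : Finset ℕ) (e q c H j l : ℕ) (S : ℝ) (hS : 0 ≤ S) (hHj : H ≤ j) (hjc : j ≤ c)
    (hcj : c < j + l) (hU : U ⊆ Ico (j - H) (j + l + H))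
    (hmax : ∀ n ∈ Ico (c - H) (c + H + 1), ((sub U n e q).card : ℝ) ≤ S) :
    S * (2 * q * ((U.card : ℝ) - l - e * q) - S * (2 * H + 1)) ≤
      ∑ n ∈ Ico (c - H) (c + H + 1),
        ((sub U n e q).card : ℝ) * ((sub U (2 * c - n) e q).card : ℝ) := by
  set φ : ℕ → ℝ := fun n => ((sub U n e q).card : ℝ) with hφ
  have hrefl : ∑ n ∈ Ico (c - H) (c + H + 1), φ (2 * c - n) =
      ∑ n ∈ Ico (c - H) (c + H + 1), φ n := by
    apply sum_nbij' (fun n => 2 * c - n) (fun n => 2 * c - n)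
    · intro n hn
      simp only [mem_Ico] at hn ⊢
      omega
    · intro n hn
      simp only [mem_Ico] at hn ⊢
      omega
    · intro n hn
      simp only [mem_Ico] at hn
      omega
    · intro n hn
      simp only [mem_Ico] at hn
      omega
    · intro n _
      rfl
  have h1 : ∀ n ∈ Ico (c - H) (c + H + 1),
      S * φ n + S * φ (2 * c - n) - S * S ≤ φ n * φ (2 * c - n) := by
    intro n hn
    have a1 : φ n ≤ S := hmax n hn
    have a2 : φ (2 * c - n) ≤ S := hmax _ (by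
      simp only [mem_Ico] at hn ⊢
      omega)
    nlinarith [mul_nonneg (sub_nonneg.mpr a1) (sub_nonneg.mpr a2)]
  refine le_trans ?_ (sum_le_sum h1)
  rw [sum_sub_distrib, sum_add_distrib, ← mul_sum, ← mul_sum, hrefl, sum_const, Nat.card_Ico,
    nsmul_eq_mul]
  have h2 := sum_sub_ge U (c - H) (c + H + 1) e q
  have h3 : (U.card : ℝ) ≤ (U ∩ Ico (c - H) (c + H + 1)).card + l := by
    have hsub : U ⊆ (U ∩ Ico (c - H) (c + H + 1)) ∪
        (Ico (j - H) (c - H) ∪ Ico (c + H + 1) (j + l + H)) := by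
      intro b hb
      have := mem_Ico.mp (hU hb)
      simp only [mem_union, mem_inter, mem_Ico]
      by_cases a1 : b < c - H
      · exact Or.inr (Or.inl ⟨this.1, a1⟩)
      · by_cases a2 : c + H + 1 ≤ b
        · exact Or.inr (Or.inr ⟨a2, this.2⟩)
        · exact Or.inl ⟨hb, by omega, by omega⟩
    have a1 := (card_le_card hsub).trans (card_union_le _ _)
    have a2 := card_union_le (Ico (j - H) (c - H)) (Ico (c + H + 1) (j + l + H))
    rw [Nat.card_Ico, Nat.card_Ico] at a2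
    exact_mod_cast (by omega : U.card ≤ (U ∩ Ico (c - H) (c + H + 1)).card + l)
  have h4 : ((c + H + 1 - (c - H) : ℕ) : ℝ) = 2 * H + 1 := by
    have : c + H + 1 - (c - H) = 2 * H + 1 := by omega
    rw [this]
    push_cast
    ring
  rw [h4]
  have h5 : (q : ℝ) * ((U.card : ℝ) - l - e * q) ≤ ∑ n ∈ Ico (c - H) (c + H + 1), φ n := by
    refine le_trans ?_ h2
    apply mul_le_mul_of_nonneg_left _ (Nat.cast_nonneg _)
    linarith
  have h6 := mul_le_mul_of_nonneg_left h5 hS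
  linarith

lemma kl_one (K K1 q : ℕ) (σ C : ℝ) (A : Finset ℕ) (x : ℕ → ℝ) (hσ : 0 < σ) (hq : 1 ≤ q)
    (hC : 0 ≤ C)
    (hmax : ∀ n, n + (q - 1) < K → ((sub A n 1 q).card : ℝ) ≤ (1 + 1 / 1000) * σ * q)
    (hK1 : 16 * ((q : ℝ) + (1 : ℕ)) ≤ σ * K1) (hqK1 : q ≤ K1)
    (hP : ∀ a b c : ℕ, a < K → b < K → c ∈ A → a + b = 2 * c → x a + x b ≤ 2 * x c)
    (hLip : ∀ b ∈ A, ∀ h : ℕ, h ≤ b → x b - x (b - h) ≤ C * h) :
    ∀ j H : ℕ, K1 ≤ H → H ≤ j → j + 1 + H + K1 ≤ K → ∀ U Z : Finset ℕ,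
      U ⊆ A ∩ Ico (j - H) (j + 1 + H) → 9 / 16 * σ * (2 * H + (1 : ℕ)) ≤ U.card →
      Z ⊆ A ∩ Ico j (j + 1) → 1 ≤ Z.card →
      ∃ a ∈ U, ∃ b ∈ U, ∃ c ∈ Z, x a + x b ≤ 2 * x c + 2 * C * q ∧ 2 * c ≤ a + b ∧
        a + b ≤ 2 * c + 2 * q := by
  intro j H h1 h2 h3 U Z hU hUc hZ hZc
  obtain ⟨c, hc⟩ : Z.Nonempty := card_pos.mp hZc
  have hc' := mem_inter.mp (hZ hc)
  have hc'' := mem_Ico.mp hc'.2
  have hUA : U ⊆ A := hU.trans inter_subset_left
  have hqpos : (0 : ℝ) < q := by exact_mod_cast hq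
  have hs := smooth U 1 q c H j 1 ((1 + 1 / 1000) * σ * q) (by positivity) h2 hc''.1 hc''.2
    (hU.trans inter_subset_right)
    (by
      intro n hn
      have := mem_Ico.mp hn
      refine le_trans ?_ (hmax n (by omega))
      exact_mod_cast card_le_card (sub_mono hUA _ _ _))
  have hH : (K1 : ℝ) ≤ H := by exact_mod_cast h1
  have hpos : 0 < (1 + 1 / 1000) * σ * q * (2 * q * ((U.card : ℝ) - (1 : ℕ) - (1 : ℕ) * q) -
      (1 + 1 / 1000) * σ * q * (2 * H + 1)) := by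
    apply mul_pos (by positivity)
    have e : 2 * q * ((U.card : ℝ) - (1 : ℕ) - (1 : ℕ) * q) - (1 + 1 / 1000) * σ * q * (2 * H + 1)
        = q * (2 * ((U.card : ℝ) - 1 - q) - (1 + 1 / 1000) * σ * (2 * H + 1)) := by
      push_cast
      ring
    rw [e]
    apply mul_pos hqpos
    push_cast at hUc hK1
    have : σ * K1 ≤ σ * H := by gcongr
    nlinarith
  obtain ⟨n, hn, hn2⟩ := exists_lt_of_sum_lt (s := Ico (c - H) (c + H + 1)) (f := fun _ => (0 : ℝ))
    (by simpa using lt_of_lt_of_le hpos hs)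
  have hn' := mem_Ico.mp hn
  have hne1 : (sub U n 1 q).Nonempty := by
    rw [nonempty_iff_ne_empty]
    intro h
    simp [h] at hn2
  have hne2 : (sub U (2 * c - n) 1 q).Nonempty := by
    rw [nonempty_iff_ne_empty]
    intro h
    simp [h] at hn2
  obtain ⟨t1, ht1⟩ := hne1
  obtain ⟨t2, ht2⟩ := hne2
  simp only [sub, mem_filter, mem_range, one_mul] at ht1 ht2
  refine ⟨n + t1, ht1.2, 2 * c - n + t2, ht2.2, c, hc, ?_, by omega, by omega⟩
  have a1 := hLip _ (hUA ht1.2) t1 (by omega)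
  have a2 := hLip _ (hUA ht2.2) t2 (by omega)
  rw [Nat.add_sub_cancel] at a1 a2
  have a3 := hP n (2 * c - n) c (by omega) (by omega) hc'.1 (by omega)
  have a4 : (t1 : ℝ) ≤ q := by exact_mod_cast ht1.1.le
  have a5 : (t2 : ℝ) ≤ q := by exact_mod_cast ht2.1.le
  have a6 := mul_le_mul_of_nonneg_left a4 hC
  have a7 := mul_le_mul_of_nonneg_left a5 hC
  linarith

lemma corr_le (U Z : Finset ℕ) (e q H : ℕ) (hH : ∀ c ∈ Z, H ≤ c) :
    ∑ c ∈ Z, ∑ n ∈ Ico (c - H) (c + H + 1),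
        ((sub U n e q).card : ℝ) * ((sub U (2 * c - n) e q).card : ℝ) ≤
      ∑ t1 ∈ range q, ∑ t2 ∈ range q, cntT U Z (e * (t1 + t2)) := by
  have h1 : ∀ c ∈ Z, ∑ n ∈ Ico (c - H) (c + H + 1),
        ((sub U n e q).card : ℝ) * ((sub U (2 * c - n) e q).card : ℝ) ≤
      ∑ t1 ∈ range q, ∑ t2 ∈ range q, ∑ a ∈ U, ∑ b ∈ U,
        if a + b = 2 * c + e * (t1 + t2) then (1 : ℝ) else 0 := by
    intro c hc
    have hc' := hH c hc
    have h2 : ∀ n ∈ Ico (c - H) (c + H + 1),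
        ((sub U n e q).card : ℝ) * ((sub U (2 * c - n) e q).card : ℝ) =
        ∑ t1 ∈ range q, ∑ t2 ∈ range q,
          if n + e * t1 ∈ U ∧ 2 * c - n + e * t2 ∈ U then (1 : ℝ) else 0 := by
      intro n _
      unfold sub
      rw [card_filter, card_filter]
      push_cast
      rw [sum_mul_sum]
      apply sum_congr rfl
      intro t1 _
      apply sum_congr rfl
      intro t2 _
      by_cases a1 : n + e * t1 ∈ U <;> by_cases a2 : 2 * c - n + e * t2 ∈ U <;> simp [a1, a2]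
    rw [sum_congr rfl h2, sum_comm]
    apply sum_le_sum
    intro t1 _
    rw [sum_comm]
    apply sum_le_sum
    intro t2 _
    rw [← sum_product', sum_boole, sum_boole]
    have : ((Ico (c - H) (c + H + 1)).filter
        (fun n => n + e * t1 ∈ U ∧ 2 * c - n + e * t2 ∈ U)).card ≤
        ((U ×ˢ U).filter (fun x => x.1 + x.2 = 2 * c + e * (t1 + t2))).card := by
      apply card_le_card_of_injOn (fun n => (n + e * t1, 2 * c - n + e * t2))
      · intro n hn
        simp only [coe_filter, mem_Ico, Set.mem_ofPred_eq, mem_product] at hn ⊢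
        refine ⟨hn.2, ?_⟩
        rw [mul_add]
        omega
      · intro n _ n' _ h
        have := congrArg Prod.fst h
        simp only at this
        omega
    exact_mod_cast this
  refine (sum_le_sum h1).trans (le_of_eq ?_)
  rw [sum_comm]
  apply sum_congr rfl
  intro t1 _
  rw [sum_comm]
  apply sum_congr rfl
  intro t2 _
  unfold cntT
  rw [sum_comm]
  apply sum_congr rfl
  intro a _
  rw [sum_comm]

lemma kl_two (K K1 q l m R L D : ℕ) (σ ε : ℝ) (A : Finset ℕ) (y : ℕ → ℝ) (hσ : 0 < σ)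
    (hq : 1 ≤ q) (hl : 1 ≤ l) (hD : 1 ≤ D) (hε : 0 < ε)
    (hmax : ∀ a d, 1 ≤ d → a + d * (q - 1) < K →
      ((sub A a d q).card : ℝ) ≤ (1 + 1 / 1000) * σ * q)
    (hP : ∀ a ∈ A, ∀ b ∈ A, ∀ c ∈ A, a + b = 2 * c → y a + y b ≤ 2 * y c)
    (hεσ : 400 * ε ≤ σ ^ 3) (hL : 13 ≤ ε * L) (hR : 16 * (L : ℝ) ≤ ε ^ 2 * R)
    (hQ : 7 * ((2 * q : ℕ) : ℝ) * (1 / D + (D : ℝ) ^ R / (2 * l)) ≤ ε)
    (hDl : 2 * D ^ R * q ≤ l) (hK1 : 64 * (l : ℝ) ≤ σ * K1) (hlK1 : l ≤ K1)
    (hm : σ * l / 16 ≤ m) :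
    ∀ j H : ℕ, K1 ≤ H → H ≤ j → j + l + H + K1 ≤ K → ∀ U Z : Finset ℕ,
      U ⊆ A ∩ Ico (j - H) (j + l + H) → 9 / 16 * σ * (2 * H + l) ≤ U.card →
      Z ⊆ A ∩ Ico j (j + l) → m ≤ Z.card →
      ∃ a ∈ U, ∃ b ∈ U, ∃ c ∈ Z, y a + y b ≤ 2 * y c + 0 ∧ 2 * c ≤ a + b ∧
        a + b ≤ 2 * c + 0 := by
  intro j H h1 h2 h3 U Z hU hUc hZ hZc
  have hUA : U ⊆ A := hU.trans inter_subset_left
  have hZA : Z ⊆ A := hZ.trans inter_subset_left
  have hZI : Z ⊆ Ico j (j + l) := hZ.trans inter_subset_right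
  have hqpos : (0 : ℝ) < q := by exact_mod_cast hq
  have hlpos : (0 : ℝ) < l := by exact_mod_cast hl
  by_contra hcon
  have hT0 : cntT U Z 0 = 0 := by
    unfold cntT
    apply sum_eq_zero
    intro a ha
    apply sum_eq_zero
    intro b hb
    apply sum_eq_zero
    intro c hc
    rw [if_neg]
    intro h
    apply hcon
    refine ⟨a, ha, b, hb, c, hc, ?_, by omega, by omega⟩
    rw [add_zero]
    exact hP a (hUA ha) b (hUA hb) c (hZA hc) (by omega)
  obtain ⟨d, hd1, hd2, hd3⟩ := spectrum Z j l L R D (2 * q) ε hZI hl hε hL hR hD hQ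
  have hdq : 2 * d * q ≤ l := le_trans (by gcongr) hDl
  have hup : ∑ t1 ∈ range q, ∑ t2 ∈ range q, cntT U Z (2 * d * (t1 + t2)) ≤
      q * (q * (ε * l * U.card)) := by
    have : ∀ t1 ∈ range q, ∑ t2 ∈ range q, cntT U Z (2 * d * (t1 + t2)) ≤
        q * (ε * l * U.card) := by
      intro t1 ht1
      have : ∀ t2 ∈ range q, cntT U Z (2 * d * (t1 + t2)) ≤ ε * l * U.card := by
        intro t2 ht2
        have a1 := mem_range.mp ht1
        have a2 := mem_range.mp ht2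
        have a3 := cntT_le U Z (2 * d * (t1 + t2)) (ε * l) (by
          intro θ
          have a4 := hd3 (2 * θ) (t1 + t2) (by omega)
          have e : ((2 * d * (t1 + t2) : ℕ) : ℝ) * θ = ((t1 + t2 : ℕ) : ℝ) * d * (2 * θ) := by
            push_cast
            ring
          rw [e]
          exact a4)
        rw [hT0, zero_add] at a3
        exact a3
      have a5 := sum_le_sum this
      rwa [sum_const, card_range, nsmul_eq_mul] at a5
    have a5 := sum_le_sum this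
    rwa [sum_const, card_range, nsmul_eq_mul] at a5
  have hcorr := corr_le U Z (2 * d) q H (fun c hc => h2.trans (mem_Ico.mp (hZI hc)).1)
  have hH : (K1 : ℝ) ≤ H := by exact_mod_cast h1
  have hl1 : (1 : ℝ) ≤ l := by exact_mod_cast hl
  have hdq' : ((2 * d : ℕ) : ℝ) * q ≤ l := by exact_mod_cast hdq
  have hlowc : ∀ c ∈ Z, σ ^ 2 * q ^ 2 * (2 * H + l) / 20 ≤ ∑ n ∈ Ico (c - H) (c + H + 1),
        ((sub U n (2 * d) q).card : ℝ) * ((sub U (2 * c - n) (2 * d) q).card : ℝ) := by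
    intro c hc
    have hc' := mem_Ico.mp (hZI hc)
    refine le_trans ?_ (smooth U (2 * d) q c H j l ((1 + 1 / 1000) * σ * q) (by positivity) h2
      hc'.1 hc'.2 (hU.trans inter_subset_right) ?_)
    · have e : 2 * q * ((U.card : ℝ) - l - ((2 * d : ℕ) : ℝ) * q) -
          (1 + 1 / 1000) * σ * q * (2 * H + 1) =
          q * (2 * ((U.card : ℝ) - l - ((2 * d : ℕ) : ℝ) * q) -
            (1 + 1 / 1000) * σ * (2 * H + 1)) := by ring
      rw [e]
      have b1 : σ * K1 ≤ σ * H := by gcongr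
      have b2 : σ * 1 ≤ σ * l := by gcongr
      have b3 : σ * (2 * H + l) / 20 ≤ 2 * ((U.card : ℝ) - l - ((2 * d : ℕ) : ℝ) * q) -
            (1 + 1 / 1000) * σ * (2 * H + 1) := by nlinarith
      calc σ ^ 2 * q ^ 2 * (2 * H + l) / 20 = 1 * σ * q * (q * (σ * (2 * H + l) / 20)) := by ring
        _ ≤ _ := by
          apply mul_le_mul _ (mul_le_mul_of_nonneg_left b3 hqpos.le) (by positivity)
            (by positivity)
          gcongr
          norm_num
    · intro n hn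
      have := mem_Ico.mp hn
      have b1 : 2 * d * (q - 1) ≤ 2 * d * q := by gcongr; omega
      refine le_trans ?_ (hmax n (2 * d) (by omega) (by omega))
      exact_mod_cast card_le_card (sub_mono hUA _ _ _)
  have hlow := sum_le_sum hlowc
  rw [sum_const, nsmul_eq_mul] at hlow
  have hZc' : σ * l / 16 ≤ Z.card := hm.trans (by exact_mod_cast hZc)
  have hUc' : (U.card : ℝ) ≤ 2 * H + l := by
    have := card_le_card (hU.trans inter_subset_right)
    rw [Nat.card_Ico] at this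
    exact_mod_cast (by omega : U.card ≤ 2 * H + l)
  have hfin : σ * l / 16 * (σ ^ 2 * q ^ 2 * (2 * H + l) / 20) ≤
      q * (q * (ε * l * (2 * H + l))) := by
    calc σ * l / 16 * (σ ^ 2 * q ^ 2 * (2 * H + l) / 20)
        ≤ Z.card * (σ ^ 2 * q ^ 2 * (2 * H + l) / 20) := by gcongr
      _ ≤ q * (q * (ε * l * U.card)) := hlow.trans (hcorr.trans hup)
      _ ≤ _ := by gcongr
  have hX : (0 : ℝ) < q ^ 2 * l * (2 * H + l) := by positivity
  have : σ ^ 3 / 320 * (q ^ 2 * l * (2 * H + l)) ≤ ε * (q ^ 2 * l * (2 * H + l)) := by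
    nlinarith
  have := le_of_mul_le_mul_right this hX
  have : 0 < σ ^ 3 := by positivity
  linarith

end Pool.Agent.Lib.MP_ce1fc8_nt
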