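import Mathlib

set_option autoImplicit false

namespace Pool.Agent.Lib.MP_ce1fc8_nt

open Finset

lemma sum_mul_periodic (m p : ℕ) (hm : m ≠ 0) (hp : p ≠ 0) (hcop : Nat.Coprime m p)
    (F f : ℕ → ℝ) (hF : Function.Periodic F m) (hf : Function.Periodic f p) :
    ∑ n ∈ range (m * p), F n * f n = (∑ r ∈ range m, F r) * (∑ r ∈ range p, f r) := by
  rw [sum_mul_sum, ← sum_product']
  apply sum_bij (fun n _ => (n % m, n % p))
  · intro n _
    simp only [mem_product, mem_range]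
    exact ⟨Nat.mod_lt _ (Nat.pos_of_ne_zero hm), Nat.mod_lt _ (Nat.pos_of_ne_zero hp)⟩
  · intro a ha b hb h
    simp only [Prod.mk.injEq] at h
    have h1 : a ≡ b [MOD m * p] := (Nat.modEq_and_modEq_iff_modEq_mul hcop).mp ⟨h.1, h.2⟩
    exact Nat.ModEq.eq_of_lt_of_lt h1 (mem_range.mp ha) (mem_range.mp hb)
  · rintro ⟨r, s⟩ hrs
    simp only [mem_product, mem_range] at hrs
    refine ⟨Nat.chineseRemainder hcop r s,
      mem_range.mpr (Nat.chineseRemainder_lt_mul hcop r s hm hp), ?_⟩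
    have h1 := (Nat.chineseRemainder hcop r s).2
    simp only [Prod.mk.injEq]
    exact ⟨Eq.trans h1.1 (Nat.mod_eq_of_lt hrs.1), Eq.trans h1.2 (Nat.mod_eq_of_lt hrs.2)⟩
  · intro n _
    simp only
    rw [hF.map_mod_nat, hf.map_mod_nat]

lemma periodic_prod (P : Finset ℕ) (f : ℕ → ℕ → ℝ) (hf : ∀ p ∈ P, Function.Periodic (f p) p) :
    Function.Periodic (fun n => ∏ p ∈ P, f p n) (∏ p ∈ P, p) := by
  intro n
  apply prod_congr rfl
  intro p hp
  obtain ⟨c, hc⟩ := dvd_prod_of_mem (fun p => p) hp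
  have := (hf p hp).nat_mul c
  simp only [Nat.cast_id] at this
  rw [hc, mul_comm]
  exact this n

lemma sum_prod_periodic (P : Finset ℕ) (f : ℕ → ℕ → ℝ) :
    (∀ p ∈ P, p.Prime) → (∀ p ∈ P, Function.Periodic (f p) p) →
    ∑ n ∈ range (∏ p ∈ P, p), ∏ p ∈ P, f p n = ∏ p ∈ P, ∑ r ∈ range p, f p r := by
  classical
  induction P using Finset.induction_on with
  | empty => simp
  | insert p P hp ih =>
    intro hP hf
    have hP' : ∀ q ∈ P, q.Prime := fun q hq => hP q (mem_insert_of_mem hq)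
    have hf' : ∀ q ∈ P, Function.Periodic (f q) q := fun q hq => hf q (mem_insert_of_mem hq)
    have hpp := hP p (mem_insert_self _ _)
    simp only [prod_insert hp]
    rw [sum_mul_periodic p (∏ q ∈ P, q) hpp.ne_zero
      (prod_ne_zero_iff.mpr (fun q hq => (hP' q hq).ne_zero))
      (Nat.Coprime.prod_right (fun q hq => (Nat.coprime_primes hpp (hP' q hq)).mpr
        (fun h => hp (h ▸ hq))))
      (f p) _ (hf p (mem_insert_self _ _)) (periodic_prod P f hf'), ih hP' hf']

lemma periodic_sum_le (f : ℕ → ℝ) (m : ℕ) (hm : 0 < m) (hf : Function.Periodic f m)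
    (hb : ∀ n, |f n| ≤ 1) (X : ℕ) :
    ∑ n ∈ range X, f n ≤ X * ((∑ r ∈ range m, f r) / m) + 2 * m := by
  have hmr : (0 : ℝ) < m := by exact_mod_cast hm
  set c := (∑ r ∈ range m, f r) / m with hc
  have hc1 : |c| ≤ 1 := by
    rw [hc, abs_div, Nat.abs_cast, div_le_one hmr]
    refine (abs_sum_le_sum_abs _ _).trans ?_
    have := sum_le_sum (s := range m) (fun n _ => hb n)
    simpa using this
  induction X using Nat.strong_induction_on with
  | _ X ih =>
    by_cases hX : X < m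
    · have h1 : ∑ n ∈ range X, f n ≤ X := by
        have := sum_le_sum (s := range X) (fun n _ => (abs_le.mp (hb n)).2)
        simpa using this
      have h2 : (X : ℝ) ≤ m := by exact_mod_cast hX.le
      have h3 := (abs_le.mp hc1).1
      have h4 : (0 : ℝ) ≤ X := by positivity
      nlinarith
    · obtain ⟨Y, rfl⟩ : ∃ Y, X = m + Y := ⟨X - m, by omega⟩
      rw [sum_range_add]
      have h1 : ∑ x ∈ range Y, f (m + x) = ∑ x ∈ range Y, f x :=
        sum_congr rfl (fun x _ => by rw [add_comm]; exact hf x)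
      have h2 := ih Y (by omega)
      have h3 : ∑ r ∈ range m, f r = m * c := by rw [hc]; field_simp
      rw [h1, h3]
      push_cast
      linarith

/-- Sum over squarefree products of elements of `P` not exceeding `t`. -/
noncomputable def Gsum (h : ℕ → ℝ) (P : Finset ℕ) (t : ℕ) : ℝ :=
  ∑ D ∈ P.powerset.filter (fun D => ∏ p ∈ D, p ≤ t), ∏ p ∈ D, h p

lemma sieve_abstract (P : Finset ℕ) (hP : ∀ p ∈ P, p.Prime) (ψ : ℕ → ℕ → ℝ) (h : ℕ → ℝ)
    (hper : ∀ p ∈ P, Function.Periodic (ψ p) p) (hb : ∀ p ∈ P, ∀ n, |ψ p n| ≤ 1)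
    (h1 : ∀ p ∈ P, ∑ r ∈ range p, ψ p r = 0)
    (h2 : ∀ p ∈ P, ∑ r ∈ range p, ψ p r * ψ p r = p * h p)
    (X z : ℕ) (S : Finset ℕ) (hS : S ⊆ range X) (hSψ : ∀ n ∈ S, ∀ p ∈ P, ψ p n = h p) :
    (S.card : ℝ) * (Gsum h P z) ^ 2 ≤ X * Gsum h P z + 2 * (z : ℝ) ^ 4 := by
  classical
  set 𝒟 := P.powerset.filter (fun D => ∏ p ∈ D, p ≤ z) with h𝒟
  have hmem : ∀ D ∈ 𝒟, D ⊆ P ∧ ∏ p ∈ D, p ≤ z := by
    intro D hD
    simpa [h𝒟] using hD
  set F : ℕ → ℝ := fun n => ∑ D ∈ 𝒟, ∏ p ∈ D, ψ p n with hF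
  have hFS : ∀ n ∈ S, F n = Gsum h P z := by
    intro n hn
    apply sum_congr rfl
    intro D hD
    apply prod_congr rfl
    intro p hp
    exact hSψ n hn p ((hmem D hD).1 hp)
  have hL : (S.card : ℝ) * (Gsum h P z) ^ 2 ≤ ∑ n ∈ range X, F n ^ 2 := by
    calc (S.card : ℝ) * (Gsum h P z) ^ 2 = ∑ n ∈ S, F n ^ 2 := by
          rw [sum_congr rfl (fun n hn => by rw [hFS n hn]), sum_const, nsmul_eq_mul]
      _ ≤ _ := sum_le_sum_of_subset_of_nonneg hS (fun _ _ _ => by positivity)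
  refine hL.trans ?_
  have hpair : ∀ D ∈ 𝒟, ∀ D' ∈ 𝒟, ∑ n ∈ range X, (∏ p ∈ D, ψ p n) * (∏ p ∈ D', ψ p n) ≤
      X * (if D = D' then ∏ p ∈ D, h p else 0) + 2 * (z : ℝ) ^ 2 := by
    intro D hD D' hD'
    obtain ⟨hD1, hD2⟩ := hmem D hD
    obtain ⟨hD1', hD2'⟩ := hmem D' hD'
    have hU : D ∪ D' ⊆ P := union_subset hD1 hD1'
    set χ : ℕ → ℕ → ℝ := fun p n =>
      (if p ∈ D then ψ p n else 1) * (if p ∈ D' then ψ p n else 1) with hχ
    have e1 : ∀ n, (∏ p ∈ D, ψ p n) * (∏ p ∈ D', ψ p n) = ∏ p ∈ D ∪ D', χ p n := by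
      intro n
      simp only [hχ]
      rw [prod_mul_distrib, prod_ite_mem, prod_ite_mem, union_inter_cancel_left,
        union_inter_cancel_right]
    have hχper : ∀ p ∈ D ∪ D', Function.Periodic (χ p) p := by
      intro p hp n
      simp only [hχ]
      rw [hper p (hU hp) n]
    have hχb : ∀ n, |∏ p ∈ D ∪ D', χ p n| ≤ 1 := by
      intro n
      rw [abs_prod]
      apply prod_le_one (fun _ _ => abs_nonneg _)
      intro p hp
      have := hb p (hU hp) n
      simp only [hχ]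
      rw [abs_mul]
      apply mul_le_one₀
      · split_ifs <;> simp [this]
      · exact abs_nonneg _
      · split_ifs <;> simp [this]
    have hmpos : 0 < ∏ p ∈ D ∪ D', p := prod_pos (fun p hp => (hP p (hU hp)).pos)
    have hm : ∏ p ∈ D ∪ D', p ≤ z ^ 2 := by
      have a1 := prod_union_inter (s₁ := D) (s₂ := D') (f := fun p => p)
      have a2 : 0 < ∏ p ∈ D ∩ D', p :=
        prod_pos (fun p hp => (hP p (hD1 (mem_inter.mp hp).1)).pos)
      calc ∏ p ∈ D ∪ D', p ≤ (∏ p ∈ D ∪ D', p) * ∏ p ∈ D ∩ D', p := Nat.le_mul_of_pos_right _ a2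
        _ = _ := a1
        _ ≤ z * z := Nat.mul_le_mul hD2 hD2'
        _ = z ^ 2 := by ring
    have hm' : ((∏ p ∈ D ∪ D', p : ℕ) : ℝ) ≤ (z : ℝ) ^ 2 := by exact_mod_cast hm
    have a3 := periodic_sum_le _ _ hmpos (periodic_prod (D ∪ D') χ hχper) hχb X
    rw [sum_prod_periodic (D ∪ D') χ (fun p hp => hP p (hU hp)) hχper] at a3
    have a4 : (∏ p ∈ D ∪ D', ∑ r ∈ range p, χ p r) / ((∏ p ∈ D ∪ D', p : ℕ) : ℝ) =
        if D = D' then ∏ p ∈ D, h p else 0 := by
      split_ifs with hDD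
      · subst hDD
        have hne : ((∏ p ∈ D ∪ D, p : ℕ) : ℝ) ≠ 0 := by exact_mod_cast hmpos.ne'
        rw [div_eq_iff hne, union_self]
        push_cast
        rw [← prod_mul_distrib]
        apply prod_congr rfl
        intro p hp
        simp only [hχ, if_pos hp]
        rw [h2 p (hD1 hp), mul_comm]
      · have : ∃ p ∈ D ∪ D', ∑ r ∈ range p, χ p r = 0 := by
          by_contra hc
          push Not at hc
          apply hDD
          ext p
          constructor
          · intro hp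
            by_contra hp'
            apply hc p (mem_union_left _ hp)
            simp only [hχ, if_pos hp, if_neg hp', mul_one]
            exact h1 p (hD1 hp)
          · intro hp
            by_contra hp'
            apply hc p (mem_union_right _ hp)
            simp only [hχ, if_pos hp, if_neg hp', one_mul]
            exact h1 p (hD1' hp)
        obtain ⟨p, hp, hp0⟩ := this
        rw [prod_eq_zero hp hp0, zero_div]
    rw [a4] at a3
    simp only [e1]
    linarith
  have hcard : (𝒟.card : ℝ) ≤ z := by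
    have : 𝒟.card ≤ (Icc 1 z).card := by
      apply card_le_card_of_injOn (fun D => ∏ p ∈ D, p)
      · intro D hD
        obtain ⟨hD1, hD2⟩ := hmem D hD
        simp only [coe_Icc, Set.mem_Icc]
        exact ⟨prod_pos (fun p hp => (hP p (hD1 hp)).pos), hD2⟩
      · intro D hD D' hD' hDD
        have a1 := Nat.primeFactors_prod (s := D) (fun p hp => hP p ((hmem D hD).1 hp))
        have a2 := Nat.primeFactors_prod (s := D') (fun p hp => hP p ((hmem D' hD').1 hp))
        simp only at hDD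
        rw [← a1, ← a2, hDD]
    rw [Nat.card_Icc] at this
    exact_mod_cast (by omega : 𝒟.card ≤ z)
  calc ∑ n ∈ range X, F n ^ 2
      = ∑ D ∈ 𝒟, ∑ D' ∈ 𝒟, ∑ n ∈ range X, (∏ p ∈ D, ψ p n) * (∏ p ∈ D', ψ p n) := by
        simp only [hF, sq, sum_mul_sum]
        rw [sum_comm]
        apply sum_congr rfl
        intro D _
        rw [sum_comm]
    _ ≤ ∑ D ∈ 𝒟, ∑ D' ∈ 𝒟, (X * (if D = D' then ∏ p ∈ D, h p else 0) + 2 * (z : ℝ) ^ 2) :=
        sum_le_sum (fun D hD => sum_le_sum (fun D' hD' => hpair D hD D' hD'))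
    _ = X * Gsum h P z + 𝒟.card * (𝒟.card * (2 * (z : ℝ) ^ 2)) := by
        simp only [sum_add_distrib, sum_const, nsmul_eq_mul, ← mul_sum]
        congr 2
        apply sum_congr rfl
        intro D hD
        rw [sum_ite_eq, if_pos hD]
    _ ≤ X * Gsum h P z + z * (z * (2 * (z : ℝ) ^ 2)) := by gcongr
    _ = _ := by ring

end Pool.Agent.Lib.MP_ce1fc8_nt
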