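import Pool.Agent.Lib.MP_ce1fc8_nt.Sieve1

set_option autoImplicit false

namespace Pool.Agent.Lib.MP_ce1fc8_nt

open Finset ArithmeticFunction

/-- Sum of `f` over the integers in `[1, t]` all of whose prime factors lie in `P`. -/
noncomputable def Hsum (f : ℕ → ℝ) (P : Finset ℕ) (t : ℕ) : ℝ :=
  ∑ n ∈ (Icc 1 t).filter (fun n => n.primeFactors ⊆ P), f n

lemma Hsum_nonneg (f : ℕ → ℝ) (hf : ∀ n, 0 ≤ f n) (P : Finset ℕ) (t : ℕ) : 0 ≤ Hsum f P t :=
  sum_nonneg (fun n _ => hf n)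

lemma Hsum_mono (f : ℕ → ℝ) (hf : ∀ n, 0 ≤ f n) {P P' : Finset ℕ} (hP : P ⊆ P') {s t : ℕ}
    (hst : s ≤ t) : Hsum f P s ≤ Hsum f P' t := by
  apply sum_le_sum_of_subset_of_nonneg _ (fun n _ _ => hf n)
  intro n hn
  simp only [mem_filter, mem_Icc] at hn ⊢
  exact ⟨⟨hn.1.1, hn.1.2.trans hst⟩, hn.2.trans hP⟩

lemma Hsum_step (f : ℕ → ℝ) (hf : ∀ n, 0 ≤ f n) (p : ℕ) (hp : p.Prime)
    (hmul : ∀ n, n ≠ 0 → f (p * n) = f p * f n) (P : Finset ℕ) (t : ℕ) :
    Hsum f (insert p P) t ≤ Hsum f P t + f p * Hsum f (insert p P) (t / p) := by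
  classical
  unfold Hsum
  rw [← sum_filter_add_sum_filter_not _ (fun n => p ∣ n), add_comm]
  apply add_le_add
  · apply sum_le_sum_of_subset_of_nonneg _ (fun n _ _ => hf n)
    intro n hn
    simp only [mem_filter] at hn ⊢
    refine ⟨hn.1.1, ?_⟩
    intro r hr
    rcases mem_insert.mp (hn.1.2 hr) with h | h
    · exact absurd (h ▸ Nat.dvd_of_mem_primeFactors hr) hn.2
    · exact h
  · rw [mul_sum]
    have h1 : ∑ n ∈ (Icc 1 (t / p)).filter (fun n => n.primeFactors ⊆ insert p P), f p * f n =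
        ∑ n ∈ ((Icc 1 (t / p)).filter (fun n => n.primeFactors ⊆ insert p P)).image
          (fun n => p * n), f n := by
      rw [sum_image (fun a _ b _ h => Nat.eq_of_mul_eq_mul_left hp.pos h)]
      apply sum_congr rfl
      intro n hn
      have := (mem_Icc.mp (mem_filter.mp hn).1).1
      rw [hmul n (by omega)]
    rw [h1]
    apply sum_le_sum_of_subset_of_nonneg _ (fun n _ _ => hf n)
    intro n hn
    simp only [mem_filter, mem_Icc, mem_image] at hn ⊢
    obtain ⟨⟨⟨h2, h3⟩, h4⟩, c, rfl⟩ := hn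
    have hc : c ≠ 0 := by
      rintro rfl
      simp at h2
    refine ⟨c, ⟨⟨by omega, ?_⟩, ?_⟩, rfl⟩
    · rw [Nat.le_div_iff_mul_le hp.pos, mul_comm]
      exact h3
    · exact (Nat.primeFactors_mono (Dvd.intro_left _ rfl) (by omega)).trans h4

lemma Hsum_insert_le (f : ℕ → ℝ) (hf : ∀ n, 0 ≤ f n) (p : ℕ) (hp : p.Prime)
    (hmul : ∀ n, n ≠ 0 → f (p * n) = f p * f n) (hfp : f p < 1) (P : Finset ℕ) (t : ℕ) :
    Hsum f (insert p P) t ≤ (1 - f p)⁻¹ * Hsum f P t := by
  have h1 := Hsum_step f hf p hp hmul P t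
  have h2 := Hsum_mono f hf (subset_refl (insert p P)) (Nat.div_le_self t p)
  have h3 := mul_le_mul_of_nonneg_left h2 (hf p)
  rw [inv_mul_eq_div, le_div_iff₀ (by linarith)]
  linarith

lemma Hsum_le_Gsum (f h : ℕ → ℝ) (hf : ∀ n, 0 ≤ f n) (hf1 : f 1 = 1)
    (hmul : ∀ p n, p ≠ 0 → n ≠ 0 → f (p * n) = f p * f n) (P : Finset ℕ) :
    (∀ p ∈ P, p.Prime ∧ f p < 1 ∧ h p = f p * (1 - f p)⁻¹) → ∀ t, Hsum f P t ≤ Gsum h P t := by
  classical
  induction P using Finset.induction_on with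
  | empty =>
    intro _ t
    unfold Hsum Gsum
    rcases Nat.eq_zero_or_pos t with rfl | ht
    · rw [powerset_empty, filter_singleton, if_neg (by simp)]
      simp
    · have h1 : (Icc 1 t).filter (fun n => n.primeFactors ⊆ ∅) = {1} := by
        ext n
        simp only [mem_filter, mem_Icc, subset_empty, Nat.primeFactors_eq_empty, mem_singleton]
        omega
      have h2 : (∅ : Finset ℕ).powerset.filter (fun D => ∏ p ∈ D, p ≤ t) = {∅} := by
        rw [powerset_empty, filter_singleton, if_pos (by rw [prod_empty]; exact ht)]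
      rw [h1, h2]
      simp [hf1]
  | insert p P hp ih =>
    intro hP t
    obtain ⟨hpp, hfp, hhp⟩ := hP p (mem_insert_self _ _)
    have ih' := ih (fun q hq => hP q (mem_insert_of_mem hq))
    have h1 := Hsum_step f hf p hpp (fun n hn => hmul p n hpp.ne_zero hn) P t
    have h2 := Hsum_insert_le f hf p hpp (fun n hn => hmul p n hpp.ne_zero hn) hfp P (t / p)
    have h3 : Gsum h (insert p P) t = Gsum h P t + h p * Gsum h P (t / p) := by
      unfold Gsum
      rw [sum_filter, sum_filter, sum_filter, sum_powerset_insert hp, mul_sum]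
      congr 1
      apply sum_congr rfl
      intro D hD
      have hpD : p ∉ D := fun hc => hp (mem_powerset.mp hD hc)
      rw [prod_insert hpD, prod_insert hpD]
      by_cases hc : p * ∏ q ∈ D, q ≤ t
      · rw [if_pos hc, if_pos (by rw [Nat.le_div_iff_mul_le hpp.pos, mul_comm]; exact hc)]
      · rw [if_neg hc, if_neg (by rw [Nat.le_div_iff_mul_le hpp.pos, mul_comm]; exact hc),
          mul_zero]
    have h4 := mul_le_mul_of_nonneg_left h2 (hf p)
    have h5 : 0 ≤ h p := by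
      rw [hhp]
      exact mul_nonneg (hf p) (inv_nonneg.mpr (by linarith))
    have h6 := mul_le_mul_of_nonneg_left (ih' (t / p)) h5
    have h7 := ih' t
    rw [h3]
    rw [← mul_assoc, ← hhp] at h4
    linarith

lemma sum_divisors_pow_le (k : ℕ) (n : ℕ) :
    ∑ a ∈ n.divisors, k ^ cardFactors a ≤ (k + 1) ^ cardFactors n := by
  induction n using induction_on_primes with
  | zero => simp
  | one => simp
  | prime_mul p m hp ih =>
    rcases Nat.eq_zero_or_pos m with rfl | hm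
    · simp
    have hsub : (p * m).divisors ⊆ m.divisors ∪ m.divisors.image (fun a => p * a) := by
      intro a ha
      have ha' := Nat.dvd_of_mem_divisors ha
      simp only [mem_union, mem_image, Nat.mem_divisors]
      by_cases hpa : p ∣ a
      · obtain ⟨c, rfl⟩ := hpa
        exact Or.inr ⟨c, ⟨Nat.dvd_of_mul_dvd_mul_left hp.pos ha', hm.ne'⟩, rfl⟩
      · exact Or.inl ⟨((Nat.Prime.coprime_iff_not_dvd hp).mpr hpa).symm.dvd_of_dvd_mul_left ha',
          hm.ne'⟩
    refine (sum_le_sum_of_subset hsub).trans ?_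
    have h1 := sum_union_inter (s₁ := m.divisors) (s₂ := m.divisors.image (fun a => p * a))
      (f := fun a => k ^ cardFactors a)
    have h2 : ∑ a ∈ m.divisors.image (fun a => p * a), k ^ cardFactors a =
        k * ∑ a ∈ m.divisors, k ^ cardFactors a := by
      rw [sum_image (fun a _ b _ h => Nat.eq_of_mul_eq_mul_left hp.pos h), mul_sum]
      apply sum_congr rfl
      intro a ha
      rw [cardFactors_mul hp.ne_zero (Nat.pos_of_mem_divisors ha).ne', cardFactors_apply_prime hp,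
        pow_add, pow_one]
    rw [cardFactors_mul hp.ne_zero hm.ne', cardFactors_apply_prime hp, pow_add, pow_one]
    have h3 := Nat.mul_le_mul_left (k + 1) ih
    rw [h2] at h1
    rw [add_mul, one_mul] at h3
    omega

/-- The completely multiplicative function `k ^ Ω(n) / n`. -/
noncomputable def fk (k n : ℕ) : ℝ := (k : ℝ) ^ cardFactors n / n

lemma fk_nonneg (k n : ℕ) : 0 ≤ fk k n := by unfold fk; positivity

lemma fk_one (k : ℕ) : fk k 1 = 1 := by simp [fk]

lemma fk_mul (k p n : ℕ) (hp : p ≠ 0) (hn : n ≠ 0) : fk k (p * n) = fk k p * fk k n := by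
  unfold fk
  rw [cardFactors_mul hp hn, pow_add]
  push_cast
  ring

lemma fk_prime (k p : ℕ) (hp : p.Prime) : fk k p = k / p := by
  unfold fk
  rw [cardFactors_apply_prime hp, pow_one]

lemma Hsum_mul_le (k : ℕ) (P : Finset ℕ) (a b : ℕ) :
    Hsum (fk k) P a * Hsum (fk 1) P b ≤ Hsum (fk (k + 1)) P (a * b) := by
  classical
  unfold Hsum
  rw [sum_mul_sum, ← sum_product']
  rw [← sum_fiberwise_of_maps_to (t := (Icc 1 (a * b)).filter (fun n => n.primeFactors ⊆ P))
    (g := fun x : ℕ × ℕ => x.1 * x.2)]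
  · apply sum_le_sum
    intro n hn
    have hn1 := (mem_Icc.mp (mem_filter.mp hn).1).1
    set S := (((Icc 1 a).filter (fun n => n.primeFactors ⊆ P)) ×ˢ
      ((Icc 1 b).filter (fun n => n.primeFactors ⊆ P))).filter (fun x => x.1 * x.2 = n) with hS
    have h1 : ∀ x ∈ S, fk k x.1 * fk 1 x.2 = ((k ^ cardFactors x.1 : ℕ) : ℝ) / n := by
      intro x hx
      rw [← (mem_filter.mp hx).2]
      unfold fk
      push_cast
      simp only [one_pow]
      ring
    rw [sum_congr rfl h1, ← sum_div]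
    unfold fk
    apply div_le_div_of_nonneg_right _ (by positivity)
    have h2 : ∑ x ∈ S, k ^ cardFactors x.1 ≤ (k + 1) ^ cardFactors n := by
      refine le_trans ?_ (sum_divisors_pow_le k n)
      have h3 : Set.InjOn Prod.fst (S : Set (ℕ × ℕ)) := by
        intro x hx y hy hxy
        have a1 := (mem_filter.mp hx).2
        have a2 := (mem_filter.mp hy).2
        have a3 : x.1 ≠ 0 := by
          rintro h
          rw [h] at a1
          omega
        apply Prod.ext hxy
        rw [← hxy, ← a1] at a2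
        exact (Nat.eq_of_mul_eq_mul_left (Nat.pos_of_ne_zero a3) a2).symm
      rw [← sum_image (f := fun a => k ^ cardFactors a) h3]
      apply sum_le_sum_of_subset
      intro c hc
      obtain ⟨x, hx, rfl⟩ := mem_image.mp hc
      exact Nat.mem_divisors.mpr ⟨Dvd.intro _ (mem_filter.mp hx).2, by omega⟩
    exact_mod_cast h2
  · intro x hx
    simp only [mem_product, mem_filter, mem_Icc] at hx ⊢
    obtain ⟨⟨⟨h1, h2⟩, h3⟩, ⟨h4, h5⟩, h6⟩ := hx
    refine ⟨⟨Nat.mul_pos h1 h4, Nat.mul_le_mul h2 h5⟩, ?_⟩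
    rw [Nat.primeFactors_mul (by omega) (by omega)]
    exact union_subset h3 h6

lemma Hsum_pow_le (P : Finset ℕ) (y : ℕ) (k : ℕ) :
    Hsum (fk 1) P y ^ k ≤ Hsum (fk k) P (y ^ k) := by
  induction k with
  | zero =>
    unfold Hsum
    simp only [pow_zero, Icc_self]
    rw [filter_singleton, if_pos (by simp)]
    simp [fk_one]
  | succ k ih =>
    rw [pow_succ, pow_succ]
    exact (mul_le_mul_of_nonneg_right ih (Hsum_nonneg _ (fk_nonneg 1) _ _)).trans
      (Hsum_mul_le k P _ _)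

lemma Hsum_union_le (P : Finset ℕ) (y : ℕ) (R : Finset ℕ) : (∀ p ∈ R, p.Prime) →
    Hsum (fk 1) (R ∪ P) y ≤ (∏ p ∈ R, (1 - 1 / (p : ℝ))⁻¹) * Hsum (fk 1) P y := by
  classical
  induction R using Finset.induction_on with
  | empty => simp
  | insert p R hp ih =>
    intro hR
    have hpp := hR p (mem_insert_self _ _)
    have ih' := ih (fun q hq => hR q (mem_insert_of_mem hq))
    have hp2 : (2 : ℝ) ≤ p := by exact_mod_cast hpp.two_le
    have hfp : fk 1 p < 1 := by
      rw [fk_prime 1 p hpp, div_lt_one (by linarith)]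
      push_cast
      linarith
    have h1 := Hsum_insert_le (fk 1) (fk_nonneg 1) p hpp
      (fun n hn => fk_mul 1 p n hpp.ne_zero hn) hfp (R ∪ P) y
    rw [insert_union, prod_insert hp, mul_assoc]
    refine h1.trans ?_
    rw [fk_prime 1 p hpp] at hfp ⊢
    simp only [Nat.cast_one] at hfp ⊢
    exact mul_le_mul_of_nonneg_left ih' (inv_nonneg.mpr (by linarith))

lemma log_le_Hsum (P : Finset ℕ) (y : ℕ) (hP : ∀ p, p.Prime → p ≤ y → p ∈ P) :
    Real.log ((y : ℝ) + 1) ≤ Hsum (fk 1) P y := by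
  have h1 := log_add_one_le_harmonic y
  rw [harmonic_eq_sum_Icc] at h1
  push_cast at h1
  refine h1.trans (le_of_eq ?_)
  unfold Hsum
  rw [filter_true_of_mem]
  · apply sum_congr rfl
    intro n _
    simp [fk]
  · intro n hn p hp
    exact hP p (Nat.prime_of_mem_primeFactors hp)
      ((Nat.le_of_mem_primeFactors hp).trans (mem_Icc.mp hn).2)

/-- The factor `∏_{p ∣ Q} (1 - 1/p)⁻¹`. -/
noncomputable def eul (Q : ℕ) : ℝ := ∏ p ∈ Q.primeFactors, (1 - 1 / (p : ℝ))⁻¹

lemma one_le_eul_factor (p : ℕ) (hp : p.Prime) : 1 ≤ (1 - 1 / (p : ℝ))⁻¹ := by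
  have hp2 : (2 : ℝ) ≤ p := by exact_mod_cast hp.two_le
  have h1 : 1 / (p : ℝ) ≤ 1 / 2 := by gcongr
  have h2 : 0 < 1 / (p : ℝ) := by positivity
  rw [one_le_inv₀ (by linarith)]
  linarith

lemma one_le_eul (Q : ℕ) : 1 ≤ eul Q := by
  unfold eul
  exact Finset.one_le_prod (fun p hp => one_le_eul_factor p (Nat.prime_of_mem_primeFactors hp))

lemma Gsum_lower (k Q y : ℕ) (hQ : Q ≠ 0) (hk : 1 ≤ k)
    (hkQ : ∀ p, p.Prime → ¬ p ∣ Q → 2 * k ≤ p) :
    (Real.log ((y : ℝ) + 1) / eul Q) ^ k ≤ Gsum (fun p => (k : ℝ) / ((p : ℝ) - k))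
      ((range (y ^ k + 1)).filter (fun p => p.Prime ∧ ¬ p ∣ Q)) (y ^ k) := by
  set P := (range (y ^ k + 1)).filter (fun p => p.Prime ∧ ¬ p ∣ Q) with hP
  have hyk : y ≤ y ^ k := Nat.le_self_pow (by omega) y
  have h1 := log_le_Hsum (Q.primeFactors ∪ P) y (by
    intro p hp hpy
    by_cases hc : p ∣ Q
    · exact mem_union_left _ (Nat.mem_primeFactors.mpr ⟨hp, hc, hQ⟩)
    · exact mem_union_right _ (mem_filter.mpr ⟨mem_range.mpr (by omega), hp, hc⟩))
  have h2 := Hsum_union_le P y Q.primeFactors (fun p hp => Nat.prime_of_mem_primeFactors hp)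
  have h3 : Real.log ((y : ℝ) + 1) / eul Q ≤ Hsum (fk 1) P y := by
    rw [div_le_iff₀ (lt_of_lt_of_le one_pos (one_le_eul Q)), mul_comm]
    exact h1.trans h2
  have h4 : 0 ≤ Real.log ((y : ℝ) + 1) / eul Q := by
    apply div_nonneg (Real.log_nonneg (by simp)) (le_trans zero_le_one (one_le_eul Q))
  refine (pow_le_pow_left₀ h4 h3 k).trans ((Hsum_pow_le P y k).trans ?_)
  apply Hsum_le_Gsum (fk k) _ (fk_nonneg k) (fk_one k) (fk_mul k)
  intro p hp
  obtain ⟨hpp, hpQ⟩ := (mem_filter.mp hp).2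
  have h5 : (2 * k : ℝ) ≤ p := by exact_mod_cast hkQ p hpp hpQ
  have h6 : (1 : ℝ) ≤ k := by exact_mod_cast hk
  refine ⟨hpp, ?_, ?_⟩
  · rw [fk_prime k p hpp, div_lt_one (by linarith)]
    linarith
  · rw [fk_prime k p hpp]
    have : (p : ℝ) - k ≠ 0 := by linarith
    have : (p : ℝ) ≠ 0 := by linarith
    field_simp

end Pool.Agent.Lib.MP_ce1fc8_nt
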