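import Pool.Agent.Lib.MP_ce1fc8_nt.Sieve2
import Pool.Agent.Lib.MP_ce1fc8_nt.Basic

set_option autoImplicit false

namespace Pool.Agent.Lib.MP_ce1fc8_nt

open Finset

lemma card_roots (Hs : Finset ℕ) (p : ℕ) (hp : 0 < p)
    (hinj : ∀ h ∈ Hs, ∀ h' ∈ Hs, h ≡ h' [MOD p] → h = h') :
    ((range p).filter (fun r => ∃ h ∈ Hs, p ∣ r + h)).card = Hs.card := by
  have hdvd : ∀ h, p ∣ (p - h % p) % p + h := by
    intro h
    have h1 : (p - h % p) % p + h ≡ (p - h % p) + h % p [MOD p] :=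
      Nat.ModEq.add (Nat.mod_modEq _ _) (Nat.mod_modEq _ _).symm
    have h2 : p - h % p + h % p = p := Nat.sub_add_cancel (Nat.mod_lt _ hp).le
    rw [h2] at h1
    exact (Nat.modEq_zero_iff_dvd.mp (h1.trans (Nat.modEq_zero_iff_dvd.mpr dvd_rfl)))
  symm
  apply card_bij (fun h _ => (p - h % p) % p)
  · intro h hh
    exact mem_filter.mpr ⟨mem_range.mpr (Nat.mod_lt _ hp), h, hh, hdvd h⟩
  · intro h hh h' hh' e
    apply hinj h hh h' hh'
    have h1 := Nat.modEq_zero_iff_dvd.mpr (hdvd h)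
    have h2 := Nat.modEq_zero_iff_dvd.mpr (hdvd h')
    rw [← e] at h2
    exact Nat.ModEq.add_left_cancel' _ (h1.trans h2.symm)
  · intro r hr
    obtain ⟨hr1, h, hh, hr2⟩ := mem_filter.mp hr
    refine ⟨h, hh, ?_⟩
    have h1 := Nat.modEq_zero_iff_dvd.mpr (hdvd h)
    have h2 := Nat.modEq_zero_iff_dvd.mpr hr2
    exact Nat.ModEq.eq_of_lt_of_lt (Nat.ModEq.add_right_cancel' _ (h1.trans h2.symm))
      (Nat.mod_lt _ hp) (mem_range.mp hr1)

theorem tuple_bound (Hs : Finset ℕ) (k Q y X : ℕ) (hk : 1 ≤ k) (hcard : Hs.card = k)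
    (hQ : Q ≠ 0) (hy : 1 ≤ y)
    (hkQ : ∀ p, p.Prime → ¬ p ∣ Q → 2 * k ≤ p ∧ ∀ h ∈ Hs, ∀ h' ∈ Hs, h ≡ h' [MOD p] → h = h')
    (E : Finset ℕ) (hE : E ⊆ range X) (hEp : ∀ n ∈ E, ∀ h ∈ Hs, (n + h).Prime) :
    (E.card : ℝ) ≤ eul Q ^ k * (X / Real.log ((y : ℝ) + 1) ^ k + 4 * ((y : ℝ) ^ k) ^ 4) := by
  classical
  set z := y ^ k with hz
  have hz1 : 1 ≤ z := Nat.one_le_pow _ _ hy
  set P := (range (z + 1)).filter (fun p => p.Prime ∧ ¬ p ∣ Q) with hP
  set hh : ℕ → ℝ := fun p => (k : ℝ) / ((p : ℝ) - k) with hhh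
  have hk' : (1 : ℝ) ≤ k := by exact_mod_cast hk
  have hPp : ∀ p ∈ P, p.Prime := fun p hp => (mem_filter.mp hp).2.1
  have hPk : ∀ p ∈ P, (2 * k : ℝ) ≤ p := fun p hp => by
    exact_mod_cast (hkQ p (hPp p hp) (mem_filter.mp hp).2.2).1
  have hcount : ∀ p ∈ P, ∀ a b : ℝ, ∑ r ∈ range p, (if ∃ h ∈ Hs, p ∣ r + h then a else b) =
      k * a + ((p : ℝ) - k) * b := by
    intro p hp a b
    have h1 := card_roots Hs p (hPp p hp).pos (hkQ p (hPp p hp) (mem_filter.mp hp).2.2).2
    have h2 := card_filter_add_card_filter_not (s := range p) (fun r => ∃ h ∈ Hs, p ∣ r + h)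
    rw [h1, hcard, card_range] at h2
    have h3 : (((range p).filter (fun r => ¬ ∃ h ∈ Hs, p ∣ r + h)).card : ℝ) = p - k := by
      have h4 := congrArg (Nat.cast : ℕ → ℝ) h2
      push_cast at h4
      linarith
    rw [sum_ite, sum_const, sum_const, nsmul_eq_mul, nsmul_eq_mul, h1, hcard, h3]
  have hmain := sieve_abstract P hPp (fun p n => if ∃ h ∈ Hs, p ∣ n + h then -1 else hh p) hh
    (by
      intro p _ n
      have : ∀ h, p ∣ n + p + h ↔ p ∣ n + h := by
        intro h
        rw [add_right_comm]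
        exact (Nat.dvd_add_iff_left (dvd_refl p)).symm
      simp only [this])
    (by
      intro p hp n
      have := hPk p hp
      split_ifs
      · simp
      · simp only [hhh]
        rw [abs_of_nonneg (div_nonneg (by linarith) (by linarith)), div_le_one (by linarith)]
        linarith)
    (by
      intro p hp
      have := hPk p hp
      rw [hcount p hp]
      simp only [hhh]
      have : (p : ℝ) - k ≠ 0 := by linarith
      field_simp
      ring)
    (by
      intro p hp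
      have := hPk p hp
      have e : ∀ r, (if ∃ h ∈ Hs, p ∣ r + h then (-1 : ℝ) else hh p) *
          (if ∃ h ∈ Hs, p ∣ r + h then (-1 : ℝ) else hh p) =
          if ∃ h ∈ Hs, p ∣ r + h then (1 : ℝ) else hh p * hh p := by
        intro r
        split_ifs <;> simp
      simp only [e]
      rw [hcount p hp]
      simp only [hhh]
      have : (p : ℝ) - k ≠ 0 := by linarith
      field_simp
      ring)
    X z (E.filter (fun n => z < n)) ((filter_subset _ _).trans hE)
    (by
      intro n hn p hp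
      obtain ⟨hn1, hn2⟩ := mem_filter.mp hn
      rw [if_neg]
      rintro ⟨h, hh1, hh2⟩
      have h1 := (Nat.prime_dvd_prime_iff_eq (hPp p hp) (hEp n hn1 h hh1)).mp hh2
      have h2 := mem_range.mp (mem_filter.mp hp).1
      omega)
  have hG1 := Gsum_lower k Q y hQ hk (fun p hp hpQ => (hkQ p hp hpQ).1)
  rw [← hz, ← hP, ← hhh] at hG1
  have hG2 : 1 ≤ Gsum hh P z := by
    unfold Gsum
    have h1 : (∅ : Finset ℕ) ∈ P.powerset.filter (fun D => ∏ p ∈ D, p ≤ z) := by
      simp [hz1]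
    have h2 := single_le_sum (f := fun D : Finset ℕ => ∏ p ∈ D, hh p) (fun D hD => by
      apply prod_nonneg
      intro p hp
      have := hPk p (mem_powerset.mp (mem_filter.mp hD).1 hp)
      exact div_nonneg (by linarith) (by linarith)) h1
    simpa using h2
  set G := Gsum hh P z with hG
  have hlog : 0 < Real.log ((y : ℝ) + 1) := by
    apply Real.log_pos
    have : (1 : ℝ) ≤ y := by exact_mod_cast hy
    linarith
  have he1 := one_le_eul Q
  have hek : 1 ≤ eul Q ^ k := one_le_pow₀ he1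
  have hz' : (1 : ℝ) ≤ z := by exact_mod_cast hz1
  have h1 : ((E.filter (fun n => z < n)).card : ℝ) ≤ X / G + 2 * (z : ℝ) ^ 4 := by
    have h2 : ((E.filter (fun n => z < n)).card : ℝ) * G ^ 2 ≤ (X / G + 2 * (z : ℝ) ^ 4) * G ^ 2 := by
      refine hmain.trans ?_
      have h3 : 1 ≤ G ^ 2 := one_le_pow₀ hG2
      have h4 : (X / G + 2 * (z : ℝ) ^ 4) * G ^ 2 = X * G + 2 * (z : ℝ) ^ 4 * G ^ 2 := by
        field_simp
      rw [h4]
      have h5 : 2 * (z : ℝ) ^ 4 * 1 ≤ 2 * (z : ℝ) ^ 4 * G ^ 2 := by gcongr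
      linarith
    exact le_of_mul_le_mul_right h2 (by positivity)
  have h2 : (X : ℝ) / G ≤ eul Q ^ k * (X / Real.log ((y : ℝ) + 1) ^ k) := by
    calc (X : ℝ) / G ≤ X / (Real.log ((y : ℝ) + 1) / eul Q) ^ k := by
          apply div_le_div_of_nonneg_left (by positivity) (by positivity) hG1
      _ = _ := by rw [div_pow]; field_simp
  have h3 : E.card ≤ (E.filter (fun n => z < n)).card + (z + 1) := by
    have hsub : E ⊆ E.filter (fun n => z < n) ∪ range (z + 1) := by
      intro n hn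
      simp only [mem_union, mem_filter, mem_range]
      by_cases hc : z < n
      · exact Or.inl ⟨hn, hc⟩
      · exact Or.inr (by omega)
    have := (card_le_card hsub).trans (card_union_le _ _)
    rwa [card_range] at this
  have h4 : (E.card : ℝ) ≤ (E.filter (fun n => z < n)).card + (z + 1) := by exact_mod_cast h3
  have h5 : (z : ℝ) ≤ (z : ℝ) ^ 4 := le_self_pow₀ hz' (by norm_num)
  have h6 : ((y : ℝ) ^ k) = z := by rw [hz]; push_cast; ring
  rw [h6, mul_add]
  have h7 : 1 * (4 * (z : ℝ) ^ 4) ≤ eul Q ^ k * (4 * (z : ℝ) ^ 4) := by gcongr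
  linarith

lemma eul_mul_le (a b : ℕ) (ha : a ≠ 0) (hb : b ≠ 0) : eul (a * b) ≤ eul a * eul b := by
  unfold eul
  rw [Nat.primeFactors_mul ha hb, ← prod_union_inter]
  apply le_mul_of_one_le_right
  · apply prod_nonneg
    intro p hp
    refine le_trans zero_le_one (one_le_eul_factor p ?_)
    rcases mem_union.mp hp with h | h <;> exact Nat.prime_of_mem_primeFactors h
  · exact Finset.one_le_prod
      (fun p hp => one_le_eul_factor p (Nat.prime_of_mem_primeFactors (mem_inter.mp hp).1))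

lemma eul_prod_le (S : Finset ℕ) (f : ℕ → ℕ) : (∀ i ∈ S, f i ≠ 0) →
    eul (∏ i ∈ S, f i) ≤ ∏ i ∈ S, eul (f i) := by
  classical
  induction S using Finset.induction_on with
  | empty => simp [eul]
  | insert i S hi ih =>
    intro hf
    have hf' : ∀ j ∈ S, f j ≠ 0 := fun j hj => hf j (mem_insert_of_mem hj)
    rw [prod_insert hi, prod_insert hi]
    refine (eul_mul_le _ _ (hf i (mem_insert_self _ _)) (prod_ne_zero_iff.mpr hf')).trans ?_
    exact mul_le_mul_of_nonneg_left (ih hf') (le_trans zero_le_one (one_le_eul _))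

lemma eul_pow_le (A : ℕ) : ∃ C : ℝ, 0 < C ∧ ∀ n : ℕ, n ≠ 0 →
    eul n ^ A ≤ C * ∑ e ∈ n.divisors, 1 / Real.sqrt e := by
  classical
  refine ⟨(2 ^ A) ^ (4 * A ^ 2), by positivity, ?_⟩
  intro n hn
  have h1 : ∀ p ∈ n.primeFactors, ((1 - 1 / (p : ℝ))⁻¹) ^ A ≤
      (if p < 4 * A ^ 2 then (2 : ℝ) ^ A else 1) * (1 + 1 / Real.sqrt p) := by
    intro p hp
    have hpp := Nat.prime_of_mem_primeFactors hp
    have hp2 : (2 : ℝ) ≤ p := by exact_mod_cast hpp.two_le
    have hs : 0 < Real.sqrt p := Real.sqrt_pos.mpr (by linarith)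
    have hs1 : 1 ≤ Real.sqrt p := by
      rw [Real.one_le_sqrt]; linarith
    have a1 : 1 / (p : ℝ) ≤ 1 / 2 := by gcongr
    have a2 : 0 < 1 / (p : ℝ) := by positivity
    split_ifs with hc
    · have a3 : (1 - 1 / (p : ℝ))⁻¹ ≤ 2 := by
        rw [inv_le_comm₀ (by linarith) (by norm_num)]
        linarith
      have a4 : ((1 - 1 / (p : ℝ))⁻¹) ^ A ≤ 2 ^ A :=
        pow_le_pow_left₀ (inv_nonneg.mpr (by linarith)) a3 A
      have a5 : (2 : ℝ) ^ A * 1 ≤ 2 ^ A * (1 + 1 / Real.sqrt p) := by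
        gcongr
        have : 0 < 1 / Real.sqrt p := by positivity
        linarith
      linarith
    · have a3 : (2 * A : ℝ) ≤ Real.sqrt p := by
        apply Real.le_sqrt_of_sq_le
        have : ((4 * A ^ 2 : ℕ) : ℝ) ≤ p := by exact_mod_cast (by omega : 4 * A ^ 2 ≤ p)
        push_cast at this
        linarith
      have a4 := one_add_mul_le_pow (a := -(1 / (p : ℝ))) (by linarith) A
      have a5 : Real.sqrt p * Real.sqrt p = p := Real.mul_self_sqrt (by linarith)
      rw [one_mul, inv_pow, inv_le_iff_one_le_mul₀ (pow_pos (by linarith) A)]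
      set s := Real.sqrt p with hsdef
      have a6 : 1 ≤ (1 + 1 / s) * (1 + A * -(1 / (p : ℝ))) := by
        rw [← a5]
        have e : (1 + 1 / s) * (1 + A * -(1 / (s * s))) - 1 = (s * s - A * s - A) / (s * s * s) := by
          field_simp
          ring
        have : 0 ≤ (s * s - A * s - A) / (s * s * s) := by
          apply div_nonneg _ (by positivity)
          have : (0 : ℝ) ≤ A := by positivity
          nlinarith
        linarith
      refine a6.trans ?_
      rw [← sub_eq_add_neg] at a4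
      exact mul_le_mul_of_nonneg_left a4 (by positivity)
  unfold eul
  rw [← prod_pow]
  refine (prod_le_prod (fun p hp => pow_nonneg (le_trans zero_le_one
    (one_le_eul_factor p (Nat.prime_of_mem_primeFactors hp))) A) h1).trans ?_
  rw [prod_mul_distrib]
  apply mul_le_mul _ _ (prod_nonneg (fun p _ => by positivity)) (by positivity)
  · rw [← prod_filter, prod_const]
    apply pow_le_pow_right₀ (one_le_pow₀ (by norm_num))
    calc (n.primeFactors.filter (fun p => p < 4 * A ^ 2)).card ≤ (range (4 * A ^ 2)).card :=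
          card_le_card (fun p hp => mem_range.mpr (mem_filter.mp hp).2)
      _ = _ := card_range _
  · rw [prod_one_add]
    have h2 : ∀ T ∈ n.primeFactors.powerset, ∏ p ∈ T, 1 / Real.sqrt p =
        1 / Real.sqrt ((∏ p ∈ T, p : ℕ) : ℝ) := by
      intro T _
      rw [prod_div_distrib, prod_const_one]
      push_cast
      rw [Real.sqrt_prod _ (fun p _ => by positivity)]
    rw [sum_congr rfl h2]
    have h3 : Set.InjOn (fun T : Finset ℕ => ∏ p ∈ T, p) (n.primeFactors.powerset : Set _) := by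
      intro D hD D' hD' hDD
      have a1 := Nat.primeFactors_prod (s := D)
        (fun p hp => Nat.prime_of_mem_primeFactors (mem_powerset.mp hD hp))
      have a2 := Nat.primeFactors_prod (s := D')
        (fun p hp => Nat.prime_of_mem_primeFactors (mem_powerset.mp hD' hp))
      simp only at hDD
      rw [← a1, ← a2, hDD]
    rw [← sum_image (f := fun e : ℕ => 1 / Real.sqrt e) h3]
    apply sum_le_sum_of_subset_of_nonneg _ (fun _ _ _ => by positivity)
    intro e he
    obtain ⟨T, hT, rfl⟩ := mem_image.mp he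
    exact Nat.mem_divisors.mpr ⟨(prod_dvd_prod_of_subset _ _ _ (mem_powerset.mp hT)).trans
      (Nat.prod_primeFactors_dvd n), hn⟩

lemma sum_inv_sqrt_le (H : ℕ) : ∑ e ∈ Icc 1 H, 1 / Real.sqrt e ≤ 2 * Real.sqrt H := by
  induction H with
  | zero => simp
  | succ H ih =>
    rw [sum_Icc_succ_top (by omega)]
    have ha := Real.sqrt_nonneg (H : ℝ)
    have hb : 0 < Real.sqrt ((H + 1 : ℕ) : ℝ) := Real.sqrt_pos.mpr (by positivity)
    have ha2 := Real.mul_self_sqrt (Nat.cast_nonneg (α := ℝ) H)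
    have hb2 := Real.mul_self_sqrt (Nat.cast_nonneg (α := ℝ) (H + 1))
    set a := Real.sqrt (H : ℝ)
    set b := Real.sqrt ((H + 1 : ℕ) : ℝ)
    push_cast at hb2
    have : 1 / b ≤ 2 * b - 2 * a := by
      rw [div_le_iff₀ hb]
      nlinarith [sq_nonneg (a - b)]
    linarith

lemma sum_inv_mul_sqrt_le (H : ℕ) (hH : 1 ≤ H) :
    ∑ e ∈ Icc 1 H, 1 / Real.sqrt e * (1 / (e : ℝ)) ≤ 3 - 2 / Real.sqrt H := by
  induction H, hH using Nat.le_induction with
  | base => norm_num
  | succ H hH ih =>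
    rw [sum_Icc_succ_top (by omega)]
    have ha : 0 < Real.sqrt (H : ℝ) := Real.sqrt_pos.mpr (by exact_mod_cast hH)
    have hb : 0 < Real.sqrt ((H + 1 : ℕ) : ℝ) := Real.sqrt_pos.mpr (by positivity)
    have hab : Real.sqrt (H : ℝ) ≤ Real.sqrt ((H + 1 : ℕ) : ℝ) := by
      apply Real.sqrt_le_sqrt
      push_cast
      linarith
    have ha2 := Real.mul_self_sqrt (Nat.cast_nonneg (α := ℝ) H)
    have hb2 := Real.mul_self_sqrt (Nat.cast_nonneg (α := ℝ) (H + 1))
    set a := Real.sqrt (H : ℝ)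
    set b := Real.sqrt ((H + 1 : ℕ) : ℝ)
    have h1 : b * b = a * a + 1 := by rw [ha2, hb2]; push_cast; ring
    have : 1 / b * (1 / ((H + 1 : ℕ) : ℝ)) ≤ 2 / a - 2 / b := by
      rw [← hb2, div_mul_div_comm, div_sub_div _ _ ha.ne' hb.ne', div_le_div_iff₀ (by positivity)
        (by positivity)]
      have h2 : (b - a) * (b + a) = 1 := by linarith
      have h3 : a * (b + a) ≤ 2 * (b * b) := by nlinarith
      have h4 : a * b * ((b - a) * (b + a)) ≤ (b - a) * b * (2 * (b * b)) := by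
        have : a * b * ((b - a) * (b + a)) = (b - a) * b * (a * (b + a)) := by ring
        rw [this]
        apply mul_le_mul_of_nonneg_left h3
        exact mul_nonneg (by linarith) hb.le
      rw [h2] at h4
      linarith
    linarith

/-- Distance of two natural numbers. -/
def dd (a b : ℕ) : ℕ := ((a : ℤ) - b).natAbs

lemma dvd_dd (e a b : ℕ) : e ∣ dd a b ↔ b ≡ a [MOD e] := by
  unfold dd
  rw [Nat.modEq_iff_dvd, Int.natCast_dvd]

lemma sum_eul_le (A : ℕ) : ∃ C : ℝ, 0 < C ∧ ∀ (t Y H h' : ℕ) (I : Finset ℕ), h' ≤ H →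
    I ⊆ Ico t (t + Y) → (∀ h ∈ I, h ≤ H ∧ h ≠ h') →
    ∑ h ∈ I, eul (dd h h') ^ A ≤ C * (Y + Real.sqrt H) := by
  classical
  obtain ⟨C, hC, h1⟩ := eul_pow_le A
  refine ⟨3 * C, by positivity, ?_⟩
  intro t Y H h' I hh' hI hI2
  have h2 : ∀ h ∈ I, eul (dd h h') ^ A ≤
      C * ∑ e ∈ Icc 1 H, if h' ≡ h [MOD e] then 1 / Real.sqrt e else 0 := by
    intro h hh
    obtain ⟨a1, a2⟩ := hI2 h hh
    have a3 : dd h h' ≠ 0 := by unfold dd; omega
    have a4 : dd h h' ≤ H := by unfold dd; omega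
    refine (h1 _ a3).trans (mul_le_mul_of_nonneg_left ?_ hC.le)
    rw [← sum_filter]
    apply sum_le_sum_of_subset_of_nonneg _ (fun _ _ _ => by positivity)
    intro e he
    have a5 := Nat.dvd_of_mem_divisors he
    exact mem_filter.mpr ⟨mem_Icc.mpr ⟨Nat.pos_of_mem_divisors he,
      (Nat.divisor_le he).trans a4⟩, (dvd_dd _ _ _).mp a5⟩
  refine (sum_le_sum h2).trans ?_
  rw [← mul_sum, sum_comm]
  have h3 : ∀ e ∈ Icc 1 H, ∑ h ∈ I, (if h' ≡ h [MOD e] then 1 / Real.sqrt e else 0) ≤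
      Y * (1 / Real.sqrt e * (1 / (e : ℝ))) + 1 / Real.sqrt e := by
    intro e he
    have he1 := (mem_Icc.mp he).1
    rw [← sum_filter, sum_const, nsmul_eq_mul]
    have a1 := cover (I.filter (fun h => h' ≡ h [MOD e])) t Y e he1
      ((filter_subset _ _).trans hI) 1 (by
        intro j
        have : (I.filter (fun h => h' ≡ h [MOD e]) ∩ Ico j (j + e)).card ≤ 1 := by
          rw [card_le_one]
          intro a ha b hb
          simp only [mem_inter, mem_filter, mem_Ico] at ha hb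
          have a2 : a ≡ b [MOD e] := ha.1.2.symm.trans hb.1.2
          exact Nat.ModEq.eq_of_abs_lt a2 (by rw [abs_lt]; constructor <;> omega)
        exact_mod_cast this)
    calc ((I.filter (fun h => h' ≡ h [MOD e])).card : ℝ) * (1 / Real.sqrt e)
        ≤ (1 * ((Y : ℝ) / e + 1)) * (1 / Real.sqrt e) := by gcongr
      _ = _ := by ring
  have h4 := sum_le_sum h3
  rw [sum_add_distrib, ← mul_sum] at h4
  have h5 := sum_inv_sqrt_le H
  have h6 : ∑ e ∈ Icc 1 H, 1 / Real.sqrt e * (1 / (e : ℝ)) ≤ 3 := by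
    rcases Nat.eq_zero_or_pos H with rfl | hH
    · simp
    · have := sum_inv_mul_sqrt_le H hH
      have : 0 ≤ 2 / Real.sqrt H := by positivity
      linarith
  have h7 := mul_le_mul_of_nonneg_left h6 (Nat.cast_nonneg (α := ℝ) Y)
  have h8 := Real.sqrt_nonneg (H : ℝ)
  calc C * ∑ e ∈ Icc 1 H, ∑ h ∈ I, (if h' ≡ h [MOD e] then 1 / Real.sqrt e else 0)
      ≤ C * (3 * (Y + Real.sqrt H)) := by
        apply mul_le_mul_of_nonneg_left _ hC.le
        linarith
    _ = _ := by ring

end Pool.Agent.Lib.MP_ce1fc8_nt
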