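import Pool.Agent.Lib.MP_ce1fc8_nt.Barrier
import Pool.Agent.Lib.MP_ce1fc8_nt.KeyLemma

set_option autoImplicit false

namespace Pool.Agent.Lib.MP_ce1fc8_nt

open Finset

lemma exists_steps (δ : ℝ) (hδ : 0 < δ) : ∃ s : ℕ, 1 < δ * (1 + 1 / 1000) ^ s := by
  obtain ⟨s, hs⟩ := pow_unbounded_of_one_lt (1 / δ) (by norm_num : (1 : ℝ) < 1 + 1 / 1000)
  refine ⟨s, ?_⟩
  rw [div_lt_iff₀ hδ] at hs
  linarith

theorem stage_two (δ : ℝ) (hδ : 0 < δ) : ∃ b : ℕ, 1 ≤ b ∧ ∀ (C : ℝ) (k : ℕ), 0 < C →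
    ∃ q0 l0 : ℕ, ∀ q : ℕ, q0 ≤ q → ∀ (A : Finset ℕ) (y : ℕ → ℝ), A ⊆ range (q ^ b) →
      δ * ((q ^ b : ℕ) : ℝ) ≤ A.card → (∀ n ∈ A, |y n| ≤ C * q) →
      (∀ a ∈ A, ∀ b ∈ A, ∀ c ∈ A, a + b = 2 * c → y a + y b ≤ 2 * y c) →
      ∃ (a d : ℕ) (S : Finset ℕ) (μ ν : ℝ), 1 ≤ d ∧ S ⊆ range l0 ∧ S.card = k ∧
        ∀ i ∈ S, a + d * i ∈ A ∧ |y (a + d * i) - (μ * i + ν)| ≤ 1 / q := by
  obtain ⟨s, hs⟩ := exists_steps δ hδ
  set ε : ℝ := δ ^ 3 / 400 with hεdef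
  have hε : 0 < ε := by positivity
  obtain ⟨L, hL⟩ := exists_nat_ge (13 / ε)
  rw [div_le_iff₀ hε, mul_comm] at hL
  obtain ⟨R, hR⟩ := exists_nat_ge (16 * L / ε ^ 2)
  rw [div_le_iff₀ (by positivity), mul_comm (R : ℝ)] at hR
  refine ⟨(2 * R + 5) ^ s, Nat.one_le_pow _ _ (by omega), ?_⟩
  intro C k hC
  obtain ⟨l0, hl0⟩ := exists_nat_ge ((8 * k + 8) / δ)
  rw [div_le_iff₀ hδ] at hl0
  obtain ⟨q0, hq0⟩ := exists_nat_ge (64 / δ + 21 / ε + 28125 * C + 25 + l0)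
  refine ⟨q0, l0, ?_⟩
  intro T hT A y hA hAc hy hP
  have hT' : (q0 : ℝ) ≤ T := by exact_mod_cast hT
  have p1 : 0 < 64 / δ := by positivity
  have p2 : 0 < 21 / ε := by positivity
  have p3 : (0 : ℝ) ≤ l0 := by positivity
  have hT25 : (25 : ℝ) ≤ T := by linarith
  have hT1 : 1 ≤ T := by exact_mod_cast (by linarith : (1 : ℝ) ≤ T)
  obtain ⟨q, a, d, σ, A', hTq, hd, hδσ, -, hA', hA'A, hA'c, hmax⟩ :=
    increment (1 / 1000) (by norm_num) (fun d => 1 ≤ d) le_rfl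
      (fun d d' h h' => Nat.mul_pos h h') (2 * R + 5) T hT1 s δ A hA hAc hs (by omega)
  have hTq' : (T : ℝ) ≤ q := by exact_mod_cast hTq
  have hσ : 0 < σ := lt_of_lt_of_le hδ hδσ
  have hq25 : (25 : ℝ) ≤ q := by linarith
  have hq25' : 25 ≤ q := by exact_mod_cast hq25
  have hqpos : (0 : ℝ) < q := by linarith
  have hq64 : 64 ≤ σ * q := by
    have : 64 / δ ≤ q := by linarith
    rw [div_le_iff₀ hδ] at this
    nlinarith
  have hq21 : 21 / (q : ℝ) ≤ ε := by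
    have : 21 / ε ≤ q := by linarith
    rw [div_le_iff₀ hε] at this
    rw [div_le_iff₀ hqpos]
    linarith
  set l := q ^ (2 * R + 2) with hl
  set K1 := q ^ (2 * R + 3) with hK1
  set K := q ^ (2 * R + 5) with hK
  have hK1l : K1 = q * l := by rw [hK1, hl]; ring
  have hKK1 : K = q ^ 2 * K1 := by rw [hK, hK1]; ring
  have hql : q ≤ l := by rw [hl]; exact Nat.le_self_pow (by omega) q
  have hlK1 : l ≤ K1 := by rw [hK1l]; exact Nat.le_mul_of_pos_left _ (by omega)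
  have hq2 : 625 ≤ q ^ 2 := by nlinarith
  have hK625 : 625 * K1 ≤ K := by rw [hKK1]; exact Nat.mul_le_mul_right _ hq2
  set N := K / 24 with hN
  have hlpos : (0 : ℝ) < l := by exact_mod_cast (by omega : 0 < l)
  have hql' : (q : ℝ) ≤ l := by exact_mod_cast hql
  have hK1r : (K1 : ℝ) = q * l := by exact_mod_cast hK1l
  have h64 : 64 * (l : ℝ) ≤ σ * K1 := by rw [hK1r]; nlinarith
  set m := ⌊σ * l / 16⌋₊ + 1 with hm
  have hm1 : σ * l / 16 ≤ m := by
    rw [hm]; push_cast; exact (Nat.lt_floor_add_one _).le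
  have hm2 : (m : ℝ) - 1 ≤ σ * l / 16 := by
    rw [hm]; push_cast
    have := Nat.floor_le (by positivity : 0 ≤ σ * l / 16)
    linarith
  have hTpos : (0 : ℝ) < T := by linarith
  obtain ⟨u, n, B, μ, ν, hn, hB, hBc, hBy⟩ := barrier K N K1 q l m 0 σ (C * T) 0 A'
    (fun t => y (a + d * t)) hσ (by positivity) le_rfl (by omega) (by omega) hA' hA'c (by omega)
    (fun n hn => hmax n 1 le_rfl (by omega)) (fun n hn => hy _ (hA'A n hn)) (by omega) (by omega)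
    hm2 (by linarith) (by omega)
    (kl_two K K1 q l m R L (q ^ 2) σ ε A' (fun t => y (a + d * t)) hσ (by omega) (by omega)
      (by omega) hε hmax
      (by
        intro a1 h1 b1 h2 c1 h3 h4
        apply hP _ (hA'A _ h1) _ (hA'A _ h2) _ (hA'A _ h3)
        calc a + d * a1 + (a + d * b1) = 2 * a + d * (a1 + b1) := by ring
          _ = 2 * (a + d * c1) := by rw [h4]; ring)
      (by
        have : δ ^ 3 ≤ σ ^ 3 := by gcongr
        linarith)
      hL hR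
      (by
        refine le_trans (le_of_eq ?_) hq21
        rw [hl]
        push_cast
        field_simp
        ring)
      (by
        rw [hl]
        calc 2 * (q ^ 2) ^ R * q ≤ q * (q ^ 2) ^ R * q := by gcongr; omega
          _ = q ^ (2 * R + 2) := by ring)
      h64 hlK1 hm1)
  have hw : (0 : ℝ) + 5 * (C * T) * ((0 : ℕ) : ℝ) / N + 45 * (C * T) * (K1 : ℝ) ^ 2 / (N : ℝ) ^ 2
      ≤ 1 / T := by
    have hNpos : (0 : ℝ) < N := by exact_mod_cast (by omega : 0 < N)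
    have h1 : (K : ℝ) ≤ 25 * N := by exact_mod_cast (by omega : K ≤ 25 * N)
    have h2 : (K : ℝ) = q ^ 2 * K1 := by exact_mod_cast hKK1
    have hK1pos : (0 : ℝ) < K1 := by rw [hK1r]; positivity
    simp only [Nat.cast_zero, mul_zero, zero_div, add_zero, zero_add]
    rw [div_le_div_iff₀ (by positivity) hTpos]
    have h3 : ((q : ℝ) ^ 2 * K1) ^ 2 ≤ (25 * N) ^ 2 := by
      rw [← h2]; gcongr
    have h4 : 28125 * C ≤ q := by linarith
    have h5 : 28125 * C * T * T ≤ q * q * q := by gcongr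
    have h6 : (q : ℝ) * q * q ≤ q * q * q * q := by
      have : (q : ℝ) * q * q * 1 ≤ q * q * q * q := by gcongr; linarith
      linarith
    have h7 : 28125 * C * T * T * (K1 : ℝ) ^ 2 ≤ q * q * q * q * (K1 : ℝ) ^ 2 :=
      mul_le_mul_of_nonneg_right (h5.trans h6) (by positivity)
    nlinarith
  have hl0pos : 0 < l0 := by
    by_contra hc
    have : l0 = 0 := by omega
    rw [this] at hl0
    have : (0 : ℝ) ≤ k := by positivity
    simp only [Nat.cast_zero, zero_mul] at hl0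
    linarith
  obtain ⟨j, hj⟩ : ∃ j, k ≤ (B ∩ Ico j (j + l0)).card := by
    by_contra hc
    push Not at hc
    have h1 := cover B u n l0 hl0pos (hB.trans inter_subset_right) k
      (fun j => by exact_mod_cast (hc j).le)
    have hl0r : (0 : ℝ) < l0 := by exact_mod_cast hl0pos
    have h2 : (l0 : ℝ) ≤ n := by
      have : (q : ℝ) ≤ n := by exact_mod_cast (by omega : q ≤ n)
      linarith
    have h3 : 1 ≤ (n : ℝ) / l0 := by rw [le_div_iff₀ hl0r]; linarith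
    have h4 : (n : ℝ) = n / l0 * l0 := by field_simp
    have h5 : (8 * k + 8 : ℝ) ≤ l0 * σ := hl0.trans (by gcongr)
    have h6 : (0 : ℝ) ≤ k := by positivity
    have h7 : (8 * k + 8 : ℝ) * (n / l0) ≤ l0 * σ * (n / l0) := by gcongr
    have h8 : l0 * σ * (n / l0) = σ * n := by field_simp
    nlinarith
  rw [← card_sub_one] at hj
  obtain ⟨S, hS1, hS2⟩ := exists_subset_card_eq hj
  refine ⟨a + d * j, d, S, μ, μ * j + ν, hd, hS1.trans (filter_subset _ _), hS2, ?_⟩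
  intro i hi
  have h1 := (mem_filter.mp (hS1 hi)).2
  rw [one_mul] at h1
  have e : a + d * j + d * i = a + d * (j + i) := by ring
  rw [e]
  refine ⟨hA'A _ (mem_inter.mp (hB h1)).1, ?_⟩
  have h2 := (hBy _ h1).trans hw
  have e2 : μ * i + (μ * j + ν) = μ * ((j + i : ℕ) : ℝ) + ν := by push_cast; ring
  rw [e2]
  exact h2

theorem stage_one (δ C : ℝ) (hδ : 0 < δ) (hC : 0 < C) (b : ℕ) :
    ∃ (B T0 : ℕ) (C' : ℝ), 1 ≤ B ∧ 0 < C' ∧ ∀ T : ℕ, T0 ≤ T → ∀ (A : Finset ℕ) (x : ℕ → ℝ),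
      A ⊆ range (T ^ B) → δ * ((T ^ B : ℕ) : ℝ) ≤ A.card → Monotone x →
      x (T ^ B) - x 0 ≤ C * ((T ^ B : ℕ) : ℝ) →
      (∀ a b c : ℕ, a < T ^ B → b < T ^ B → c ∈ A → a + b = 2 * c → x a + x b ≤ 2 * x c) →
      ∃ (q j : ℕ) (A2 : Finset ℕ) (μ ν : ℝ), T ≤ q ∧ A2 ⊆ range (q ^ b) ∧
        δ / 16 * ((q ^ b : ℕ) : ℝ) ≤ A2.card ∧
        ∀ i ∈ A2, j + i ∈ A ∧ |x (j + i) - (μ * i + ν)| ≤ C' * q := by
  classical
  obtain ⟨s, hs⟩ := exists_steps (δ / 2) (by positivity)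
  set C1 : ℝ := 2 * C / δ with hC1
  have hC1pos : 0 < C1 := by positivity
  obtain ⟨T0, hT0⟩ := exists_nat_ge (64 / δ + 25)
  refine ⟨(2 * b + 4) ^ s, T0, 28377 * C1, Nat.one_le_pow _ _ (by omega), by positivity, ?_⟩
  intro T hT A x hA hAc hx hxK hP
  have hT' : (T0 : ℝ) ≤ T := by exact_mod_cast hT
  have p1 : 0 < 64 / δ := by positivity
  have hT25 : (25 : ℝ) ≤ T := by linarith
  have hT1 : 1 ≤ T := by exact_mod_cast (by linarith : (1 : ℝ) ≤ T)
  set K0 := T ^ (2 * b + 4) ^ s with hK0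
  have htel : ∀ u v : ℕ, u ≤ v → ∑ n ∈ Ico u v, (x (n + 1) - x n) = x v - x u :=
    fun u v h => sum_Ico_sub x h
  set Bad := (range K0).filter
    (fun g => ∃ h : ℕ, h ≤ g ∧ C1 * h < ∑ n ∈ Ico (g - h) g, (x (n + 1) - x n)) with hBad
  have h1 := sun_left (fun n => x (n + 1) - x n) K0 C1
    (fun n _ => sub_nonneg.mpr (hx (Nat.le_succ n))) hC1pos.le Bad
    (fun g hg => ⟨(mem_range.mp (mem_filter.mp hg).1).le, (mem_filter.mp hg).2⟩)
  rw [range_eq_Ico, htel 0 K0 (Nat.zero_le _)] at h1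
  have h2 : (Bad.card : ℝ) ≤ δ / 2 * K0 := by
    have : C1 * Bad.card ≤ C1 * (δ / 2 * K0) := by
      refine (h1.trans hxK).trans (le_of_eq ?_)
      rw [hC1]; field_simp
    exact le_of_mul_le_mul_left this hC1pos
  have hA1c : δ / 2 * K0 ≤ ((A \ Bad).card : ℝ) := by
    have := le_card_sdiff Bad A
    have h3 : (A.card : ℝ) ≤ (A \ Bad).card + Bad.card := by exact_mod_cast (by omega)
    linarith
  have hLip : ∀ g ∈ A \ Bad, ∀ h : ℕ, h ≤ g → x g - x (g - h) ≤ C1 * h := by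
    intro g hg h hh
    have hg' := mem_sdiff.mp hg
    by_contra hc
    push Not at hc
    apply hg'.2
    refine mem_filter.mpr ⟨hA hg'.1, h, hh, ?_⟩
    rw [htel _ _ (Nat.sub_le _ _)]
    exact hc
  obtain ⟨q, a, d, σ, A', hTq, hd, hδσ, hlt, hA', hA'A, hA'c, hmax⟩ :=
    increment (1 / 1000) (by norm_num) (fun d => d = 1) rfl
      (fun d d' h h' => by rw [h, h']) (2 * b + 4) T hT1 s (δ / 2) (A \ Bad)
      (sdiff_subset.trans hA) hA1c hs (by omega)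
  subst hd
  simp only [one_mul] at hlt hA'A
  rw [← hK0] at hlt
  have hTq' : (T : ℝ) ≤ q := by exact_mod_cast hTq
  have hσ : 0 < σ := lt_of_lt_of_le (by positivity) hδσ
  have hq25 : (25 : ℝ) ≤ q := by linarith
  have hq25' : 25 ≤ q := by exact_mod_cast hq25
  have hqpos : (0 : ℝ) < q := by linarith
  have hq64 : 32 ≤ σ * q := by
    have : 64 / δ ≤ q := by linarith
    rw [div_le_iff₀ hδ] at this
    nlinarith
  set K1 := q ^ (b + 2) with hK1
  set K := q ^ (2 * b + 4) with hK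
  have hKK1 : K = K1 * K1 := by rw [hK, hK1]; ring
  have hqb : 1 ≤ q ^ b := Nat.one_le_pow _ _ (by omega)
  have hK1b : K1 = q * q * q ^ b := by rw [hK1]; ring
  have hqq : q * q ≤ K1 := by rw [hK1b]; exact Nat.le_mul_of_pos_right _ hqb
  have h625 : 625 ≤ K1 := by nlinarith
  have hqK1 : q ≤ K1 := by nlinarith
  have hK625 : 625 * K1 ≤ K := by rw [hKK1]; exact Nat.mul_le_mul_right _ h625
  set N := K / 24 with hN
  have hqq' : (q : ℝ) * q ≤ K1 := by exact_mod_cast hqq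
  have h16 : 16 * ((q : ℝ) + (1 : ℕ)) ≤ σ * K1 := by
    have : σ * (q * q) ≤ σ * K1 := by gcongr
    push_cast
    nlinarith
  have hKpos : (0 : ℝ) < K := by exact_mod_cast (by omega : 0 < K)
  obtain ⟨u, n, B, μ, ν, hn, hB, hBc, hBy⟩ := barrier K N K1 q 1 1 (2 * q) σ (C1 * K) (2 * C1 * q)
    A' (fun t => x (a + t) - x a) hσ (by positivity) (by positivity) (by omega) (by omega) hA' hA'c
    (by omega) (fun n hn => hmax n 1 rfl (by omega))
    (by
      intro t ht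
      have h3 := hLip _ (hA'A t ht) t (by omega)
      rw [Nat.add_sub_cancel] at h3
      have h4 : x a ≤ x (a + t) := hx (by omega)
      have h5 : (t : ℝ) ≤ K := by exact_mod_cast (mem_range.mp (hA' ht)).le
      have h6 : C1 * t ≤ C1 * K := by gcongr
      rw [abs_of_nonneg (by linarith)]
      linarith)
    le_rfl le_rfl (by simp only [Nat.cast_one, sub_self]; positivity) h16 (by omega)
    (kl_one K K1 q σ C1 A' (fun t => x (a + t) - x a) hσ (by omega) hC1pos.le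
      (fun n hn => hmax n 1 rfl (by omega)) h16 hqK1
      (by
        intro a1 b1 c1 h3 h4 h5 h6
        have := hP (a + a1) (a + b1) (a + c1) (by omega) (by omega)
          (mem_sdiff.mp (hA'A _ h5)).1 (by omega)
        linarith)
      (by
        intro b1 h3 h h4
        have := hLip _ (hA'A _ h3) h (by omega)
        have e : a + b1 - h = a + (b1 - h) := by omega
        rw [e] at this
        linarith))
  have hw : 2 * C1 * q + 5 * (C1 * K) * ((2 * q : ℕ) : ℝ) / N +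
      45 * (C1 * K) * (K1 : ℝ) ^ 2 / (N : ℝ) ^ 2 ≤ 28377 * C1 * q := by
    have hNpos : (0 : ℝ) < N := by exact_mod_cast (by omega : 0 < N)
    have h3 : (K : ℝ) ≤ 25 * N := by exact_mod_cast (by omega : K ≤ 25 * N)
    have h4 : (K1 : ℝ) ^ 2 = K := by rw [sq]; exact_mod_cast hKK1.symm
    have h5 : 5 * (C1 * K) * ((2 * q : ℕ) : ℝ) / N ≤ 250 * C1 * q := by
      rw [div_le_iff₀ hNpos]
      push_cast
      have : C1 * q * K ≤ C1 * q * (25 * N) := by gcongr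
      nlinarith
    have h6 : 45 * (C1 * K) * (K1 : ℝ) ^ 2 / (N : ℝ) ^ 2 ≤ 28125 * C1 := by
      rw [div_le_iff₀ (by positivity), h4]
      have : C1 * (K * K) ≤ C1 * ((25 * N) * (25 * N)) := by gcongr
      nlinarith
    have h7 : 28125 * C1 * 1 ≤ 28125 * C1 * q := by gcongr; linarith
    linarith
  have hqbr : (0 : ℝ) < ((q ^ b : ℕ) : ℝ) := by exact_mod_cast hqb
  obtain ⟨j, hj⟩ : ∃ j, δ / 16 * ((q ^ b : ℕ) : ℝ) ≤ ((B ∩ Ico j (j + q ^ b)).card : ℝ) := by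
    by_contra hc
    push Not at hc
    have h3 := cover B u n (q ^ b) hqb (hB.trans inter_subset_right) _ (fun j => (hc j).le)
    have h4 : ((q ^ b : ℕ) : ℝ) < n := by
      have h8 : 625 * q ^ b ≤ K1 := by
        rw [hK1b]
        exact Nat.mul_le_mul_right _ (by nlinarith)
      have : q ^ b < n := by omega
      exact_mod_cast this
    have h5 : δ / 16 * ((q ^ b : ℕ) : ℝ) * ((n : ℝ) / ((q ^ b : ℕ) : ℝ) + 1) =
        δ / 16 * (n + ((q ^ b : ℕ) : ℝ)) := by field_simp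
    rw [h5] at h3
    have h6 : δ / 2 * n ≤ σ * n := by gcongr
    nlinarith
  rw [← card_sub_one] at hj
  refine ⟨q, a + j, sub B j 1 (q ^ b), μ, μ * j + ν + x a, hTq, filter_subset _ _, hj, ?_⟩
  intro i hi
  have h3 := (mem_filter.mp hi).2
  rw [one_mul] at h3
  have e : a + j + i = a + (j + i) := by ring
  rw [e]
  refine ⟨(mem_sdiff.mp (hA'A _ (mem_inter.mp (hB h3)).1)).1, ?_⟩
  have h4 := (hBy _ h3).trans hw
  have e2 : x (a + (j + i)) - (μ * i + (μ * j + ν + x a)) =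
      x (a + (j + i)) - x a - (μ * ((j + i : ℕ) : ℝ) + ν) := by push_cast; ring
  rw [e2]
  exact h4

theorem structure_thm (δ C : ℝ) (hδ : 0 < δ) (hC : 0 < C) :
    ∃ B : ℕ, 1 ≤ B ∧ ∀ k : ℕ, ∃ T0 l0 : ℕ, ∀ T : ℕ, T0 ≤ T → ∀ (A : Finset ℕ) (x : ℕ → ℝ),
      A ⊆ range (T ^ B) → δ * ((T ^ B : ℕ) : ℝ) ≤ A.card → Monotone x →
      x (T ^ B) - x 0 ≤ C * ((T ^ B : ℕ) : ℝ) →
      (∀ a b c : ℕ, a < T ^ B → b < T ^ B → c ∈ A → a + b = 2 * c → x a + x b ≤ 2 * x c) →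
      ∃ (a d : ℕ) (S : Finset ℕ) (μ ν : ℝ), 1 ≤ d ∧ S ⊆ range l0 ∧ S.card = k ∧
        ∀ i ∈ S, a + d * i < T ^ B ∧ |x (a + d * i) - (μ * i + ν)| ≤ 1 / T := by
  obtain ⟨b, -, h2⟩ := stage_two (δ / 16) (by positivity)
  obtain ⟨B, T1, C', hB, hC', h1⟩ := stage_one δ C hδ hC b
  refine ⟨B, hB, ?_⟩
  intro k
  obtain ⟨q0, l0, h3⟩ := h2 C' k hC'
  refine ⟨max (max T1 q0) 1, l0, ?_⟩
  intro T hT A x hA hAc hx hxK hP
  have hT1 : T1 ≤ T := le_trans (le_trans (le_max_left _ _) (le_max_left _ _)) hT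
  have hT2 : q0 ≤ T := le_trans (le_trans (le_max_right _ _) (le_max_left _ _)) hT
  have hT3 : 1 ≤ T := le_trans (le_max_right _ _) hT
  obtain ⟨q, j, A2, μ, ν, hTq, hA2, hA2c, hA2y⟩ := h1 T hT1 A x hA hAc hx hxK hP
  obtain ⟨a, d, S, μ', ν', hd, hS1, hS2, hS3⟩ := h3 q (hT2.trans hTq) A2
    (fun i => x (j + i) - (μ * i + ν)) hA2 hA2c (fun n hn => (hA2y n hn).2)
    (by
      intro a1 h4 b1 h5 c1 h6 h7
      have h8 := hP (j + a1) (j + b1) (j + c1) (mem_range.mp (hA (hA2y _ h4).1))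
        (mem_range.mp (hA (hA2y _ h5).1)) (hA2y _ h6).1 (by omega)
      have h9 : (a1 : ℝ) + b1 = 2 * c1 := by exact_mod_cast h7
      have h10 : μ * a1 + μ * b1 = 2 * (μ * c1) := by rw [← mul_add, h9]; ring
      linarith)
  refine ⟨j + a, d, S, μ' + μ * d, ν' + μ * a + ν, hd, hS1, hS2, ?_⟩
  intro i hi
  obtain ⟨h4, h5⟩ := hS3 i hi
  rw [add_assoc]
  refine ⟨mem_range.mp (hA (hA2y _ h4).1), ?_⟩
  have e : x (j + (a + d * i)) - ((μ' + μ * d) * i + (ν' + μ * a + ν)) =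
      x (j + (a + d * i)) - (μ * ((a + d * i : ℕ) : ℝ) + ν) - (μ' * i + ν') := by
    push_cast; ring
  rw [e]
  refine h5.trans ?_
  have h6 : (1 : ℝ) ≤ T := by exact_mod_cast hT3
  have h7 : (T : ℝ) ≤ q := by exact_mod_cast hTq
  gcongr

end Pool.Agent.Lib.MP_ce1fc8_nt
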